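import Mathlib

/-!
# The no-retraction theorem (Milnor-Rogers proof)

`no_smooth_retraction` : there is no smooth retraction of the closed unit ball of a Euclidean space
onto the unit sphere.
-/

open Set Metric MeasureTheory Topology
open scoped NNReal ENNReal

namespace Pool.Agent.Work.MP_783066_gt

section Poly

variable {E : Type*} [NormedAddCommGroup E] [NormedSpace ℝ E] [FiniteDimensional ℝ E]

/-- `t ↦ det (1 + t A)` is a polynomial of degree at most `dim E`. -/
lemma exists_poly_det (A : E →L[ℝ] E) :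
    ∃ q : Polynomial ℝ, q.natDegree ≤ Module.finrank ℝ E ∧
      ∀ t : ℝ, q.eval t = (1 + t • A).det := by
  classical
  let b := Module.finBasis ℝ E
  let M := LinearMap.toMatrix b b (A : E →ₗ[ℝ] E)
  let I1 : Matrix (Fin (Module.finrank ℝ E)) (Fin (Module.finrank ℝ E)) ℝ := 1
  refine ⟨((Polynomial.X : Polynomial ℝ) • M.map (Polynomial.C : ℝ → Polynomial ℝ)
    + I1.map (Polynomial.C : ℝ → Polynomial ℝ)).det, ?_, ?_⟩
  · have := Polynomial.natDegree_det_X_add_C_le M I1
    simpa using this
  · intro t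
    have h1 : (1 + t • A).det = LinearMap.det ((1 + t • A : E →L[ℝ] E) : E →ₗ[ℝ] E) := rfl
    rw [h1, ← LinearMap.det_toMatrix b]
    have h2 : LinearMap.toMatrix b b ((1 + t • A : E →L[ℝ] E) : E →ₗ[ℝ] E) = 1 + t • M := by
      have : ((1 + t • A : E →L[ℝ] E) : E →ₗ[ℝ] E) = LinearMap.id + t • (A : E →ₗ[ℝ] E) := by
        ext x; simp
      rw [this, map_add, map_smul, LinearMap.toMatrix_id]
    rw [h2, ← Polynomial.coe_evalRingHom, RingHom.map_det]
    congr 1
    ext i j
    simp only [RingHom.mapMatrix_apply, Matrix.map_apply, Matrix.add_apply, Matrix.smul_apply,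
      smul_eq_mul, Polynomial.coe_evalRingHom, Polynomial.eval_add, Polynomial.eval_mul,
      Polynomial.eval_X, Polynomial.eval_C, I1]
    ring

/-- Interpolation of `t ↦ det (1 + t A)` at `t = 1` from finitely many nodes. -/
lemma det_interp (v : ℕ → ℝ) (hv : Function.Injective v) :
    ∃ c : ℕ → ℝ, (∑ j ∈ Finset.range (Module.finrank ℝ E + 1), c j = 1) ∧
      ∀ A : E →L[ℝ] E, (1 + A).det =
        ∑ j ∈ Finset.range (Module.finrank ℝ E + 1), c j * (1 + v j • A).det := by
  classical
  set s := Finset.range (Module.finrank ℝ E + 1) with hs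
  have hinj : Set.InjOn v s := hv.injOn
  refine ⟨fun j => (Lagrange.basis s v j).eval 1, ?_, ?_⟩
  · have := Lagrange.sum_basis hinj (by simp [hs])
    have h2 := congrArg (Polynomial.eval 1) this
    rw [Polynomial.eval_finsetSum] at h2
    simpa using h2
  · intro A
    obtain ⟨q, hq, hqe⟩ := exists_poly_det A
    have hdeg : q.degree < s.card := by
      rw [hs, Finset.card_range]
      exact lt_of_le_of_lt Polynomial.degree_le_natDegree (by exact_mod_cast Nat.lt_succ_of_le hq)
    have h3 := Lagrange.eq_interpolate hinj hdeg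
    have h4 := congrArg (Polynomial.eval 1) h3
    rw [Lagrange.interpolate_apply, Polynomial.eval_finsetSum] at h4
    have h5 : (1 + A).det = q.eval 1 := by rw [hqe]; simp
    rw [h5, h4]
    refine Finset.sum_congr rfl fun j _ => ?_
    rw [Polynomial.eval_mul, Polynomial.eval_C, hqe]
    ring

end Poly

section Perturb

variable {E : Type*} [NormedAddCommGroup E] [NormedSpace ℝ E] [CompleteSpace E]

/-- A small Lipschitz perturbation of the identity is bijective. -/
lemma bijective_id_add {g : E → E} {L : ℝ≥0} (hg : LipschitzWith L g) {t : ℝ≥0}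
    (ht : t * L < 1) : Function.Bijective (fun x => x + (t : ℝ) • g x) := by
  constructor
  · intro x y hxy
    have h1 : x - y = (t : ℝ) • (g y - g x) := by
      have : x + (t : ℝ) • g x = y + (t : ℝ) • g y := hxy
      rw [smul_sub]
      rw [← sub_eq_zero] at this ⊢
      rw [← this]; abel
    have h2 : ‖x - y‖ ≤ (t * L : ℝ≥0) * ‖x - y‖ := by
      conv_lhs => rw [h1]
      rw [norm_smul]
      have h3 := hg.dist_le_mul y x
      rw [dist_eq_norm, dist_eq_norm, norm_sub_rev y x] at h3
      simp only [Real.norm_eq_abs, NNReal.abs_eq, NNReal.coe_mul]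
      calc (t : ℝ) * ‖g y - g x‖ ≤ t * (L * ‖x - y‖) := by gcongr
        _ = _ := by ring
    have h4 : ((t * L : ℝ≥0) : ℝ) < 1 := by exact_mod_cast ht
    have h5 : ‖x - y‖ = 0 := by
      by_contra hne
      have hpos : 0 < ‖x - y‖ := lt_of_le_of_ne (norm_nonneg _) (Ne.symm hne)
      nlinarith
    exact sub_eq_zero.mp (norm_eq_zero.mp h5)
  · intro y
    have hc : ContractingWith (t * L) (fun x => y - (t : ℝ) • g x) := by
      refine ⟨ht, ?_⟩
      refine LipschitzWith.of_dist_le_mul fun a b => ?_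
      have h3 := hg.dist_le_mul a b
      rw [dist_eq_norm] at h3 ⊢
      have : y - (t : ℝ) • g a - (y - (t : ℝ) • g b) = -((t : ℝ) • (g a - g b)) := by
        rw [smul_sub]; abel
      rw [this, norm_neg, norm_smul]
      simp only [Real.norm_eq_abs, NNReal.abs_eq, NNReal.coe_mul]
      calc (t : ℝ) * ‖g a - g b‖ ≤ t * (L * dist a b) := by gcongr
        _ = _ := by ring
    refine ⟨ContractingWith.fixedPoint _ hc, ?_⟩
    have h := hc.fixedPoint_isFixedPt
    have h' : y - (t : ℝ) • g (ContractingWith.fixedPoint _ hc) = ContractingWith.fixedPoint _ hc := h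
    show ContractingWith.fixedPoint _ hc + (t : ℝ) • g (ContractingWith.fixedPoint _ hc) = y
    conv_lhs => rw [← h']
    have h6 : g (y - (t : ℝ) • g (ContractingWith.fixedPoint _ hc)) =
      g (ContractingWith.fixedPoint _ hc) := by rw [h']
    rw [h6]; abel

end Perturb

section Smooth

variable {E : Type*} [NormedAddCommGroup E] [InnerProductSpace ℝ E] [FiniteDimensional ℝ E]

omit [FiniteDimensional ℝ E] in
/-- Extension by zero outside the closed unit ball of a function that vanishes on the sphere. -/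
lemma lipschitz_extend {g : E → E} {L : ℝ≥0} (hg : LipschitzOnWith L g (closedBall 0 1))
    (h0 : ∀ x, ‖x‖ = 1 → g x = 0) :
    LipschitzWith L (fun x => if ‖x‖ ≤ 1 then g x else 0) := by
  have key : ∀ x y : E, ‖x‖ ≤ 1 → ¬ ‖y‖ ≤ 1 → ‖g x‖ ≤ L * ‖x - y‖ := by
    intro x y hx hy
    rw [not_le] at hy
    -- find a point of norm one on the segment
    have hcont : ContinuousOn (fun t : ℝ => ‖x + t • (y - x)‖) (Icc 0 1) := by fun_prop
    have hmem : (1 : ℝ) ∈ Icc (‖x + (0 : ℝ) • (y - x)‖) (‖x + (1 : ℝ) • (y - x)‖) := by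
      constructor
      · simpa using hx
      · simpa using hy.le
    obtain ⟨t, ht, ht1⟩ := intermediate_value_Icc (zero_le_one' ℝ) hcont hmem
    have ht1' : ‖x + t • (y - x)‖ = 1 := ht1
    have h1 := hg.dist_le_mul x (by simpa using hx) (x + t • (y - x)) (by simp [ht1'])
    rw [dist_eq_norm, dist_eq_norm, h0 _ ht1', sub_zero] at h1
    refine h1.trans ?_
    gcongr
    have h2 : x - (x + t • (y - x)) = t • (x - y) := by
      rw [smul_sub, smul_sub]; abel
    rw [h2, norm_smul, Real.norm_eq_abs, abs_of_nonneg ht.1]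
    nlinarith [norm_nonneg (x - y), ht.2]
  refine LipschitzWith.of_dist_le_mul fun x y => ?_
  rw [dist_eq_norm, dist_eq_norm]
  by_cases hx : ‖x‖ ≤ 1 <;> by_cases hy : ‖y‖ ≤ 1
  · simp only [hx, hy, if_true]
    have := hg.dist_le_mul x (by simpa using hx) y (by simpa using hy)
    rwa [dist_eq_norm, dist_eq_norm] at this
  · simp only [hx, hy, if_true, if_false, sub_zero]
    exact key x y hx hy
  · simp only [hx, hy, if_true, if_false, zero_sub, norm_neg]
    rw [norm_sub_rev]
    exact key y x hy hx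
  · simp only [hx, hy, if_false, sub_self, norm_zero]
    positivity

/-- Milnor-Rogers: there is no smooth retraction of the ball onto the sphere. -/
theorem no_smooth_retraction [Nontrivial E] (f : E → E) (hf : ContDiff ℝ 1 f)
    (h1 : ∀ x, ‖x‖ = 1 → f x = x) (h2 : ∀ x, ‖x‖ ≤ 1 → ‖f x‖ = 1) : False := by
  classical
  let _ : MeasurableSpace E := borel E
  have _ : BorelSpace E := ⟨rfl⟩
  let μ : Measure E := Measure.addHaar
  set g0 : E → E := fun x => f x - x with hg0
  have hg0c : ContDiff ℝ 1 g0 := hf.sub contDiff_id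
  have hg0d : ∀ x, DifferentiableAt ℝ g0 x := fun x => (hg0c.differentiable one_ne_zero) x
  have hDc : Continuous (fderiv ℝ g0) := hg0c.continuous_fderiv one_ne_zero
  -- bound on the derivative
  obtain ⟨C, hC⟩ := (isCompact_closedBall (0 : E) 1).exists_bound_of_continuousOn hDc.continuousOn
  set L : ℝ≥0 := ⟨max C 1, le_max_of_le_right zero_le_one⟩ with hL
  have hL1 : (1 : ℝ) ≤ L := le_max_right _ _
  have hLb : ∀ x ∈ closedBall (0 : E) 1, ‖fderiv ℝ g0 x‖ ≤ L := fun x hx =>
    (hC x hx).trans (le_max_left _ _)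
  have hlip : LipschitzOnWith L g0 (closedBall 0 1) :=
    Convex.lipschitzOnWith_of_nnnorm_fderiv_le (fun x _ => hg0d x)
      (fun x hx => by exact_mod_cast hLb x hx) (convex_closedBall 0 1)
  have hg0s : ∀ x, ‖x‖ = 1 → g0 x = 0 := fun x hx => by simp [hg0, h1 x hx]
  set g : E → E := fun x => if ‖x‖ ≤ 1 then g0 x else 0 with hg
  have hglip : LipschitzWith L g := lipschitz_extend hlip hg0s
  -- positivity of the determinant near the identity
  have hdetc : Continuous fun A : E →L[ℝ] E => (1 + A).det :=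
    ContinuousLinearMap.continuous_det.comp (continuous_const.add continuous_id)
  have hopen : IsOpen {A : E →L[ℝ] E | 0 < (1 + A).det} := isOpen_lt continuous_const hdetc
  have h0mem : (0 : E →L[ℝ] E) ∈ {A : E →L[ℝ] E | 0 < (1 + A).det} := by
    have h00 : (1 : E →L[ℝ] E).det = 1 := by
      show LinearMap.det ((1 : E →L[ℝ] E) : E →ₗ[ℝ] E) = 1
      rw [ContinuousLinearMap.toLinearMap_one, map_one]
    simp [h00]
  obtain ⟨δ, hδ, hδs⟩ := Metric.isOpen_iff.1 hopen 0 h0mem
  -- the small parameter
  set t0 : ℝ := min (1 / 2) (min (1 / (2 * L)) (δ / (2 * L))) with ht0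
  have hLpos : (0 : ℝ) < L := by linarith
  have ht0pos : 0 < t0 := by
    rw [ht0]; positivity
  have ht0a : t0 ≤ 1 / 2 := min_le_left _ _
  have ht0b : t0 * L ≤ 1 / 2 := by
    have : t0 ≤ 1 / (2 * L) := (min_le_right _ _).trans (min_le_left _ _)
    calc t0 * L ≤ 1 / (2 * L) * L := by gcongr
      _ = 1 / 2 := by field_simp
  have ht0c : t0 * L ≤ δ / 2 := by
    have : t0 ≤ δ / (2 * L) := (min_le_right _ _).trans (min_le_right _ _)
    calc t0 * L ≤ δ / (2 * L) * L := by gcongr
      _ = δ / 2 := by field_simp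
  -- volume identity for small t
  have hvol : ∀ t : ℝ, 0 ≤ t → t ≤ t0 →
      ∫ x in ball (0 : E) 1, (1 + t • fderiv ℝ g0 x).det ∂μ = ∫ x in ball (0 : E) 1, (1 : ℝ) ∂μ := by
    intro t ht0' htt
    set tn : ℝ≥0 := ⟨t, ht0'⟩ with htn
    have htL : tn * L < 1 := by
      have : (t * L : ℝ) < 1 := by nlinarith
      exact_mod_cast this
    have hbij := bijective_id_add hglip htL
    have hFeq : ∀ x, ‖x‖ ≤ 1 → x + t • g x = x + t • g0 x := fun x hx => by simp [hg, hx]
    have himg : (fun x => x + t • g0 x) '' ball (0 : E) 1 = ball 0 1 := by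
      apply Subset.antisymm
      · rintro _ ⟨x, hx, rfl⟩
        rw [mem_ball_zero_iff] at hx ⊢
        have : x + t • g0 x = (1 - t) • x + t • f x := by
          simp only [hg0, smul_sub, sub_smul, one_smul]; abel
        show ‖x + t • g0 x‖ < 1
        rw [this]
        calc ‖(1 - t) • x + t • f x‖ ≤ ‖(1 - t) • x‖ + ‖t • f x‖ := norm_add_le _ _
          _ = (1 - t) * ‖x‖ + t := by
            rw [norm_smul, norm_smul, h2 x hx.le, Real.norm_eq_abs, Real.norm_eq_abs,
              abs_of_nonneg ht0', abs_of_nonneg (by linarith), mul_one]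
          _ < 1 := by nlinarith
      · intro y hy
        rw [mem_ball_zero_iff] at hy
        obtain ⟨x, hx⟩ := hbij.2 y
        have hx' : x + t • g x = y := hx
        have hxlt : ‖x‖ < 1 := by
          by_contra hcon
          rw [not_lt] at hcon
          have hgx : g x = 0 := by
            rcases hcon.eq_or_lt with h | h
            · simp only [hg]
              rw [if_pos h.symm.le]
              exact hg0s x h.symm
            · simp only [hg]
              rw [if_neg (not_le.2 h)]
          rw [hgx, smul_zero, add_zero] at hx'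
          rw [hx'] at hcon
          linarith
        refine ⟨x, by rwa [mem_ball_zero_iff], ?_⟩
        show x + t • g0 x = y
        rw [← hFeq x hxlt.le]; exact hx'
    have hinj : InjOn (fun x => x + t • g0 x) (ball (0 : E) 1) := by
      intro x hx y hy hxy
      rw [mem_ball_zero_iff] at hx hy
      apply hbij.1
      show x + t • g x = y + t • g y
      rw [hFeq x hx.le, hFeq y hy.le]; exact hxy
    have hderiv : ∀ x ∈ ball (0 : E) 1,
        HasFDerivWithinAt (fun x => x + t • g0 x) (1 + t • fderiv ℝ g0 x) (ball 0 1) x := by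
      intro x _
      exact ((hasFDerivAt_id x).add ((hg0d x).hasFDerivAt.const_smul t)).hasFDerivWithinAt
    have hcv := integral_image_eq_integral_abs_det_fderiv_smul μ measurableSet_ball hderiv hinj
      (fun _ => (1 : ℝ))
    rw [himg] at hcv
    rw [hcv]
    refine setIntegral_congr_fun measurableSet_ball fun x hx => ?_
    have hx' : x ∈ closedBall (0 : E) 1 := ball_subset_closedBall hx
    have hpos : 0 < (1 + t • fderiv ℝ g0 x).det := by
      apply hδs
      rw [mem_ball_zero_iff, norm_smul, Real.norm_eq_abs, abs_of_nonneg ht0']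
      calc t * ‖fderiv ℝ g0 x‖ ≤ t0 * L := by
            gcongr
            exact hLb x hx'
        _ ≤ δ / 2 := ht0c
        _ < δ := by linarith
    simp only [smul_eq_mul, mul_one]
    rw [abs_of_pos hpos]
  -- nodes
  set d := Module.finrank ℝ E with hd
  set v : ℕ → ℝ := fun j => t0 * (1 / (j + 1 : ℝ)) with hv
  have hvinj : Function.Injective v := by
    intro a b hab
    have h3 : (1 / (a + 1 : ℝ)) = 1 / (b + 1) := mul_left_cancel₀ ht0pos.ne' hab
    have h4 : (a + 1 : ℝ) = b + 1 := by
      have ha : (a + 1 : ℝ) ≠ 0 := by positivity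
      have hb : (b + 1 : ℝ) ≠ 0 := by positivity
      field_simp at h3
      linarith
    have h5 : (a : ℝ) = b := by linarith
    exact_mod_cast h5
  have hv0 : ∀ j, 0 ≤ v j := fun j => by simp only [hv]; positivity
  have hv1 : ∀ j, v j ≤ t0 := fun j => by
    simp only [hv]
    have : (1 / (j + 1 : ℝ)) ≤ 1 := by
      rw [div_le_one (by positivity)]
      have : (0 : ℝ) ≤ j := Nat.cast_nonneg j
      linarith
    nlinarith
  obtain ⟨c, hc1, hc2⟩ := det_interp (E := E) v hvinj
  have hint : ∀ t : ℝ, IntegrableOn (fun x => (1 + t • fderiv ℝ g0 x).det) (ball (0 : E) 1) μ := by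
    intro t
    have hcont : Continuous (fun x => (1 + t • fderiv ℝ g0 x).det) :=
      hdetc.comp (hDc.const_smul t)
    exact (hcont.continuousOn.integrableOn_compact (isCompact_closedBall (0 : E) 1)).mono_set
      ball_subset_closedBall
  have htotal : ∫ x in ball (0 : E) 1, (1 + fderiv ℝ g0 x).det ∂μ
      = ∫ x in ball (0 : E) 1, (1 : ℝ) ∂μ := by
    have e1 : ∀ x, (1 + fderiv ℝ g0 x).det =
        ∑ j ∈ Finset.range (d + 1), c j * (1 + v j • fderiv ℝ g0 x).det := fun x => hc2 _
    simp_rw [e1]
    rw [integral_finsetSum _ fun j _ => (hint (v j)).const_mul (c j)]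
    have e2 : ∀ j ∈ Finset.range (d + 1),
        ∫ x in ball (0 : E) 1, c j * (1 + v j • fderiv ℝ g0 x).det ∂μ
          = c j * ∫ x in ball (0 : E) 1, (1 : ℝ) ∂μ := by
      intro j _
      rw [integral_const_mul, hvol (v j) (hv0 j) (hv1 j)]
    rw [Finset.sum_congr rfl e2, ← Finset.sum_mul, hc1, one_mul]
  -- the determinant vanishes identically
  have hzero : ∀ x ∈ ball (0 : E) 1, (1 + fderiv ℝ g0 x).det = 0 := by
    intro x hx
    have hfd : DifferentiableAt ℝ f x := (hf.differentiable one_ne_zero) x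
    have e3 : 1 + fderiv ℝ g0 x = fderiv ℝ f x := by
      have : fderiv ℝ g0 x = fderiv ℝ f x - 1 := by
        simp only [hg0]
        rw [fderiv_fun_sub hfd differentiableAt_fun_id, fderiv_fun_id]
        rfl
      rw [this]; abel
    rw [e3]
    by_contra hne
    have hunit : IsUnit (LinearMap.det ((fderiv ℝ f x : E →L[ℝ] E) : E →ₗ[ℝ] E)) :=
      isUnit_iff_ne_zero.2 hne
    have hsurj : Function.Surjective ((fderiv ℝ f x : E →L[ℝ] E) : E →ₗ[ℝ] E) := by
      have := (LinearMap.isUnit_iff_isUnit_det _).2 hunit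
      exact ((Module.End.isUnit_iff _).1 this).2
    obtain ⟨w, hw⟩ := hsurj (f x)
    have hw' : fderiv ℝ f x w = f x := hw
    -- differentiate ‖f‖² = 1
    have hev : (fun y => ‖f y‖ ^ 2) =ᶠ[𝓝 x] fun _ => (1 : ℝ) := by
      filter_upwards [isOpen_ball.mem_nhds hx] with y hy
      rw [h2 y (by rw [mem_ball_zero_iff] at hy; exact hy.le)]; norm_num
    have hder : HasFDerivAt (fun y => ‖f y‖ ^ 2)
        (2 • (innerSL ℝ (f x)).comp (fderiv ℝ f x)) x := hfd.hasFDerivAt.norm_sq
    have hder2 : HasFDerivAt (fun y => ‖f y‖ ^ 2) (0 : E →L[ℝ] ℝ) x :=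
      (hasFDerivAt_const (1 : ℝ) x).congr_of_eventuallyEq hev
    have heq := hder.unique hder2
    have := congrArg (fun l => l w) heq
    simp [hw'] at this
    have hfx : ‖f x‖ = 1 := h2 x (by rw [mem_ball_zero_iff] at hx; exact hx.le)
    rw [this] at hfx
    simp at hfx
  have hcontra : ∫ x in ball (0 : E) 1, (1 : ℝ) ∂μ = 0 := by
    rw [← htotal]
    rw [setIntegral_congr_fun measurableSet_ball hzero]
    simp
  have hμpos : 0 < μ (ball (0 : E) 1) := isOpen_ball.measure_pos μ ⟨0, by simp⟩
  have hμfin : μ (ball (0 : E) 1) ≠ ⊤ := measure_ball_lt_top.ne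
  rw [setIntegral_const, smul_eq_mul, mul_one] at hcontra
  have : 0 < μ.real (ball (0 : E) 1) := ENNReal.toReal_pos hμpos.ne' hμfin
  linarith

open scoped Manifold ContDiff in
/-- The no-retraction theorem. -/
theorem no_retraction [Nontrivial E] (r : E → E) (hr : ContinuousOn r (closedBall 0 1))
    (h1 : ∀ x, ‖x‖ = 1 → r x = x) (h2 : ∀ x, ‖x‖ ≤ 1 → ‖r x‖ = 1) : False := by
  classical
  set R : E → E := fun x => if ‖x‖ ≤ 1 / 2 then r ((2 : ℝ) • x) else ‖x‖⁻¹ • x with hR
  have hRc : Continuous R := by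
    refine continuous_if_le continuous_norm continuous_const ?_ ?_ ?_
    · refine hr.comp (by fun_prop) ?_
      intro x hx
      simp only [mem_ofPred_eq] at hx
      rw [mem_closedBall_zero_iff, norm_smul]
      norm_num
      linarith
    · have hne : ∀ x ∈ {x : E | 1 / 2 ≤ ‖x‖}, ‖x‖ ≠ 0 := by
        intro x hx
        simp only [mem_ofPred_eq] at hx
        intro h0; rw [h0] at hx; norm_num at hx
      exact (continuous_norm.continuousOn.inv₀ hne).smul continuousOn_id
    · intro x hx
      rw [h1]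
      · rw [hx]; norm_num
      · rw [norm_smul, hx]; norm_num
  have hRn : ∀ x, ‖R x‖ = 1 := by
    intro x
    simp only [hR]
    split_ifs with hx
    · apply h2
      rw [norm_smul]; norm_num; linarith
    · have : ‖x‖ ≠ 0 := by
        intro h0; rw [h0] at hx; norm_num at hx
      rw [norm_smul, norm_inv, norm_norm, inv_mul_cancel₀ this]
  have hRout : ∀ x, 1 / 2 < ‖x‖ → R x = ‖x‖⁻¹ • x := fun x hx => by
    simp only [hR]; rw [if_neg (not_le.2 hx)]
  set t : E → Set E := fun x => if ‖x‖ ≤ 3 / 4 then ball (R x) (1 / 2) else {R x} with ht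
  have htconv : ∀ x, Convex ℝ (t x) := by
    intro x
    simp only [ht]
    split_ifs
    · exact convex_ball _ _
    · exact convex_singleton _
  have hRmem : ∀ x, R x ∈ t x := by
    intro x
    simp only [ht]
    split_ifs
    · exact mem_ball_self (by norm_num)
    · rfl
  have hloc : ∀ x : E, ∃ U ∈ 𝓝 x, ∃ g : E → E, ContMDiffOn 𝓘(ℝ, E) 𝓘(ℝ, E) ((1 : ℕ∞) : WithTop ℕ∞) g U ∧
      ∀ y ∈ U, g y ∈ t y := by
    intro x
    by_cases hx : ‖x‖ < 3 / 4
    · refine ⟨{y | ‖y‖ < 3 / 4} ∩ {y | dist (R x) (R y) < 1 / 2}, ?_, fun _ => R x, ?_, ?_⟩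
      · apply Filter.inter_mem
        · exact (isOpen_lt continuous_norm continuous_const).mem_nhds hx
        · exact (isOpen_lt (continuous_const.dist hRc) continuous_const).mem_nhds (by simp)
      · exact contMDiffOn_const
      · rintro y ⟨hy1, hy2⟩
        simp only [mem_ofPred_eq] at hy1 hy2
        simp only [ht]
        rw [if_pos hy1.le, mem_ball]
        exact hy2
    · refine ⟨{y | 1 / 2 < ‖y‖}, ?_, fun y => ‖y‖⁻¹ • y, ?_, ?_⟩
      · rw [not_lt] at hx
        exact (isOpen_lt continuous_const continuous_norm).mem_nhds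
          (show (1 : ℝ) / 2 < ‖x‖ by linarith)
      · rw [contMDiffOn_iff_contDiffOn]
        have hne : ∀ y ∈ {y : E | 1 / 2 < ‖y‖}, y ≠ 0 := by
          intro y hy h0
          simp only [mem_ofPred_eq] at hy
          rw [h0, norm_zero] at hy; norm_num at hy
        refine ContDiffOn.smul (ContDiffOn.inv ?_ ?_) contDiffOn_id
        · intro y hy
          exact (contDiffAt_norm ℝ (hne y hy)).contDiffWithinAt
        · intro y hy
          exact norm_ne_zero_iff.2 (hne y hy)
      · intro y hy
        have := hRmem y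
        rwa [hRout y hy] at this
  obtain ⟨g, hg⟩ := exists_contMDiffMap_forall_mem_convex_of_local (n := 1) 𝓘(ℝ, E) htconv hloc
  have hgc : ContDiff ℝ 1 g := by
    have := g.contMDiff
    rw [contMDiff_iff_contDiff] at this
    exact this
  have hgn : ∀ x, g x ≠ 0 := by
    intro x h0
    have h3 := hg x
    simp only [ht] at h3
    have h4 := hRn x
    split_ifs at h3 with hx
    · rw [h0, mem_ball, dist_eq_norm, zero_sub, norm_neg, h4] at h3
      norm_num at h3
    · rw [h0, mem_singleton_iff] at h3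
      rw [← h3, norm_zero] at h4
      norm_num at h4
  refine no_smooth_retraction (fun x => ‖g x‖⁻¹ • g x) ?_ ?_ ?_
  · exact ((hgc.norm ℝ hgn).inv fun x => norm_ne_zero_iff.2 (hgn x)).smul hgc
  · intro x hx
    have h3 := hg x
    simp only [ht] at h3
    rw [if_neg (by rw [hx]; norm_num), mem_singleton_iff, hRout x (by rw [hx]; norm_num), hx] at h3
    rw [h3]
    simp [hx]
  · intro x _
    rw [norm_smul, norm_inv, norm_norm, inv_mul_cancel₀ (norm_ne_zero_iff.2 (hgn x))]

end Smooth

section Sphere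

/-- The unit sphere of a Euclidean space is not contractible. -/
theorem sphere_not_contractible {E : Type*} [NormedAddCommGroup E] [InnerProductSpace ℝ E]
    [FiniteDimensional ℝ E] [Nontrivial E]
    (K : unitInterval × sphere (0 : E) 1 → sphere (0 : E) 1) (hK : Continuous K)
    (c : sphere (0 : E) 1) (hK0 : ∀ y, K (0, y) = y) (hK1 : ∀ y, K (1, y) = c) : False := by
  classical
  let G : ℝ × E → E := fun p => if h : ‖p.2‖ = 1 then
    ((K (projIcc 0 1 zero_le_one p.1, ⟨p.2, mem_sphere_zero_iff_norm.2 h⟩) :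
      sphere (0 : E) 1) : E) else 0
  have hG : ContinuousOn G {p | ‖p.2‖ = 1} := by
    rw [continuousOn_iff_continuous_domRestrict]
    have h1 : Continuous fun p : {p : ℝ × E | ‖p.2‖ = 1} =>
        ((projIcc 0 1 zero_le_one p.1.1 : unitInterval),
          (⟨p.1.2, mem_sphere_zero_iff_norm.2 p.2⟩ : sphere (0 : E) 1)) := by
      refine Continuous.prodMk ?_ ?_
      · exact continuous_projIcc.comp (continuous_fst.comp continuous_subtype_val)
      · exact Continuous.subtype_mk (continuous_snd.comp continuous_subtype_val) _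
    refine (continuous_subtype_val.comp (hK.comp h1)).congr ?_
    intro p
    have hp : ‖p.1.2‖ = 1 := p.2
    simp only [domRestrict_apply, G, Function.comp]
    rw [dif_pos hp]
  let r : E → E := fun x => if ‖x‖ ≤ 1 / 4 then (c : E) else
    G (4 / 3 * (1 - ‖x‖), ‖x‖⁻¹ • x)
  have hne : ∀ x : E, 1 / 4 ≤ ‖x‖ → ‖x‖ ≠ 0 := by
    intro x hx h0
    rw [h0] at hx; norm_num at hx
  have hunit : ∀ x : E, 1 / 4 ≤ ‖x‖ → ‖(‖x‖⁻¹ • x)‖ = 1 := by
    intro x hx
    rw [norm_smul, norm_inv, norm_norm, inv_mul_cancel₀ (hne x hx)]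
  have hGn : ∀ p : ℝ × E, ‖p.2‖ = 1 → ‖G p‖ = 1 := by
    intro p hp
    simp only [G]
    rw [dif_pos hp]
    exact mem_sphere_zero_iff_norm.1 (Subtype.prop _)
  have hr : Continuous r := by
    refine continuous_if_le continuous_norm continuous_const continuousOn_const ?_ ?_
    · refine hG.comp ?_ ?_
      · refine ContinuousOn.prodMk (by fun_prop) ?_
        exact (continuous_norm.continuousOn.inv₀ fun x hx => hne x hx).smul continuousOn_id
      · intro x hx
        exact hunit x hx
    · intro x hx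
      have h1 : ‖(‖x‖⁻¹ • x)‖ = 1 := hunit x hx.ge
      simp only [G]
      rw [dif_pos h1]
      have h2 : projIcc (0 : ℝ) 1 zero_le_one (4 / 3 * (1 - ‖x‖)) = 1 := by
        rw [hx]
        have : (4 / 3 * (1 - 1 / 4) : ℝ) = 1 := by norm_num
        rw [this]
        exact projIcc_right _
      rw [h2, hK1]
  refine no_retraction r hr.continuousOn ?_ ?_
  · intro x hx
    have h0 : ¬ ‖x‖ ≤ 1 / 4 := by rw [hx]; norm_num
    simp only [r]
    rw [if_neg h0]
    have h1 : ‖(‖x‖⁻¹ • x)‖ = 1 := hunit x (by rw [hx]; norm_num)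
    simp only [G]
    rw [dif_pos h1]
    have h2 : projIcc (0 : ℝ) 1 zero_le_one (4 / 3 * (1 - ‖x‖)) = 0 := by
      rw [hx]
      have : (4 / 3 * (1 - 1) : ℝ) = 0 := by norm_num
      rw [this]
      exact projIcc_left _
    rw [h2, hK0]
    simp [hx]
  · intro x _
    simp only [r]
    split_ifs with h
    · exact mem_sphere_zero_iff_norm.1 c.2
    · exact hGn _ (hunit x (not_le.1 h).le)

/-- The sphere `S^n`, as the one-point compactification of `ℝ^n`, is not contractible. -/
theorem id_not_homotopic_const (n : ℕ) (c : OnePoint (Fin n → ℝ)) :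
    ¬ (ContinuousMap.id (OnePoint (Fin n → ℝ))).Homotopic (ContinuousMap.const _ c) := by
  rintro ⟨H⟩
  have e : OnePoint (Fin n → ℝ) ≃ₜ sphere (0 : EuclideanSpace ℝ (Fin (n + 1))) 1 :=
    onePointEquivSphereOfFinrankEq (by simp)
  refine sphere_not_contractible (fun p => e (H (p.1, e.symm p.2))) ?_ (e c) ?_ ?_
  · refine e.continuous.comp (H.continuous.comp ?_)
    exact continuous_fst.prodMk (e.symm.continuous.comp continuous_snd)
  · intro y
    simp
  · intro y
    simp

end Sphere

end Pool.Agent.Work.MP_783066_gt
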