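import Mathlib

/-!
# Topological lemmas on one-point compactifications
-/

open OnePoint Topology Set Filter Matrix

namespace Pool.Agent.Work.MP_783066_gt

section Collapse

variable {A B : Type*}

/-- The map `A⁺ × B⁺ → (A × B)⁺`. -/
def collapse : OnePoint A × OnePoint B → OnePoint (A × B)
  | (OnePoint.some a, OnePoint.some b) => ((a, b) : A × B)
  | (∞, _) => ∞
  | (OnePoint.some _, ∞) => ∞

@[simp] lemma collapse_coe (a : A) (b : B) :
    collapse ((a : OnePoint A), (b : OnePoint B)) = ((a, b) : A × B) := rfl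

@[simp] lemma collapse_infty_left (y : OnePoint B) :
    collapse ((∞ : OnePoint A), y) = ∞ := rfl

@[simp] lemma collapse_infty_right (x : OnePoint A) :
    collapse (x, (∞ : OnePoint B)) = ∞ := by
  induction x using OnePoint.rec <;> rfl

variable [TopologicalSpace A] [TopologicalSpace B]

lemma continuous_collapse [T2Space A] [T2Space B] :
    Continuous (collapse : OnePoint A × OnePoint B → OnePoint (A × B)) := by
  rw [continuous_iff_continuousAt]
  rintro ⟨x, y⟩
  have hinf : ∀ (x : OnePoint A) (y : OnePoint B), x = ∞ ∨ y = ∞ →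
      ContinuousAt (collapse : OnePoint A × OnePoint B → OnePoint (A × B)) (x, y) := by
    intro x y hxy
    have hval : collapse (x, y) = (∞ : OnePoint (A × B)) := by
      rcases hxy with rfl | rfl <;> simp
    rw [ContinuousAt, hval, OnePoint.hasBasis_nhds_infty.tendsto_right_iff]
    rintro C ⟨hC1, hC2⟩
    rcases hxy with rfl | rfl
    · have hcl : IsClosed (Prod.fst '' C) := (hC2.image continuous_fst).isClosed
      have hmem : ((↑) '' (Prod.fst '' C)ᶜ ∪ {∞} : Set (OnePoint A)) ∈ 𝓝 (∞ : OnePoint A) :=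
        OnePoint.hasBasis_nhds_infty.mem_of_mem ⟨hcl, hC2.image continuous_fst⟩
      have hmem2 : Prod.fst ⁻¹' ((↑) '' (Prod.fst '' C)ᶜ ∪ {∞} : Set (OnePoint A)) ∈
          𝓝 ((∞ : OnePoint A), y) := continuous_fst.continuousAt.preimage_mem_nhds hmem
      filter_upwards [hmem2]
      rintro ⟨a, b⟩ hab
      induction a using OnePoint.rec with
      | infty => right; rfl
      | coe a =>
        induction b using OnePoint.rec with
        | infty => right; rfl
        | coe b =>
          left
          rcases hab with ⟨a', ha', haa⟩ | h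
          · rw [OnePoint.coe_eq_coe] at haa
            subst haa
            exact ⟨(a', b), fun hmem => ha' ⟨_, hmem, rfl⟩, rfl⟩
          · exact absurd h (OnePoint.coe_ne_infty a)
    · have hcl : IsClosed (Prod.snd '' C) := (hC2.image continuous_snd).isClosed
      have hmem : ((↑) '' (Prod.snd '' C)ᶜ ∪ {∞} : Set (OnePoint B)) ∈ 𝓝 (∞ : OnePoint B) :=
        OnePoint.hasBasis_nhds_infty.mem_of_mem ⟨hcl, hC2.image continuous_snd⟩
      have hmem2 : Prod.snd ⁻¹' ((↑) '' (Prod.snd '' C)ᶜ ∪ {∞} : Set (OnePoint B)) ∈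
          𝓝 (x, (∞ : OnePoint B)) := continuous_snd.continuousAt.preimage_mem_nhds hmem
      filter_upwards [hmem2]
      rintro ⟨a, b⟩ hab
      induction a using OnePoint.rec with
      | infty => right; rfl
      | coe a =>
        induction b using OnePoint.rec with
        | infty => right; rfl
        | coe b =>
          left
          rcases hab with ⟨b', hb', hbb⟩ | h
          · rw [OnePoint.coe_eq_coe] at hbb
            subst hbb
            exact ⟨(a, b'), fun hmem => hb' ⟨_, hmem, rfl⟩, rfl⟩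
          · exact absurd h (OnePoint.coe_ne_infty b)
  induction x using OnePoint.rec with
  | infty => exact hinf _ _ (Or.inl rfl)
  | coe a =>
    induction y using OnePoint.rec with
    | infty => exact hinf _ _ (Or.inr rfl)
    | coe b =>
      have hemb : IsOpenEmbedding (Prod.map ((↑) : A → OnePoint A) ((↑) : B → OnePoint B)) :=
        OnePoint.isOpenEmbedding_coe.prodMap OnePoint.isOpenEmbedding_coe
      have h2 : (collapse : OnePoint A × OnePoint B → OnePoint (A × B)) ∘
          Prod.map ((↑) : A → OnePoint A)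
          ((↑) : B → OnePoint B) = ((↑) : A × B → OnePoint (A × B)) := rfl
      have h3 : ContinuousAt ((collapse : OnePoint A × OnePoint B → OnePoint (A × B)) ∘
          Prod.map ((↑) : A → OnePoint A) ((↑) : B → OnePoint B)) (a, b) := by
        rw [h2]
        exact OnePoint.continuous_coe.continuousAt
      exact hemb.continuousAt_iff.1 h3

omit [TopologicalSpace A] [TopologicalSpace B] in
lemma collapse_surjective :
    Function.Surjective (collapse : OnePoint A × OnePoint B → OnePoint (A × B)) := by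
  intro x
  induction x using OnePoint.rec with
  | infty => exact ⟨(∞, ∞), rfl⟩
  | coe p => exact ⟨(p.1, p.2), rfl⟩

end Collapse

section PMap

variable {A A' E' : Type*}

open scoped Classical in
/-- The partially defined map `A ⊇ ψ ⁻¹' D → D`, extended by `∞`. -/
noncomputable def partialMap (ψ : A → E') (D : Set E') : OnePoint A → OnePoint D
  | ∞ => ∞
  | OnePoint.some a => if h : ψ a ∈ D then ((⟨ψ a, h⟩ : D) : OnePoint D) else ∞

@[simp] lemma partialMap_infty (ψ : A → E') (D : Set E') : partialMap ψ D ∞ = ∞ := rfl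

lemma partialMap_of_mem {ψ : A → E'} {D : Set E'} {a : A} (h : ψ a ∈ D) :
    partialMap ψ D (a : OnePoint A) = ((⟨ψ a, h⟩ : D) : OnePoint D) :=
  dif_pos h

lemma partialMap_of_notMem {ψ : A → E'} {D : Set E'} {a : A} (h : ψ a ∉ D) :
    partialMap ψ D (a : OnePoint A) = ∞ :=
  dif_neg h

variable [TopologicalSpace A] [TopologicalSpace A'] [TopologicalSpace E']

lemma continuous_partialMap [T2Space E'] {D : Set E'} {ψ : A → E'} (hψ : Continuous ψ)
    (hopen : IsOpen {a | ψ a ∈ D}) {j : A → A'} (hj : IsEmbedding j)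
    {ρ : E' → A'} (hρ : Continuous ρ) {G : Set E'} (hG : IsClosed G)
    (h1 : ∀ a, ψ a ∈ D → ψ a ∈ G ∧ ρ (ψ a) = j a)
    (h2 : ∀ e ∈ D, e ∈ G → ∃ a, j a = ρ e ∧ ψ a = e) :
    Continuous (partialMap ψ D) := by
  rw [continuous_def]
  intro U hU
  by_cases hinf : ∞ ∈ U
  · rw [OnePoint.isOpen_iff_of_mem (by exact hinf)]
    rw [OnePoint.isOpen_iff_of_mem hinf] at hU
    obtain ⟨hU1, hU2⟩ := hU
    -- the compact set `C ⊆ E'`
    set C : Set E' := Subtype.val '' (((↑) ⁻¹' U : Set D)ᶜ) with hC
    have hCc : IsCompact C := hU2.image continuous_subtype_val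
    have hCD : C ⊆ D := by
      rintro _ ⟨x, _, rfl⟩; exact x.2
    have hpre : (((↑) ⁻¹' (partialMap ψ D ⁻¹' U) : Set A)ᶜ) = ψ ⁻¹' C := by
      ext a
      simp only [mem_compl_iff, mem_preimage]
      by_cases ha : ψ a ∈ D
      · rw [partialMap_of_mem ha, hC]
        constructor
        · intro h
          exact ⟨⟨ψ a, ha⟩, h, rfl⟩
        · rintro ⟨x, hx, hxa⟩
          have : x = ⟨ψ a, ha⟩ := Subtype.ext hxa
          rw [← this]
          exact hx
      · rw [partialMap_of_notMem ha]
        constructor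
        · intro h; exact absurd hinf h
        · intro h; exact absurd (hCD h) ha
    rw [hpre]
    refine ⟨hCc.isClosed.preimage hψ, ?_⟩
    rw [hj.isCompact_iff]
    have himg : j '' (ψ ⁻¹' C) = ρ '' (C ∩ G) := by
      ext b
      constructor
      · rintro ⟨a, ha, rfl⟩
        obtain ⟨h3, h4⟩ := h1 a (hCD ha)
        exact ⟨ψ a, ⟨ha, h3⟩, h4⟩
      · rintro ⟨e, ⟨he1, he2⟩, rfl⟩
        obtain ⟨a, ha1, ha2⟩ := h2 e (hCD he1) he2
        exact ⟨a, by rw [mem_preimage, ha2]; exact he1, ha1⟩
    rw [himg]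
    exact (hCc.inter_right hG).image hρ
  · rw [OnePoint.isOpen_iff_of_notMem (by exact hinf)]
    rw [OnePoint.isOpen_iff_of_notMem hinf] at hU
    obtain ⟨V, hV, hVU⟩ := isOpen_induced_iff.1 hU
    have hpre : ((↑) ⁻¹' (partialMap ψ D ⁻¹' U) : Set A) = {a | ψ a ∈ D} ∩ ψ ⁻¹' V := by
      ext a
      simp only [mem_preimage, mem_inter_iff, mem_ofPred_eq]
      by_cases ha : ψ a ∈ D
      · rw [partialMap_of_mem ha]
        have : (⟨ψ a, ha⟩ : D) ∈ (Subtype.val ⁻¹' V : Set D) ↔
          (⟨ψ a, ha⟩ : D) ∈ ((↑) ⁻¹' U : Set D) := by rw [hVU]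
        constructor
        · intro h; exact ⟨ha, this.2 h⟩
        · intro h; exact this.1 h.2
      · rw [partialMap_of_notMem ha]
        constructor
        · intro h; exact absurd h hinf
        · intro h; exact absurd h.1 ha
    rw [hpre]
    exact hopen.inter (hV.preimage hψ)

end PMap

section Group

/-- The orthogonal group is compact. -/
instance compactSpace_orthogonalGroup (n : ℕ) :
    CompactSpace (Matrix.orthogonalGroup (Fin n) ℝ) := by
  have hK : IsCompact (Set.pi univ fun _ : Fin n => Set.pi univ fun _ : Fin n => Icc (-1 : ℝ) 1) :=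
    isCompact_univ_pi fun _ => isCompact_univ_pi fun _ => isCompact_Icc
  have hcl : IsClosed {A : Matrix (Fin n) (Fin n) ℝ | A * Aᵀ = 1} :=
    isClosed_eq (by fun_prop) continuous_const
  refine (isCompact_iff_compactSpace
    (s := ((Matrix.orthogonalGroup (Fin n) ℝ : Submonoid (Matrix (Fin n) (Fin n) ℝ)) :
      Set (Matrix (Fin n) (Fin n) ℝ)))).1 ?_
  refine IsCompact.of_isClosed_subset (s := Set.pi univ fun _ : Fin n => Set.pi univ
    fun _ : Fin n => Icc (-1 : ℝ) 1) hK ?_ ?_
  · have heq : ((Matrix.orthogonalGroup (Fin n) ℝ : Submonoid (Matrix (Fin n) (Fin n) ℝ)) :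
      Set (Matrix (Fin n) (Fin n) ℝ)) = {A : Matrix (Fin n) (Fin n) ℝ | A * Aᵀ = 1} := by
      ext A
      exact Matrix.mem_orthogonalGroup_iff (Fin n) ℝ
    rw [heq]
    exact hcl
  · intro A hA i _ j _
    have h1 := entry_norm_bound_of_unitary (U := A) hA i j
    rw [Real.norm_eq_abs, abs_le] at h1
    exact h1

variable {G D : Type*} [TopologicalSpace G] [CompactSpace G] [Group G] [ContinuousInv G]
  [TopologicalSpace D] [T2Space D] [MulAction G D]

lemma continuous_smul_onePoint (h : Continuous fun p : G × D => p.1 • p.2) :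
    Continuous fun p : G × OnePoint D => OnePoint.map (fun d => p.1 • d) p.2 := by
  rw [continuous_iff_continuousAt]
  rintro ⟨g, x⟩
  induction x using OnePoint.rec with
  | infty =>
    rw [ContinuousAt, OnePoint.map_infty, OnePoint.hasBasis_nhds_infty.tendsto_right_iff]
    rintro C ⟨_, hC⟩
    -- the compact set of all translates
    set C' : Set D := (fun p : G × D => p.1⁻¹ • p.2) '' (univ ×ˢ C) with hC'
    have hcont : Continuous (fun p : G × D => p.1⁻¹ • p.2) :=
      h.comp ((continuous_fst.inv).prodMk continuous_snd)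
    have hCc : IsCompact C' := (isCompact_univ.prod hC).image hcont
    have hmem : ((↑) '' C'ᶜ ∪ {∞} : Set (OnePoint D)) ∈ 𝓝 (∞ : OnePoint D) :=
      OnePoint.hasBasis_nhds_infty.mem_of_mem ⟨hCc.isClosed, hCc⟩
    have hmem2 : Prod.snd ⁻¹' ((↑) '' C'ᶜ ∪ {∞} : Set (OnePoint D)) ∈
        𝓝 (g, (∞ : OnePoint D)) := continuous_snd.continuousAt.preimage_mem_nhds hmem
    filter_upwards [hmem2]
    rintro ⟨g', y⟩ hy
    induction y using OnePoint.rec with
    | infty => right; rfl
    | coe y =>
      left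
      rcases hy with ⟨y', hy', hyy⟩ | hy
      · rw [OnePoint.coe_eq_coe] at hyy
        subst hyy
        refine ⟨g' • y', fun hm => hy' ?_, rfl⟩
        exact ⟨(g', g' • y'), ⟨mem_univ _, hm⟩, by simp⟩
      · exact absurd hy (OnePoint.coe_ne_infty y)
  | coe d =>
    have hemb : IsOpenEmbedding (Prod.map (id : G → G) ((↑) : D → OnePoint D)) :=
      IsOpenEmbedding.id.prodMap OnePoint.isOpenEmbedding_coe
    have h3 : ContinuousAt ((fun p : G × OnePoint D => OnePoint.map (fun d => p.1 • d) p.2) ∘
        Prod.map (id : G → G) ((↑) : D → OnePoint D)) (g, d) :=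
      (OnePoint.continuous_coe.comp h).continuousAt
    exact hemb.continuousAt_iff.1 h3

end Group

section Sphere

/-- The homeomorphism `ℝ^N × ℝ ≅ ℝ^(N+1)`. -/
def snocHomeo (N : ℕ) : ((Fin N → ℝ) × ℝ) ≃ₜ (Fin (N + 1) → ℝ) where
  toFun p := Fin.snoc p.1 p.2
  invFun v := (Fin.init v, v (Fin.last N))
  left_inv p := by simp
  right_inv v := by simp
  continuous_toFun := Continuous.finSnoc (A := fun _ => ℝ) continuous_fst continuous_snd
  continuous_invFun :=
    (Continuous.finInit (A := fun _ => ℝ) continuous_id).prodMk (continuous_apply _)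

/-- The map `S^N × S^1 → S^(N+1)` inducing the homeomorphism `S^N ∧ S^1 ≅ S^(N+1)`. -/
def smashSph (N : ℕ) (p : OnePoint (Fin N → ℝ) × OnePoint ℝ) : OnePoint (Fin (N + 1) → ℝ) :=
  (snocHomeo N).onePointCongr (collapse p)

@[simp] lemma smashSph_coe (N : ℕ) (v : Fin N → ℝ) (s : ℝ) :
    smashSph N ((v : OnePoint (Fin N → ℝ)), (s : OnePoint ℝ)) =
      ((Fin.snoc v s : Fin (N + 1) → ℝ) : OnePoint (Fin (N + 1) → ℝ)) := rfl

@[simp] lemma smashSph_infty_left (N : ℕ) (s : OnePoint ℝ) :
    smashSph N ((∞ : OnePoint (Fin N → ℝ)), s) = ∞ := rfl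

@[simp] lemma smashSph_infty_right (N : ℕ) (v : OnePoint (Fin N → ℝ)) :
    smashSph N (v, (∞ : OnePoint ℝ)) = ∞ := by
  rw [smashSph, collapse_infty_right]; rfl

lemma continuous_smashSph (N : ℕ) : Continuous (smashSph N) :=
  (snocHomeo N).onePointCongr.continuous.comp continuous_collapse

lemma smashSph_surjective (N : ℕ) : Function.Surjective (smashSph N) :=
  (snocHomeo N).onePointCongr.surjective.comp collapse_surjective

lemma isQuotientMap_smashSph (N : ℕ) : IsQuotientMap (smashSph N) :=
  (continuous_smashSph N).isClosedMap.isQuotientMap (continuous_smashSph N) (smashSph_surjective N)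

lemma isQuotientMap_id_smashSph (N : ℕ) :
    IsQuotientMap (fun p : unitInterval × (OnePoint (Fin N → ℝ) × OnePoint ℝ) =>
      (p.1, smashSph N p.2)) := by
  have hc : Continuous (fun p : unitInterval × (OnePoint (Fin N → ℝ) × OnePoint ℝ) =>
      (p.1, smashSph N p.2)) :=
    continuous_fst.prodMk ((continuous_smashSph N).comp continuous_snd)
  refine hc.isClosedMap.isQuotientMap hc ?_
  rintro ⟨t, x⟩
  obtain ⟨p, hp⟩ := smashSph_surjective N x
  exact ⟨(t, p), by simp [hp]⟩

end Sphere

end Pool.Agent.Work.MP_783066_gt
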