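import Mathlib
import Pool.Agent.Work.MP_783066_gt.Topo

/-!
# Orthogonal spectra, stable equivalences and the smash product

All spaces are compactly generated weak Hausdorff spaces (class `CGWH`).

* `OrthSpectrum` : orthogonal spectra, with `Hom` their morphisms;
* `StableGroup X k` : (the underlying set of) the stable homotopy group
  `π_k X = colim_n π_{k+n} X_n`, and `Hom.IsStableEquiv`;
* `Bimorphism X Y Z` : bimorphisms `(X, Y) → Z`; the smash product `X ∧ Y` (Day convolution) is the
  universal bimorphism out of `(X, Y)`: this is `Bimorphism.IsSmashProduct`;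
* `WellPointed` : nondegenerate base points.
-/

open OnePoint Topology Matrix

namespace Pool.Agent.Work.MP_783066_gt

/-! ### Spaces -/

/-- Compactly generated weak Hausdorff spaces: a subset is closed as soon as its preimage under
every continuous map from a compact Hausdorff space is closed, and the image of every continuous
map from a compact Hausdorff space is closed. -/
class CGWH (X : Type) [TopologicalSpace X] : Prop where
  isClosed_of_forall : ∀ s : Set X,
    (∀ (T : Type) [TopologicalSpace T] [CompactSpace T] [T2Space T] (u : C(T, X)),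
      IsClosed (u ⁻¹' s)) → IsClosed s
  isClosed_range : ∀ (T : Type) [TopologicalSpace T] [CompactSpace T] [T2Space T] (u : C(T, X)),
    IsClosed (Set.range u)

/-- `a` is a nondegenerate base point of `A`, i.e. `(A, {a})` is an NDR-pair (the inclusion of `a`
is a Hurewicz cofibration): there are `u : A → [0,1]` with `u ⁻¹ 0 = {a}` and a homotopy
`h_t : A → A` with `h_0 = id`, `h_t a = a`, and `h_1 x = a` whenever `u x < 1`. -/
def WellPointed {A : Type} [TopologicalSpace A] (a : A) : Prop :=
  ∃ (u : C(A, unitInterval)) (h : C(unitInterval × A, A)),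
    (∀ x, u x = 0 ↔ x = a) ∧ (∀ x, h (0, x) = x) ∧ (∀ t, h (t, a) = a) ∧
      ∀ x, u x < 1 → h (1, x) = a

/-! ### Orthogonal groups -/

/-- The orthogonal group `O(n)`. -/
abbrev Orth (n : ℕ) : Type := Matrix.orthogonalGroup (Fin n) ℝ

/-- The sphere `S^n`, the one-point compactification of `ℝ^n`, with base point `∞`. -/
abbrev Sph (n : ℕ) : Type := OnePoint (Fin n → ℝ)

/-- The block matrix `A ⊕ B ∈ O(n)` of `A ∈ O(p)` and `B ∈ O(q)`, where `p + q = n`. -/
def blockSum {p q n : ℕ} (h : p + q = n) (A : Orth p) (B : Orth q) : Orth n :=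
  ⟨(Matrix.fromBlocks A.1 0 0 B.1).submatrix
      (finSumFinEquiv.trans (finCongr h)).symm (finSumFinEquiv.trans (finCongr h)).symm, by
    rw [Matrix.mem_orthogonalGroup_iff]
    have hA := (Matrix.mem_orthogonalGroup_iff (Fin p) ℝ).1 A.2
    have hB := (Matrix.mem_orthogonalGroup_iff (Fin q) ℝ).1 B.2
    rw [Matrix.transpose_submatrix, Matrix.submatrix_mul_equiv, Matrix.fromBlocks_transpose,
      Matrix.fromBlocks_multiply]
    simp only [hA, hB, Matrix.transpose_zero, Matrix.mul_zero, Matrix.zero_mul, add_zero, zero_add,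
      Matrix.fromBlocks_one]
    exact Matrix.submatrix_one_equiv _⟩

/-- For `p + q = n`, the permutation of the `n + 1` coordinates whose matrix sends `(a, b, s)` to
`(a, s, b)`, for `a ∈ ℝ^p`, `b ∈ ℝ^q`, `s ∈ ℝ`: the coordinate `i` of the result is the coordinate
`shufflePerm h i` of the argument. -/
def shufflePerm {p q n : ℕ} (h : p + q = n) : Equiv.Perm (Fin (n + 1)) :=
  (finSuccEquiv' (⟨p, by omega⟩ : Fin (n + 1))).trans (finSuccEquiv' (Fin.last n)).symm

/-- The element of `O(n + 1)` which sends `(a, b, s)` to `(a, s, b)`, for `a ∈ ℝ^p`, `b ∈ ℝ^q`,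
`s ∈ ℝ`, where `p + q = n`. -/
def shuffle {p q n : ℕ} (h : p + q = n) : Orth (n + 1) :=
  ⟨(1 : Matrix (Fin (n + 1)) (Fin (n + 1)) ℝ).submatrix (shufflePerm h) id, by
    rw [Matrix.mem_orthogonalGroup_iff]
    rw [Matrix.transpose_submatrix]
    ext i j
    simp [Matrix.mul_apply, Matrix.one_apply]⟩

/-! ### Orthogonal spectra -/

/-- The iterated structure maps `X_n ∧ S^m → X_{n+m}`, on points of `X_n × ℝ^m`. The value at
`(x, (v_0, …, v_m))` is `σ (iterStr (x, (v_0, …, v_{m-1})), v_m)`. -/
noncomputable def iterStr {lev : ℕ → Type} (str : ∀ n, lev n → OnePoint ℝ → lev (n + 1)) {n : ℕ}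
    (x : lev n) (m : ℕ) : (Fin m → ℝ) → lev (n + m) :=
  Nat.rec (motive := fun m => (Fin m → ℝ) → lev (n + m)) (fun _ => x)
    (fun m ih v => str (n + m) (ih (Fin.init v)) (v (Fin.last m) : ℝ)) m

/-- An orthogonal spectrum: based spaces `X_n` with a based continuous action of `O(n)`, and based
structure maps `X_n ∧ S^1 → X_{n+1}` (given on `X_n × S^1`, where `S^1 = ℝ ∪ {∞}`) such that the
iterated structure maps `X_n ∧ S^m → X_{n+m}` are `O(n) × O(m)`-equivariant. -/
structure OrthSpectrum where
  /-- the levels `X_n` -/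
  lev : ℕ → Type
  [top : ∀ n, TopologicalSpace (lev n)]
  [cgwh : ∀ n, CGWH (lev n)]
  /-- the base point of `X_n` -/
  pt : ∀ n, lev n
  [act : ∀ n, MulAction (Orth n) (lev n)]
  continuous_act : ∀ n, Continuous fun p : Orth n × lev n => p.1 • p.2
  smul_pt : ∀ n (A : Orth n), A • pt n = pt n
  /-- the structure map `X_n ∧ S^1 → X_{n+1}` -/
  str : ∀ n, lev n → OnePoint ℝ → lev (n + 1)
  continuous_str : ∀ n, Continuous fun p : lev n × OnePoint ℝ => str n p.1 p.2
  str_pt : ∀ n s, str n (pt n) s = pt (n + 1)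
  str_infty : ∀ n x, str n x ∞ = pt (n + 1)
  equivariant : ∀ (n m : ℕ) (A : Orth n) (B : Orth m) (x : lev n) (v : Fin m → ℝ),
    iterStr str (A • x) m (B.1 *ᵥ v) = blockSum rfl A B • iterStr str x m v

attribute [instance] OrthSpectrum.top OrthSpectrum.cgwh OrthSpectrum.act

/-- Morphisms of orthogonal spectra: based continuous `O(n)`-maps `X_n → Y_n` compatible with the
structure maps. -/
structure Hom (X Y : OrthSpectrum) where
  /-- the map in level `n` -/
  map : ∀ n, X.lev n → Y.lev n
  continuous_map : ∀ n, Continuous (map n)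
  map_pt : ∀ n, map n (X.pt n) = Y.pt n
  map_smul : ∀ n (A : Orth n) x, map n (A • x) = A • map n x
  map_str : ∀ n x s, map (n + 1) (X.str n x s) = Y.str n (map n x) s

/-! ### Stable homotopy groups -/

/-- For a based map `g : S^N → X_n`, the composite
`S^(N+1) ≅ S^N ∧ S^1 → X_n ∧ S^1 → X_{n+1}`, given on points `v` of `ℝ^(N+1)` by
`v ↦ σ (g (v_0, …, v_{N-1}), v_N)`. -/
def suspFun (X : OrthSpectrum) {n N : ℕ} (g : Sph N → X.lev n) : Sph (N + 1) → X.lev (n + 1)
  | OnePoint.some v =>
      X.str n (g ((Fin.init v : Fin N → ℝ) : Sph N)) ((v (Fin.last N) : ℝ) : OnePoint ℝ)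
  | ∞ => X.pt (n + 1)

lemma suspFun_smashSph (X : OrthSpectrum) {n N : ℕ} (g : Sph N → X.lev n) (hg : g ∞ = X.pt n)
    (p : Sph N × OnePoint ℝ) : suspFun X g (smashSph N p) = X.str n (g p.1) p.2 := by
  obtain ⟨v, s⟩ := p
  induction v using OnePoint.rec with
  | infty => rw [smashSph_infty_left, hg, X.str_pt]; rfl
  | coe v =>
    induction s using OnePoint.rec with
    | infty => rw [smashSph_infty_right, X.str_infty]; rfl
    | coe s =>
      rw [smashSph_coe]
      show X.str n (g ((Fin.init (Fin.snoc v s : Fin (N + 1) → ℝ) : Fin N → ℝ) : Sph N))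
        (((Fin.snoc v s : Fin (N + 1) → ℝ) (Fin.last N) : ℝ) : OnePoint ℝ) = _
      rw [Fin.init_snoc, Fin.snoc_last]

lemma continuous_suspFun (X : OrthSpectrum) {n N : ℕ} (g : Sph N → X.lev n) (hc : Continuous g)
    (hg : g ∞ = X.pt n) : Continuous (suspFun X g) := by
  rw [(isQuotientMap_smashSph N).continuous_iff]
  refine ((X.continuous_str n).comp
    ((hc.comp continuous_fst).prodMk continuous_snd)).congr fun p => ?_
  exact (suspFun_smashSph X g hg p).symm

/-- A based map `g : S^N → X_n` with `N = k + n`, representing an element of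
`π_k X = colim_n π_{k+n} X_n`. -/
structure Rep (X : OrthSpectrum) (k : ℤ) where
  /-- the level -/
  n : ℕ
  /-- the dimension of the sphere -/
  N : ℕ
  hN : (N : ℤ) = k + n
  /-- the based map -/
  g : C(Sph N, X.lev n)
  hg : g ∞ = X.pt n

/-- Two representatives in the same level are based homotopic. -/
inductive Rep.Homotopic {X : OrthSpectrum} {k : ℤ} : Rep X k → Rep X k → Prop
  | intro {n N : ℕ} {hN : (N : ℤ) = k + n} {g g' : C(Sph N, X.lev n)} {hg : g ∞ = X.pt n}
      {hg' : g' ∞ = X.pt n} (H : g.HomotopicRel g' {∞}) :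
      Rep.Homotopic ⟨n, N, hN, g, hg⟩ ⟨n, N, hN, g', hg'⟩

/-- The stabilization `π_{k+n} X_n → π_{k+n+1} X_{n+1}` on representatives. -/
def Rep.stab {X : OrthSpectrum} {k : ℤ} (a : Rep X k) : Rep X k where
  n := a.n + 1
  N := a.N + 1
  hN := by have := a.hN; push_cast; omega
  g := ⟨suspFun X a.g, continuous_suspFun X a.g a.g.continuous a.hg⟩
  hg := rfl

/-- Two representatives are identified in the colimit `colim_n π_{k+n} X_n` if they become based
homotopic in some level, after stabilizing them. -/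
def Rep.StablyHomotopic {X : OrthSpectrum} {k : ℤ} (a b : Rep X k) : Prop :=
  ∃ i j : ℕ, Rep.Homotopic (Rep.stab^[i] a) (Rep.stab^[j] b)

/-- The stable homotopy group `π_k X = colim_n π_{k+n} X_n` (its underlying set). -/
def StableGroup (X : OrthSpectrum) (k : ℤ) : Type := Quot (Rep.StablyHomotopic (X := X) (k := k))

/-- Composition of a representative with a morphism. -/
def Rep.comp {X Y : OrthSpectrum} {k : ℤ} (f : Hom X Y) (a : Rep X k) : Rep Y k where
  n := a.n
  N := a.N
  hN := a.hN
  g := ⟨fun v => f.map a.n (a.g v), (f.continuous_map a.n).comp a.g.continuous⟩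
  hg := by
    show f.map a.n (a.g ∞) = _
    rw [a.hg, f.map_pt]

lemma Rep.stab_comp {X Y : OrthSpectrum} {k : ℤ} (f : Hom X Y) (a : Rep X k) :
    (a.comp f).stab = (a.stab).comp f := by
  obtain ⟨n, N, hN, g, hg⟩ := a
  simp only [Rep.comp, Rep.stab, Rep.mk.injEq, heq_eq_eq, true_and]
  ext v
  induction v using OnePoint.rec with
  | infty => exact (f.map_pt _).symm
  | coe v => exact (f.map_str _ _ _).symm

lemma Rep.stab_iterate_comp {X Y : OrthSpectrum} {k : ℤ} (f : Hom X Y) (i : ℕ) (a : Rep X k) :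
    Rep.stab^[i] (a.comp f) = (Rep.stab^[i] a).comp f := by
  induction i generalizing a with
  | zero => rfl
  | succ i ih => rw [Function.iterate_succ_apply, Function.iterate_succ_apply, ← ih,
      Rep.stab_comp]

lemma Rep.Homotopic.comp {X Y : OrthSpectrum} {k : ℤ} (f : Hom X Y) {a b : Rep X k}
    (h : Rep.Homotopic a b) : Rep.Homotopic (a.comp f) (b.comp f) := by
  obtain ⟨H⟩ := h
  refine Rep.Homotopic.intro ?_
  exact H.comp_continuousMap ⟨f.map _, f.continuous_map _⟩

lemma Rep.StablyHomotopic.comp {X Y : OrthSpectrum} {k : ℤ} (f : Hom X Y) {a b : Rep X k}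
    (h : Rep.StablyHomotopic a b) : Rep.StablyHomotopic (a.comp f) (b.comp f) := by
  obtain ⟨i, j, h⟩ := h
  refine ⟨i, j, ?_⟩
  rw [Rep.stab_iterate_comp, Rep.stab_iterate_comp]
  exact h.comp f

/-- The map `π_k X → π_k Y` induced by a morphism. -/
def StableGroup.map {X Y : OrthSpectrum} (f : Hom X Y) (k : ℤ) :
    StableGroup X k → StableGroup Y k :=
  Quot.map (Rep.comp f) fun _ _ h => h.comp f

/-- A stable equivalence: a morphism inducing isomorphisms on all stable homotopy groups. -/
def Hom.IsStableEquiv {X Y : OrthSpectrum} (f : Hom X Y) : Prop :=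
  ∀ k : ℤ, Function.Bijective (StableGroup.map f k)

/-! ### The smash product -/

/-- A bimorphism `(X, Y) → Z`: based `O(p) × O(q)`-equivariant maps `X_p ∧ Y_q → Z_{p+q}` which are
compatible with the structure maps in both variables. The maps are given on `X_p × Y_q`, where the
product is the product of compactly generated spaces: continuity is tested on compact Hausdorff
spaces mapping to the two factors. The target level is `Z_n` for any `n` with a proof of
`p + q = n`. -/
structure Bimorphism (X Y Z : OrthSpectrum) where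
  /-- the map `X_p ∧ Y_q → Z_n`, where `p + q = n` -/
  map : ∀ {p q n : ℕ}, p + q = n → X.lev p → Y.lev q → Z.lev n
  continuous_map : ∀ {p q n : ℕ} (h : p + q = n)
    (T : Type) [TopologicalSpace T] [CompactSpace T] [T2Space T]
    (u : C(T, X.lev p)) (v : C(T, Y.lev q)), Continuous fun t => map h (u t) (v t)
  map_pt_left : ∀ {p q n : ℕ} (h : p + q = n) (y : Y.lev q), map h (X.pt p) y = Z.pt n
  map_pt_right : ∀ {p q n : ℕ} (h : p + q = n) (x : X.lev p), map h x (Y.pt q) = Z.pt n
  map_smul : ∀ {p q n : ℕ} (h : p + q = n) (A : Orth p) (B : Orth q) (x : X.lev p) (y : Y.lev q),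
    map h (A • x) (B • y) = blockSum h A B • map h x y
  map_str_right : ∀ {p q n : ℕ} (h : p + q = n) (x : X.lev p) (y : Y.lev q) (s : OnePoint ℝ),
    map (by omega : p + (q + 1) = n + 1) x (Y.str q y s) = Z.str n (map h x y) s
  map_str_left : ∀ {p q n : ℕ} (h : p + q = n) (x : X.lev p) (y : Y.lev q) (s : OnePoint ℝ),
    map (by omega : p + 1 + q = n + 1) (X.str p x s) y = shuffle h • Z.str n (map h x y) s

/-- A bimorphism `(X, Y) → Z` exhibits `Z` as the smash product `X ∧ Y` if it is the universal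
bimorphism out of `(X, Y)`: every bimorphism `(X, Y) → W` factors through it by a unique morphism
`Z → W`. -/
def Bimorphism.IsSmashProduct {X Y Z : OrthSpectrum} (b : Bimorphism X Y Z) : Prop :=
  ∀ (W : OrthSpectrum) (c : Bimorphism X Y W),
    ∃! φ : Hom Z W, ∀ (p q n : ℕ) (h : p + q = n) (x : X.lev p) (y : Y.lev q),
      φ.map n (b.map h x y) = c.map h x y

/-- Given smash products `b : (X, Y) → Z` and `b' : (X, Y') → Z'` and a morphism `f : Y → Y'`,
`φ : Z → Z'` is the morphism `X ∧ f : X ∧ Y → X ∧ Y'`. -/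
def IsSmashMap {X Y Y' Z Z' : OrthSpectrum} (b : Bimorphism X Y Z) (b' : Bimorphism X Y' Z')
    (f : Hom Y Y') (φ : Hom Z Z') : Prop :=
  ∀ (p q n : ℕ) (h : p + q = n) (x : X.lev p) (y : Y.lev q),
    φ.map n (b.map h x y) = b'.map h x (f.map q y)

end Pool.Agent.Work.MP_783066_gt
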