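import Mathlib
import Pool.Agent.Work.MP_783066_gt.Defs

/-!
# Orthogonal spectra which are levelwise one-point compactifications

We build orthogonal spectra `X` with `X_n` the one-point compactification of a locally closed
subset `D n` of `ℝ^n × ℝ^n × ℝ`.
-/

open OnePoint Topology Set Filter Matrix

namespace Pool.Agent.Work.MP_783066_gt

/-! ### Vectors -/

/-- concatenation of vectors, with target `Fin n`, `p + q = n`. -/
def cat {p q n : ℕ} (h : p + q = n) (a : Fin p → ℝ) (b : Fin q → ℝ) : Fin n → ℝ :=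
  fun i => Fin.append a b (i.cast h.symm)

lemma cat_eq {p q n : ℕ} (h : p + q = n) (a : Fin p → ℝ) (b : Fin q → ℝ) (i : Fin p ⊕ Fin q) :
    cat h a b ((finSumFinEquiv.trans (finCongr h)) i) = Sum.elim a b i := by
  subst h
  rcases i with i | i
  · simp [cat]
  · simp [cat]

lemma cat_eq' {p q n : ℕ} (h : p + q = n) (a : Fin p → ℝ) (b : Fin q → ℝ) :
    cat h a b = Sum.elim a b ∘ (finSumFinEquiv.trans (finCongr h)).symm := by
  funext i
  obtain ⟨j, rfl⟩ := (finSumFinEquiv.trans (finCongr h)).surjective i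
  rw [cat_eq]; simp

lemma blockSum_mulVec {p q n : ℕ} (h : p + q = n) (A : Orth p) (B : Orth q) (a : Fin p → ℝ)
    (b : Fin q → ℝ) : (blockSum h A B).1 *ᵥ (cat h a b) = cat h (A.1 *ᵥ a) (B.1 *ᵥ b) := by
  rw [cat_eq', cat_eq', blockSum]
  show (Matrix.fromBlocks A.1 0 0 B.1).submatrix _ _ *ᵥ _ = _
  rw [Matrix.submatrix_mulVec_equiv]
  have : (Sum.elim a b ∘ (finSumFinEquiv.trans (finCongr h)).symm) ∘
      (finSumFinEquiv.trans (finCongr h)).symm.symm = Sum.elim a b := by
    funext i; simp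
  rw [this, Matrix.fromBlocks_mulVec]
  simp

lemma snoc_eq_cat {n : ℕ} (a : Fin n → ℝ) (s : ℝ) :
    (Fin.snoc a s : Fin (n + 1) → ℝ) = cat rfl a (fun _ : Fin 1 => s) := by
  funext i
  refine Fin.lastCases ?_ (fun i => ?_) i
  · simp [cat]
    have : (Fin.last n) = Fin.natAdd n (0 : Fin 1) := rfl
    rw [this, Fin.append_right]
  · simp [cat]
    have : i.castSucc = Fin.castAdd 1 i := rfl
    rw [this, Fin.append_left]

lemma cat_lt {p q n : ℕ} (h : p + q = n) (a : Fin p → ℝ) (b : Fin q → ℝ) (i : Fin n)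
    (hi : i.val < p) : cat h a b i = a ⟨i, hi⟩ := by
  subst h
  exact Fin.append_left a b ⟨i, hi⟩

lemma cat_ge {p q n : ℕ} (h : p + q = n) (a : Fin p → ℝ) (b : Fin q → ℝ) (i : Fin n)
    (hi : p ≤ i.val) : cat h a b i = b ⟨i - p, by omega⟩ := by
  subst h
  have h1 : Fin.natAdd p ⟨i - p, by omega⟩ = i := by
    ext; simp; omega
  have h2 := Fin.append_right a b ⟨i - p, by omega⟩
  rw [h1] at h2
  exact h2

lemma shufflePerm_p {p q n : ℕ} (h : p + q = n) :
    shufflePerm h (⟨p, by omega⟩ : Fin (n + 1)) = Fin.last n := by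
  simp [shufflePerm]

lemma shufflePerm_succAbove {p q n : ℕ} (h : p + q = n) (j : Fin n) :
    shufflePerm h ((⟨p, by omega⟩ : Fin (n + 1)).succAbove j) = j.castSucc := by
  simp [shufflePerm]

lemma shuffle_mulVec {p q n : ℕ} (h : p + q = n) (a : Fin p → ℝ) (b : Fin q → ℝ) (s : ℝ) :
    (shuffle h).1 *ᵥ (Fin.snoc (cat h a b) s : Fin (n + 1) → ℝ) =
      cat (by omega : p + 1 + q = n + 1) (Fin.snoc a s) b := by
  have h1 : ∀ w : Fin (n + 1) → ℝ, (shuffle h).1 *ᵥ w = w ∘ shufflePerm h := by
    intro w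
    funext i
    simp [shuffle, Matrix.mulVec, dotProduct, Matrix.one_apply]
  rw [h1]
  funext i
  rw [Function.comp_apply]
  rcases Fin.eq_self_or_eq_succAbove (⟨p, by omega⟩ : Fin (n + 1)) i with hi | ⟨j, hj⟩
  · rw [hi, shufflePerm_p, Fin.snoc_last, cat_lt _ _ _ _ (by simp)]
    have : (⟨p, by omega⟩ : Fin (p + 1)) = Fin.last p := rfl
    rw [this, Fin.snoc_last]
  · rw [hj, shufflePerm_succAbove, Fin.snoc_castSucc]
    by_cases hjp : j.val < p
    · have h2 : (⟨p, by omega⟩ : Fin (n + 1)).succAbove j = j.castSucc := by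
        rw [Fin.succAbove_of_castSucc_lt]
        exact hjp
      rw [h2, cat_lt _ _ _ _ hjp, cat_lt _ _ _ _ (by simp; omega)]
      have h3 : (⟨(j.castSucc : Fin (n + 1)), by simp; omega⟩ : Fin (p + 1)) =
        (⟨j, hjp⟩ : Fin p).castSucc := rfl
      rw [h3, Fin.snoc_castSucc]
    · have h2 : (⟨p, by omega⟩ : Fin (n + 1)).succAbove j = j.succ := by
        rw [Fin.succAbove_of_le_castSucc]
        show p ≤ j.val
        omega
      rw [h2, cat_ge _ _ _ _ (by omega), cat_ge _ _ _ _ (by simp; omega)]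
      congr 1
      ext
      simp

/-! ### The ambient spaces -/

/-- The ambient space `ℝ^n × ℝ^n × ℝ`. -/
abbrev E (n : ℕ) : Type := (Fin n → ℝ) × (Fin n → ℝ) × ℝ

/-- `((w, ξ, κ), s) ↦ ((w, s), (ξ, 0), κ)`. -/
def ext {n : ℕ} (p : E n) (s : ℝ) : E (n + 1) := (Fin.snoc p.1 s, Fin.snoc p.2.1 0, p.2.2)

/-- The action of the orthogonal group, diagonally on the first two factors. -/
def rot {n : ℕ} (A : Orth n) (p : E n) : E n := (A.1 *ᵥ p.1, A.1 *ᵥ p.2.1, p.2.2)

/-- `((w, ξ, κ), v) ↦ ((w, v), (ξ, 0), κ)` for `v ∈ ℝ^m`. -/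
def extv {n : ℕ} (p : E n) (m : ℕ) (v : Fin m → ℝ) : E (n + m) :=
  (cat rfl p.1 v, cat rfl p.2.1 0, p.2.2)

@[simp] lemma rot_one {n : ℕ} (p : E n) : rot 1 p = p := by simp [rot]

lemma rot_mul {n : ℕ} (A B : Orth n) (p : E n) : rot (A * B) p = rot A (rot B p) := by
  simp [rot, Matrix.mulVec_mulVec]

lemma rot_inv_rot {n : ℕ} (A : Orth n) (p : E n) : rot A⁻¹ (rot A p) = p := by
  rw [← rot_mul]; simp

lemma rot_rot_inv {n : ℕ} (A : Orth n) (p : E n) : rot A (rot A⁻¹ p) = p := by
  rw [← rot_mul]; simp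

lemma rot_extv {n m : ℕ} (A : Orth n) (B : Orth m) (p : E n) (v : Fin m → ℝ) :
    extv (rot A p) m (B.1 *ᵥ v) = rot (blockSum rfl A B) (extv p m v) := by
  simp only [extv, rot, blockSum_mulVec, Matrix.mulVec_zero]

lemma cat_zero_right {n : ℕ} (a : Fin n → ℝ) (v : Fin 0 → ℝ) : cat (p := n) rfl a v = a := by
  funext i
  rw [cat_lt _ _ _ _ i.2]

lemma extv_zero {n : ℕ} (p : E n) (v : Fin 0 → ℝ) : extv p 0 v = p := by
  exact Prod.ext (cat_zero_right _ _) (Prod.ext (cat_zero_right _ _) rfl)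

lemma cat_snoc {p q n : ℕ} (h : p + q = n) (a : Fin p → ℝ) (b : Fin q → ℝ) (s : ℝ) :
    cat (by omega : p + (q + 1) = n + 1) a (Fin.snoc b s : Fin (q + 1) → ℝ) =
      Fin.snoc (cat h a b) s := by
  funext i
  refine Fin.lastCases ?_ (fun i => ?_) i
  · rw [Fin.snoc_last, cat_ge _ _ _ _ (by simp; omega)]
    have : (⟨(Fin.last n : Fin (n + 1)) - p, by simp; omega⟩ : Fin (q + 1)) = Fin.last q := by
      ext; simp; omega
    rw [this, Fin.snoc_last]
  · rw [Fin.snoc_castSucc]
    by_cases hi : i.val < p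
    · rw [cat_lt _ _ _ _ (by simpa using hi), cat_lt _ _ _ _ hi]
      rfl
    · rw [cat_ge _ _ _ _ (by simp; omega), cat_ge _ _ _ _ (by omega)]
      have : (⟨(i.castSucc : Fin (n + 1)) - p, by simp; omega⟩ : Fin (q + 1)) =
        (⟨i - p, by omega⟩ : Fin q).castSucc := by
        ext; simp
      rw [this, Fin.snoc_castSucc]

lemma extv_succ {n m : ℕ} (p : E n) (v : Fin (m + 1) → ℝ) :
    extv p (m + 1) v = ext (extv p m (Fin.init v)) (v (Fin.last m)) := by
  have e1 : (cat (n := n + (m + 1)) rfl p.1 v) =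
      Fin.snoc (cat (n := n + m) rfl p.1 (Fin.init v)) (v (Fin.last m)) := by
    conv_lhs => rw [← Fin.snoc_init_self v]
    exact cat_snoc rfl p.1 (Fin.init v) (v (Fin.last m))
  have e2 : (cat (n := n + (m + 1)) rfl p.2.1 (0 : Fin (m + 1) → ℝ)) =
      Fin.snoc (cat (n := n + m) rfl p.2.1 (0 : Fin m → ℝ)) (0 : ℝ) := by
    have : (0 : Fin (m + 1) → ℝ) = Fin.snoc (0 : Fin m → ℝ) (0 : ℝ) := by
      funext i
      refine Fin.lastCases ?_ (fun i => ?_) i
      · rw [Fin.snoc_last]; rfl
      · rw [Fin.snoc_castSucc]; rfl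
    rw [this]
    exact cat_snoc rfl p.2.1 (0 : Fin m → ℝ) 0
  exact Prod.ext e1 (Prod.ext e2 rfl)

lemma continuous_ext {n : ℕ} : Continuous fun q : E n × ℝ => ext q.1 q.2 := by
  refine Continuous.prodMk ?_ (Continuous.prodMk ?_ ?_)
  · exact Continuous.finSnoc (A := fun _ => ℝ) (by fun_prop) continuous_snd
  · exact Continuous.finSnoc (A := fun _ => ℝ) (by fun_prop) continuous_const
  · fun_prop

lemma continuous_rot {n : ℕ} : Continuous fun q : Orth n × E n => rot q.1 q.2 := by
  have h1 : Continuous fun q : Orth n × E n => (q.1 : Matrix (Fin n) (Fin n) ℝ) :=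
    continuous_subtype_val.comp continuous_fst
  refine Continuous.prodMk ?_ (Continuous.prodMk ?_ ?_)
  · exact h1.matrix_mulVec (by fun_prop)
  · exact h1.matrix_mulVec (by fun_prop)
  · fun_prop

/-- A system of locally closed subsets `D n` of `ℝ^n × ℝ^n × ℝ` whose one-point compactifications
form an orthogonal spectrum, with structure maps `(p, s) ↦ ext p s`, extended by `∞`. -/
structure DSys where
  /-- the subsets -/
  D : ∀ n, Set (E n)
  isLocallyClosed : ∀ n, IsLocallyClosed (D n)
  rot_mem : ∀ {n : ℕ} (A : Orth n) {p : E n}, p ∈ D n → rot A p ∈ D n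
  down : ∀ {n : ℕ} {p : E n} {s : ℝ}, ext p s ∈ D (n + 1) → p ∈ D n
  isOpen_ext : ∀ n, IsOpen {q : D n × ℝ | ext q.1.1 q.2 ∈ D (n + 1)}

/-- Compact Hausdorff spaces are compactly generated weak Hausdorff. -/
instance (priority := 100) CGWH.of_compact (X : Type) [TopologicalSpace X] [CompactSpace X]
    [T2Space X] : CGWH X where
  isClosed_of_forall s h := by
    have := h X (ContinuousMap.id X)
    simpa using this
  isClosed_range _ _ _ _ u := (isCompact_range u.continuous).isClosed

namespace DSys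

variable (S : DSys)

instance (n : ℕ) : LocallyCompactSpace (S.D n) :=
  (S.isLocallyClosed n).locallyCompactSpace

instance (n : ℕ) : MulAction (Orth n) (S.D n) where
  smul A p := ⟨rot A p.1, S.rot_mem A p.2⟩
  one_smul p := Subtype.ext (rot_one p.1)
  mul_smul A B p := Subtype.ext (rot_mul A B p.1)

lemma coe_smul {n : ℕ} (A : Orth n) (p : S.D n) : ((A • p : S.D n) : E n) = rot A p.1 := rfl

/-- The action of `O(n)` on the one-point compactification. -/
@[reducible] def action (n : ℕ) : MulAction (Orth n) (OnePoint (S.D n)) where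
  smul A x := OnePoint.map (fun d => A • d) x
  one_smul x := by
    induction x using OnePoint.rec with
    | infty => rfl
    | coe x => exact congrArg OnePoint.some (one_smul (Orth n) x)
  mul_smul A B x := by
    induction x using OnePoint.rec with
    | infty => rfl
    | coe x => exact congrArg OnePoint.some (mul_smul A B x)

/-- The structure maps. -/
noncomputable def strFun (n : ℕ) (x : OnePoint (S.D n)) (s : OnePoint ℝ) :
    OnePoint (S.D (n + 1)) :=
  partialMap (fun q : S.D n × ℝ => ext q.1.1 q.2) (S.D (n + 1)) (collapse (x, s))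

@[simp] lemma strFun_infty_left (n : ℕ) (s : OnePoint ℝ) : S.strFun n ∞ s = ∞ := rfl

@[simp] lemma strFun_infty_right (n : ℕ) (x : OnePoint (S.D n)) : S.strFun n x ∞ = ∞ := by
  simp [strFun]

lemma strFun_of_mem {n : ℕ} {p : S.D n} {s : ℝ} (h : ext p.1 s ∈ S.D (n + 1)) :
    S.strFun n (p : OnePoint (S.D n)) (s : OnePoint ℝ) =
      ((⟨ext p.1 s, h⟩ : S.D (n + 1)) : OnePoint (S.D (n + 1))) := by
  rw [strFun, collapse_coe]
  exact partialMap_of_mem (a := ((p, s) : S.D n × ℝ)) h

lemma strFun_of_notMem {n : ℕ} {p : S.D n} {s : ℝ} (h : ext p.1 s ∉ S.D (n + 1)) :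
    S.strFun n (p : OnePoint (S.D n)) (s : OnePoint ℝ) = ∞ := by
  rw [strFun, collapse_coe]
  exact partialMap_of_notMem (a := ((p, s) : S.D n × ℝ)) h

lemma continuous_strFun (n : ℕ) :
    Continuous fun q : OnePoint (S.D n) × OnePoint ℝ => S.strFun n q.1 q.2 := by
  have h1 : Continuous (partialMap (fun q : S.D n × ℝ => ext q.1.1 q.2) (S.D (n + 1))) := by
    refine continuous_partialMap (A' := E n × ℝ) (j := fun q : S.D n × ℝ => (q.1.1, q.2))
      (ρ := fun e : E (n + 1) => ((Fin.init e.1, Fin.init e.2.1, e.2.2), e.1 (Fin.last n)))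
      (G := {e : E (n + 1) | e.2.1 (Fin.last n) = 0}) ?_ (S.isOpen_ext n) ?_ ?_ ?_ ?_ ?_
    · exact continuous_ext.comp ((continuous_subtype_val.comp continuous_fst).prodMk continuous_snd)
    · exact IsEmbedding.subtypeVal.prodMap IsEmbedding.id
    · refine Continuous.prodMk (Continuous.prodMk ?_ (Continuous.prodMk ?_ ?_)) ?_
      · exact Continuous.finInit (A := fun _ => ℝ) continuous_fst
      · exact Continuous.finInit (A := fun _ => ℝ) (by fun_prop)
      · fun_prop
      · fun_prop
    · exact isClosed_eq (by fun_prop) continuous_const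
    · intro a _
      refine ⟨?_, ?_⟩
      · simp [ext]
      · simp [ext]
    · intro e he hG
      have h2 : ext (Fin.init e.1, Fin.init e.2.1, e.2.2) (e.1 (Fin.last n)) = e := by
        refine Prod.ext (Fin.snoc_init_self _) (Prod.ext ?_ rfl)
        have h3 : e.2.1 (Fin.last n) = 0 := hG
        show (Fin.snoc (Fin.init e.2.1) 0 : Fin (n + 1) → ℝ) = e.2.1
        rw [← h3]
        exact Fin.snoc_init_self _
      refine ⟨(⟨(Fin.init e.1, Fin.init e.2.1, e.2.2), ?_⟩, e.1 (Fin.last n)), rfl, h2⟩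
      exact S.down (s := e.1 (Fin.last n)) (by rw [h2]; exact he)
  exact h1.comp continuous_collapse

lemma iterStr_infty (n m : ℕ) (v : Fin m → ℝ) :
    iterStr S.strFun (∞ : OnePoint (S.D n)) m v = ∞ := by
  induction m with
  | zero => rfl
  | succ m ih =>
    show S.strFun (n + m) (iterStr S.strFun (∞ : OnePoint (S.D n)) m (Fin.init v)) _ = ∞
    rw [ih]
    rfl

lemma iterStr_of_mem {n m : ℕ} {p : S.D n} {v : Fin m → ℝ} (h : extv p.1 m v ∈ S.D (n + m)) :
    iterStr S.strFun (p : OnePoint (S.D n)) m v =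
      ((⟨extv p.1 m v, h⟩ : S.D (n + m)) : OnePoint (S.D (n + m))) := by
  induction m with
  | zero =>
    show (p : OnePoint (S.D n)) = _
    congr 1
    exact Subtype.ext (extv_zero p.1 v).symm
  | succ m ih =>
    have h1 : ext (extv p.1 m (Fin.init v)) (v (Fin.last m)) ∈ S.D (n + (m + 1)) := by
      rw [← extv_succ]; exact h
    have h2 : extv p.1 m (Fin.init v) ∈ S.D (n + m) := S.down h1
    show S.strFun (n + m) (iterStr S.strFun (p : OnePoint (S.D n)) m (Fin.init v)) _ = _
    rw [ih h2, S.strFun_of_mem h1]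
    congr 1
    exact Subtype.ext (extv_succ p.1 v).symm

lemma iterStr_of_notMem {n m : ℕ} {p : S.D n} {v : Fin m → ℝ} (h : extv p.1 m v ∉ S.D (n + m)) :
    iterStr S.strFun (p : OnePoint (S.D n)) m v = ∞ := by
  induction m with
  | zero =>
    exfalso
    apply h
    rw [extv_zero]
    exact p.2
  | succ m ih =>
    show S.strFun (n + m) (iterStr S.strFun (p : OnePoint (S.D n)) m (Fin.init v)) _ = ∞
    by_cases h2 : extv p.1 m (Fin.init v) ∈ S.D (n + m)
    · rw [S.iterStr_of_mem h2, S.strFun_of_notMem]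
      rw [extv_succ] at h
      exact h
    · rw [ih h2]; rfl

/-- The orthogonal spectrum of a system `S`. -/
noncomputable def spec : OrthSpectrum where
  lev n := OnePoint (S.D n)
  pt n := ∞
  act n := S.action n
  continuous_act n := by
    let _ := S.action n
    refine continuous_smul_onePoint (G := Orth n) (D := S.D n) ?_
    refine Continuous.subtype_mk ?_ _
    exact continuous_rot.comp (continuous_fst.prodMk (continuous_subtype_val.comp continuous_snd))
  smul_pt n A := rfl
  str := S.strFun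
  continuous_str := S.continuous_strFun
  str_pt n s := rfl
  str_infty n x := S.strFun_infty_right n x
  equivariant n m A B x v := by
    let _ := S.action n
    let _ := S.action (n + m)
    induction x using OnePoint.rec with
    | infty =>
      show iterStr S.strFun (∞ : OnePoint (S.D n)) m _ = _ • iterStr S.strFun _ m v
      rw [S.iterStr_infty, S.iterStr_infty]
      rfl
    | coe p =>
      show iterStr S.strFun ((A • p : S.D n) : OnePoint (S.D n)) m _ = _ • iterStr S.strFun _ m v
      by_cases h : extv p.1 m v ∈ S.D (n + m)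
      · have h2 : extv ((A • p : S.D n) : E n) m (B.1 *ᵥ v) ∈ S.D (n + m) := by
          rw [coe_smul, rot_extv]
          exact S.rot_mem _ h
        rw [S.iterStr_of_mem h, S.iterStr_of_mem h2]
        show _ = ((_ : S.D (n + m)) : OnePoint (S.D (n + m)))
        congr 1
        exact Subtype.ext (rot_extv A B p.1 v)
      · have h2 : extv ((A • p : S.D n) : E n) m (B.1 *ᵥ v) ∉ S.D (n + m) := by
          intro h3
          apply h
          rw [coe_smul, rot_extv] at h3
          have := S.rot_mem (blockSum rfl A B)⁻¹ h3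
          rwa [rot_inv_rot] at this
        rw [S.iterStr_of_notMem h, S.iterStr_of_notMem h2]
        rfl

end DSys

end Pool.Agent.Work.MP_783066_gt
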