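import Mathlib
import Pool.Agent.Work.MP_783066_gt.DSys

/-!
# The three spectra of the counterexample
-/

open OnePoint Topology Set Filter Matrix

namespace Pool.Agent.Work.MP_783066_gt

/-! ### Dot products -/

lemma dot_rot {n : ℕ} (A : Orth n) (v w : Fin n → ℝ) : (A.1 *ᵥ v) ⬝ᵥ (A.1 *ᵥ w) = v ⬝ᵥ w := by
  have hA := (Matrix.mem_orthogonalGroup_iff' (Fin n) ℝ).1 A.2
  rw [Matrix.dotProduct_mulVec, Matrix.vecMul_mulVec, hA, Matrix.vecMul_one]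

lemma dot_snoc {n : ℕ} (v w : Fin n → ℝ) (s t : ℝ) :
    (Fin.snoc v s : Fin (n + 1) → ℝ) ⬝ᵥ (Fin.snoc w t : Fin (n + 1) → ℝ) = v ⬝ᵥ w + s * t := by
  simp [dotProduct, Fin.sum_univ_castSucc]

lemma dot_cat {p q n : ℕ} (h : p + q = n) (a a' : Fin p → ℝ) (b b' : Fin q → ℝ) :
    cat h a b ⬝ᵥ cat h a' b' = a ⬝ᵥ a' + b ⬝ᵥ b' := by
  rw [cat_eq', cat_eq']
  simp only [dotProduct]
  rw [← Equiv.sum_comp (finSumFinEquiv.trans (finCongr h))]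
  simp [Fintype.sum_sum_type]

lemma dot_self_nonneg {n : ℕ} (v : Fin n → ℝ) : 0 ≤ v ⬝ᵥ v := by
  simp only [dotProduct]
  exact Finset.sum_nonneg fun i _ => mul_self_nonneg _

lemma dot_self_eq_zero {n : ℕ} {v : Fin n → ℝ} : v ⬝ᵥ v = 0 ↔ v = 0 := dotProduct_self_eq_zero

lemma dot_cauchy {n : ℕ} (v w : Fin n → ℝ) : (v ⬝ᵥ w) ^ 2 ≤ (v ⬝ᵥ v) * (w ⬝ᵥ w) := by
  simp only [dotProduct]
  have := Finset.sum_mul_sq_le_sq_mul_sq Finset.univ v w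
  simpa [sq] using this

lemma continuous_dot {n : ℕ} : Continuous fun p : (Fin n → ℝ) × (Fin n → ℝ) => p.1 ⬝ᵥ p.2 := by
  simp only [dotProduct]
  fun_prop

/-! ### The convergent sequence `K` -/

/-- `K = {0} ∪ {1/(j+1) : j ∈ ℕ}`. -/
def K : Set ℝ := insert 0 (range fun j : ℕ => (1 : ℝ) / (j + 1))

lemma isCompact_K : IsCompact K :=
  tendsto_one_div_add_atTop_nhds_zero_nat.isCompact_insert_range

lemma isClosed_K : IsClosed K := isCompact_K.isClosed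

lemma zero_mem_K : (0 : ℝ) ∈ K := mem_insert _ _

lemma inv_mem_K (j : ℕ) : (1 : ℝ) / (j + 1) ∈ K := mem_insert_of_mem _ ⟨j, rfl⟩

lemma K_nonneg {x : ℝ} (hx : x ∈ K) : 0 ≤ x := by
  rcases hx with rfl | ⟨j, rfl⟩
  · exact le_rfl
  · positivity

lemma K_le_one {x : ℝ} (hx : x ∈ K) : x ≤ 1 := by
  rcases hx with rfl | ⟨j, rfl⟩
  · norm_num
  · show (1 : ℝ) / (j + 1) ≤ 1
    rw [div_le_one (by positivity)]
    have : (0 : ℝ) ≤ j := Nat.cast_nonneg j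
    linarith

/-! ### A way of building systems -/

/-- Systems from closed sets `F n` and open sets `V n`. -/
def DSys.ofFV (F V : ∀ n, Set (E n)) (hF : ∀ n, IsClosed (F n)) (hV : ∀ n, IsOpen (V n))
    (hFr : ∀ {n : ℕ} (A : Orth n) {p : E n}, p ∈ F n → rot A p ∈ F n)
    (hVr : ∀ {n : ℕ} (A : Orth n) {p : E n}, p ∈ V n → rot A p ∈ V n)
    (hFe : ∀ {n : ℕ} {p : E n} {s : ℝ}, ext p s ∈ F (n + 1) ↔ p ∈ F n)
    (hVd : ∀ {n : ℕ} {p : E n} {s : ℝ}, ext p s ∈ V (n + 1) → p ∈ V n) : DSys where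
  D n := F n ∩ V n
  isLocallyClosed n := (hF n).isLocallyClosed.inter (hV n).isLocallyClosed
  rot_mem A _ hp := ⟨hFr A hp.1, hVr A hp.2⟩
  down h := ⟨hFe.1 h.1, hVd h.2⟩
  isOpen_ext n := by
    have h1 : {q : (F n ∩ V n : Set (E n)) × ℝ | ext q.1.1 q.2 ∈ F (n + 1) ∩ V (n + 1)} =
        (fun q : (F n ∩ V n : Set (E n)) × ℝ => ext q.1.1 q.2) ⁻¹' V (n + 1) := by
      ext q
      constructor
      · intro h; exact h.2
      · intro h; exact ⟨hFe.2 q.1.2.1, h⟩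
    rw [h1]
    refine (hV (n + 1)).preimage ?_
    exact continuous_ext.comp ((continuous_subtype_val.comp continuous_fst).prodMk continuous_snd)

/-! ### The systems -/

/-- The closed set `{(w, ξ, κ) : |ξ| = ⟨w, ξ⟩ ∈ K, κ ∈ Λ}`. -/
def FP (Λ : Set ℝ) (n : ℕ) : Set (E n) :=
  {p | p.1 ⬝ᵥ p.2.1 ∈ K ∧ p.2.1 ⬝ᵥ p.2.1 = (p.1 ⬝ᵥ p.2.1) ^ 2 ∧ p.2.2 ∈ Λ}

/-- The closed set `{(w, 0, κ) : κ ∈ Λ}`. -/
def FY (Λ : Set ℝ) (n : ℕ) : Set (E n) := {p | p.2.1 = 0 ∧ p.2.2 ∈ Λ}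

/-- The open set `|w| < 1, n κ < 1`. -/
def VY (n : ℕ) : Set (E n) := {p | p.1 ⬝ᵥ p.1 < 1 ∧ (n : ℝ) * p.2.2 < 1}

/-- The open set `ξ ≠ 0, |w|² < 2, (n-1) κ < 1`. -/
def VP' (n : ℕ) : Set (E n) := {p | p.2.1 ≠ 0 ∧ p.1 ⬝ᵥ p.1 < 2 ∧ ((n - 1 : ℕ) : ℝ) * p.2.2 < 1}

lemma continuous_dot_comp {n : ℕ} {X : Type*} [TopologicalSpace X] {f g : X → Fin n → ℝ}
    (hf : Continuous f) (hg : Continuous g) : Continuous fun x => f x ⬝ᵥ g x :=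
  continuous_dot.comp (hf.prodMk hg)

lemma isClosed_FP {Λ : Set ℝ} (hΛ : IsClosed Λ) (n : ℕ) : IsClosed (FP Λ n) := by
  have h1 : Continuous fun p : E n => p.1 ⬝ᵥ p.2.1 :=
    continuous_dot_comp (by fun_prop) (by fun_prop)
  have h2 : Continuous fun p : E n => p.2.1 ⬝ᵥ p.2.1 :=
    continuous_dot_comp (by fun_prop) (by fun_prop)
  exact (isClosed_K.preimage h1).inter ((isClosed_eq h2 (h1.pow 2)).inter
    (hΛ.preimage (by fun_prop : Continuous fun p : E n => p.2.2)))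

lemma isClosed_FY {Λ : Set ℝ} (hΛ : IsClosed Λ) (n : ℕ) : IsClosed (FY Λ n) :=
  (isClosed_eq (f := fun p : E n => p.2.1) (g := fun _ => 0) (by fun_prop)
    continuous_const).inter (hΛ.preimage (by fun_prop : Continuous fun p : E n => p.2.2))

lemma isOpen_VY (n : ℕ) : IsOpen (VY n) := by
  have h1 : Continuous fun p : E n => p.1 ⬝ᵥ p.1 :=
    continuous_dot_comp (by fun_prop) (by fun_prop)
  have h2 : Continuous fun p : E n => (n : ℝ) * p.2.2 := by fun_prop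
  exact (isOpen_lt h1 continuous_const).inter (isOpen_lt h2 continuous_const)

lemma isOpen_VP' (n : ℕ) : IsOpen (VP' n) := by
  have h0 : Continuous fun p : E n => p.2.1 := by fun_prop
  have h1 : Continuous fun p : E n => p.1 ⬝ᵥ p.1 :=
    continuous_dot_comp (by fun_prop) (by fun_prop)
  have h2 : Continuous fun p : E n => ((n - 1 : ℕ) : ℝ) * p.2.2 := by fun_prop
  exact (isOpen_ne_fun h0 continuous_const).inter
    ((isOpen_lt h1 continuous_const).inter (isOpen_lt h2 continuous_const))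

lemma mulVec_eq_zero_iff {n : ℕ} (A : Orth n) (v : Fin n → ℝ) : A.1 *ᵥ v = 0 ↔ v = 0 := by
  rw [← dot_self_eq_zero, dot_rot, dot_self_eq_zero]

lemma snoc_zero_eq_zero_iff {n : ℕ} (v : Fin n → ℝ) :
    (Fin.snoc v 0 : Fin (n + 1) → ℝ) = 0 ↔ v = 0 := by
  rw [← dot_self_eq_zero, dot_snoc, ← dot_self_eq_zero]
  simp

lemma rot_mem_FP {Λ : Set ℝ} {n : ℕ} (A : Orth n) {p : E n} (h : p ∈ FP Λ n) :
    rot A p ∈ FP Λ n := by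
  obtain ⟨h1, h2, h3⟩ := h
  refine ⟨?_, ?_, h3⟩
  · show (A.1 *ᵥ p.1) ⬝ᵥ (A.1 *ᵥ p.2.1) ∈ K
    rw [dot_rot]; exact h1
  · show (A.1 *ᵥ p.2.1) ⬝ᵥ (A.1 *ᵥ p.2.1) = ((A.1 *ᵥ p.1) ⬝ᵥ (A.1 *ᵥ p.2.1)) ^ 2
    rw [dot_rot, dot_rot]; exact h2

lemma rot_mem_FY {Λ : Set ℝ} {n : ℕ} (A : Orth n) {p : E n} (h : p ∈ FY Λ n) :
    rot A p ∈ FY Λ n :=
  ⟨(mulVec_eq_zero_iff A _).2 h.1, h.2⟩

lemma rot_mem_VY {n : ℕ} (A : Orth n) {p : E n} (h : p ∈ VY n) : rot A p ∈ VY n := by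
  refine ⟨?_, h.2⟩
  show (A.1 *ᵥ p.1) ⬝ᵥ (A.1 *ᵥ p.1) < 1
  rw [dot_rot]; exact h.1

lemma rot_mem_VP' {n : ℕ} (A : Orth n) {p : E n} (h : p ∈ VP' n) : rot A p ∈ VP' n := by
  refine ⟨fun h0 => h.1 ((mulVec_eq_zero_iff A _).1 h0), ?_, h.2.2⟩
  show (A.1 *ᵥ p.1) ⬝ᵥ (A.1 *ᵥ p.1) < 2
  rw [dot_rot]; exact h.2.1

lemma ext_mem_FP {Λ : Set ℝ} {n : ℕ} {p : E n} {s : ℝ} :
    ext p s ∈ FP Λ (n + 1) ↔ p ∈ FP Λ n := by
  simp only [FP, ext, mem_ofPred_eq, dot_snoc, mul_zero, add_zero]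

lemma ext_mem_FY {Λ : Set ℝ} {n : ℕ} {p : E n} {s : ℝ} :
    ext p s ∈ FY Λ (n + 1) ↔ p ∈ FY Λ n := by
  simp only [FY, ext, mem_ofPred_eq, snoc_zero_eq_zero_iff]

lemma VY_down {n : ℕ} {p : E n} {s : ℝ} (h : ext p s ∈ VY (n + 1)) : p ∈ VY n := by
  obtain ⟨h1, h2⟩ := h
  simp only [ext, dot_snoc] at h1 h2
  refine ⟨by nlinarith [mul_self_nonneg s], ?_⟩
  push_cast at h2
  rcases le_or_gt 0 p.2.2 with h3 | h3
  · nlinarith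
  · have : (0 : ℝ) ≤ n := Nat.cast_nonneg n
    nlinarith

lemma VP'_down {n : ℕ} {p : E n} {s : ℝ} (h : ext p s ∈ VP' (n + 1)) : p ∈ VP' n := by
  obtain ⟨h1, h2, h3⟩ := h
  simp only [ext, dot_snoc, Nat.add_sub_cancel] at h1 h2 h3
  refine ⟨fun h0 => h1 ((snoc_zero_eq_zero_iff _).2 h0), by nlinarith [mul_self_nonneg s], ?_⟩
  have h4 : ((n - 1 : ℕ) : ℝ) ≤ n := by exact_mod_cast Nat.sub_le n 1
  have h5 : (0 : ℝ) ≤ ((n - 1 : ℕ) : ℝ) := Nat.cast_nonneg _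
  rcases le_or_gt 0 p.2.2 with h6 | h6
  · nlinarith
  · nlinarith

/-- The system of `X`: `{(w, ξ) : |ξ| = ⟨w, ξ⟩ ∈ K}`. -/
def sysX : DSys := DSys.ofFV (FP {0}) (fun _ => univ) (isClosed_FP isClosed_singleton)
  (fun _ => isOpen_univ) rot_mem_FP (fun _ _ _ => mem_univ _) ext_mem_FP (fun _ => mem_univ _)

/-- The system of `Y_Λ`: `{(w, κ) : |w| < 1, κ ∈ Λ, n κ < 1}`. -/
def sysY (Λ : Set ℝ) (hΛ : IsClosed Λ) : DSys := DSys.ofFV (FY Λ) VY (isClosed_FY hΛ) isOpen_VY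
  rot_mem_FY rot_mem_VY ext_mem_FY VY_down

/-- The system of `P_Λ = X ∧ Y_Λ`. -/
def sysP (Λ : Set ℝ) (hΛ : IsClosed Λ) : DSys := DSys.ofFV (FP Λ) (fun n => VY n ∪ VP' n)
  (isClosed_FP hΛ) (fun n => (isOpen_VY n).union (isOpen_VP' n)) rot_mem_FP
  (fun A _ h => h.imp (rot_mem_VY A) (rot_mem_VP' A)) ext_mem_FP
  (fun h => h.imp VY_down VP'_down)

lemma xi_eq_zero {Λ : Set ℝ} {n : ℕ} {p : E n} (h : p ∈ FP Λ n) (h1 : p.1 ⬝ᵥ p.1 < 1) :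
    p.2.1 = 0 := by
  obtain ⟨_, h3, _⟩ := h
  have h4 := dot_cauchy p.1 p.2.1
  rw [← h3] at h4
  have h5 := dot_self_nonneg p.2.1
  rw [← dot_self_eq_zero]
  nlinarith

end Pool.Agent.Work.MP_783066_gt
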