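import Mathlib
import Pool.Agent.Work.MP_783066_gt.Systems

/-!
# The bimorphism `(X, Y_Λ) → P_Λ` and the inclusions
-/

open OnePoint Topology Set Filter Matrix

namespace Pool.Agent.Work.MP_783066_gt

namespace DSys

variable (S : DSys)

open scoped Classical in
/-- The point of `(D n)⁺` given by `e`, if `e ∈ D n`, and `∞` otherwise. -/
noncomputable def of {n : ℕ} (e : E n) : OnePoint (S.D n) :=
  if h : e ∈ S.D n then ((⟨e, h⟩ : S.D n) : OnePoint (S.D n)) else ∞

lemma of_mem {n : ℕ} {e : E n} (h : e ∈ S.D n) :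
    S.of e = ((⟨e, h⟩ : S.D n) : OnePoint (S.D n)) := dif_pos h

lemma of_notMem {n : ℕ} {e : E n} (h : e ∉ S.D n) : S.of e = ∞ := dif_neg h

lemma coe_eq_of {n : ℕ} (p : S.D n) : (p : OnePoint (S.D n)) = S.of p.1 := (S.of_mem p.2).symm

lemma of_eq_infty_iff {n : ℕ} {e : E n} : S.of e = ∞ ↔ e ∉ S.D n := by
  by_cases h : e ∈ S.D n
  · rw [S.of_mem h]; simp [h]
  · rw [S.of_notMem h]; simp [h]

lemma of_inj {n : ℕ} {e e' : E n} (h : e ∈ S.D n) (h2 : S.of e = S.of e') : e = e' := by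
  by_cases h' : e' ∈ S.D n
  · rw [S.of_mem h, S.of_mem h', OnePoint.coe_eq_coe, Subtype.mk.injEq] at h2
    exact h2
  · rw [S.of_mem h, S.of_notMem h'] at h2
    exact absurd h2 (OnePoint.coe_ne_infty _)

lemma exists_of {n : ℕ} (x : OnePoint (S.D n)) : x = ∞ ∨ ∃ e ∈ S.D n, x = S.of e := by
  induction x using OnePoint.rec with
  | infty => left; rfl
  | coe p => right; exact ⟨p.1, p.2, S.coe_eq_of p⟩

lemma partialMap_eq_of {A : Type*} {n : ℕ} (ψ : A → E n) (a : A) :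
    partialMap ψ (S.D n) (a : OnePoint A) = S.of (ψ a) := rfl

lemma strFun_of {n : ℕ} (e : E n) (s : ℝ) :
    S.strFun n (S.of e) (s : OnePoint ℝ) = S.of (ext e s) := by
  by_cases h : e ∈ S.D n
  · rw [S.of_mem h, strFun, collapse_coe]
    rfl
  · rw [S.of_notMem h, S.of_notMem fun h2 => h (S.down h2)]
    rfl

lemma rot_mem_iff {n : ℕ} (A : Orth n) {p : E n} : rot A p ∈ S.D n ↔ p ∈ S.D n := by
  refine ⟨fun h => ?_, S.rot_mem A⟩
  have := S.rot_mem A⁻¹ h
  rwa [rot_inv_rot] at this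

lemma spec_str_of {n : ℕ} (e : E n) (s : ℝ) :
    S.spec.str n (S.of e) (s : OnePoint ℝ) = S.of (ext e s) := S.strFun_of e s

lemma spec_smul_of {n : ℕ} (A : Orth n) (e : E n) :
    (A • (show S.spec.lev n from S.of e) : S.spec.lev n) = S.of (rot A e) := by
  by_cases h : e ∈ S.D n
  · rw [S.of_mem h, S.of_mem (S.rot_mem A h)]
    rfl
  · rw [S.of_notMem h, S.of_notMem fun h2 => h ((S.rot_mem_iff A).1 h2)]
    rfl

lemma spec_smul_infty {n : ℕ} (A : Orth n) :
    (A • (show S.spec.lev n from (∞ : OnePoint (S.D n))) : S.spec.lev n) = S.spec.pt n :=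
  S.spec.smul_pt n A

instance (n : ℕ) : CompactSpace (S.spec.lev n) :=
  inferInstanceAs (CompactSpace (OnePoint (S.D n)))

instance (n : ℕ) : T2Space (S.spec.lev n) :=
  inferInstanceAs (T2Space (OnePoint (S.D n)))

/-- The inclusion of a closed subsystem. -/
noncomputable def incl (S S' : DSys) (G : ∀ n, Set (E n)) (hG : ∀ n, IsClosed (G n))
    (hD : ∀ n, S.D n = S'.D n ∩ G n)
    (he : ∀ {n : ℕ} {p : E n} {s : ℝ}, ext p s ∈ G (n + 1) ↔ p ∈ G n) :
    Hom S.spec S'.spec where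
  map n := partialMap (Subtype.val : S.D n → E n) (S'.D n)
  continuous_map n := by
    refine continuous_partialMap (A' := E n) (j := fun q : S.D n => q.1)
      (ρ := fun e : E n => e) (G := G n) ?_ ?_ ?_ ?_ ?_ ?_ ?_
    · exact continuous_subtype_val
    · have : {a : S.D n | a.1 ∈ S'.D n} = univ := by
        ext a
        simp only [mem_ofPred_eq, mem_univ, iff_true]
        exact (hD n ▸ a.2 : a.1 ∈ S'.D n ∩ G n).1
      rw [this]
      exact isOpen_univ
    · exact IsEmbedding.subtypeVal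
    · exact continuous_id
    · exact hG n
    · intro a _
      exact ⟨(hD n ▸ a.2 : a.1 ∈ S'.D n ∩ G n).2, rfl⟩
    · intro e h1 h2
      exact ⟨⟨e, by rw [hD n]; exact ⟨h1, h2⟩⟩, rfl, rfl⟩
  map_pt n := rfl
  map_smul n A x := by
    rcases S.exists_of x with rfl | ⟨e, he1, rfl⟩
    · rfl
    · have h1 : e ∈ S'.D n := (hD n ▸ he1 : e ∈ S'.D n ∩ G n).1
      rw [spec_smul_of]
      rw [S.of_mem (S.rot_mem A he1), S.of_mem he1, partialMap_eq_of, partialMap_eq_of]
      exact (S'.spec_smul_of A e).symm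
  map_str n x s := by
    rcases S.exists_of x with rfl | ⟨e, he1, rfl⟩
    · rfl
    · have h1 : e ∈ S'.D n ∩ G n := hD n ▸ he1
      induction s using OnePoint.rec with
      | infty =>
        rw [S.spec.str_infty, S'.spec.str_infty]; rfl
      | coe s =>
        rw [S.spec_str_of, S.of_mem he1, partialMap_eq_of, S'.spec_str_of]
        by_cases h2 : ext e s ∈ S.D (n + 1)
        · rw [S.of_mem h2, partialMap_eq_of]
        · rw [S.of_notMem h2, S'.of_notMem]
          · rfl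
          · intro h3
            apply h2
            rw [hD (n + 1)]
            exact ⟨h3, he.2 h1.2⟩

lemma incl_of (S S' : DSys) (G : ∀ n, Set (E n)) (hG : ∀ n, IsClosed (G n))
    (hD : ∀ n, S.D n = S'.D n ∩ G n)
    (he : ∀ {n : ℕ} {p : E n} {s : ℝ}, ext p s ∈ G (n + 1) ↔ p ∈ G n) {n : ℕ} {e : E n}
    (h : e ∈ G n) : (incl S S' G hG hD he).map n (S.of e) = S'.of e := by
  by_cases h2 : e ∈ S.D n
  · rw [S.of_mem h2]; rfl
  · rw [S.of_notMem h2, S'.of_notMem]
    · rfl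
    · intro h3; apply h2; rw [hD n]; exact ⟨h3, h⟩

end DSys

/-! ### The inclusions -/

/-- The condition `κ = 0`. -/
def G0 (n : ℕ) : Set (E n) := {e | e.2.2 = 0}

lemma isClosed_G0 (n : ℕ) : IsClosed (G0 n) :=
  isClosed_eq (f := fun p : E n => p.2.2) (g := fun _ => 0) (by fun_prop) continuous_const

/-- The morphism `Y → Y'`. -/
noncomputable def inclY : Hom (sysY {0} isClosed_singleton).spec (sysY K isClosed_K).spec :=
  DSys.incl _ _ G0 isClosed_G0 (by
    intro n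
    ext e
    constructor
    · rintro ⟨⟨h1, h2⟩, h3⟩
      exact ⟨⟨⟨h1, by rw [show e.2.2 = 0 from h2]; exact zero_mem_K⟩, h3⟩, h2⟩
    · rintro ⟨⟨⟨h1, h2⟩, h3⟩, h4⟩
      exact ⟨⟨h1, h4⟩, h3⟩) (Iff.rfl)

/-- The morphism `X ∧ Y → X ∧ Y'`. -/
noncomputable def inclP : Hom (sysP {0} isClosed_singleton).spec (sysP K isClosed_K).spec :=
  DSys.incl _ _ G0 isClosed_G0 (by
    intro n
    ext e
    constructor
    · rintro ⟨⟨h1, h2, h2'⟩, h3⟩
      exact ⟨⟨⟨h1, h2, by rw [show e.2.2 = 0 from h2']; exact zero_mem_K⟩, h3⟩, h2'⟩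
    · rintro ⟨⟨⟨h1, h2, h2'⟩, h3⟩, h4⟩
      exact ⟨⟨h1, h2, h4⟩, h3⟩) (Iff.rfl)

lemma inclY_of {n : ℕ} {e : E n} (h : e.2.2 = 0) :
    inclY.map n ((sysY {0} isClosed_singleton).of e) = (sysY K isClosed_K).of e :=
  DSys.incl_of _ _ _ _ _ Iff.rfl h

lemma inclP_of {n : ℕ} {e : E n} (h : e.2.2 = 0) :
    inclP.map n ((sysP {0} isClosed_singleton).of e) = (sysP K isClosed_K).of e :=
  DSys.incl_of _ _ _ _ _ Iff.rfl h

/-! ### The bimorphism -/

/-- `((v, η), (u, κ)) ↦ ((v, u), (η, 0), κ)`. -/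
def join {p q n : ℕ} (h : p + q = n) (x : E p) (y : E q) : E n :=
  (cat h x.1 y.1, cat h x.2.1 0, y.2.2)

lemma rot_join {p q n : ℕ} (h : p + q = n) (A : Orth p) (B : Orth q) (x : E p) (y : E q) :
    join h (rot A x) (rot B y) = rot (blockSum h A B) (join h x y) := by
  simp only [join, rot, blockSum_mulVec, Matrix.mulVec_zero]

lemma zero_eq_snoc {m : ℕ} : (0 : Fin (m + 1) → ℝ) = Fin.snoc (0 : Fin m → ℝ) (0 : ℝ) := by
  funext i
  refine Fin.lastCases ?_ (fun i => ?_) i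
  · rw [Fin.snoc_last]; rfl
  · rw [Fin.snoc_castSucc]; rfl

lemma join_ext_right {p q n : ℕ} (h : p + q = n) (x : E p) (y : E q) (s : ℝ) :
    join (by omega : p + (q + 1) = n + 1) x (ext y s) = ext (join h x y) s := by
  refine Prod.ext (cat_snoc h _ _ _) (Prod.ext ?_ rfl)
  show cat (by omega : p + (q + 1) = n + 1) x.2.1 (0 : Fin (q + 1) → ℝ) =
    (Fin.snoc (cat h x.2.1 0) 0 : Fin (n + 1) → ℝ)
  rw [zero_eq_snoc]
  exact cat_snoc h _ _ _

lemma join_ext_left {p q n : ℕ} (h : p + q = n) (x : E p) (y : E q) (s : ℝ) :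
    join (by omega : p + 1 + q = n + 1) (ext x s) y = rot (shuffle h) (ext (join h x y) s) := by
  refine Prod.ext (shuffle_mulVec h _ _ _).symm (Prod.ext (shuffle_mulVec h _ _ _).symm rfl)

lemma dot_zero_right {n : ℕ} (v : Fin n → ℝ) : v ⬝ᵥ (0 : Fin n → ℝ) = 0 := by simp

lemma join_mem_FP {Λ : Set ℝ} {p q n : ℕ} (h : p + q = n) {x : E p} {y : E q} :
    join h x y ∈ FP Λ n ↔ (x ∈ FP univ p ∧ y.2.2 ∈ Λ) := by
  simp only [join, FP, mem_ofPred_eq, dot_cat, dot_zero_right, add_zero, mem_univ, and_true]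
  tauto

lemma mem_sysX {n : ℕ} {x : E n} : x ∈ sysX.D n ↔ x ∈ FP {0} n :=
  ⟨fun h => h.1, fun h => ⟨h, mem_univ _⟩⟩

lemma mem_sysX_iff {n : ℕ} {x : E n} : x ∈ sysX.D n ↔ x ∈ FP univ n ∧ x.2.2 = 0 := by
  rw [mem_sysX]
  constructor
  · rintro ⟨h1, h2, h3⟩; exact ⟨⟨h1, h2, mem_univ _⟩, h3⟩
  · rintro ⟨⟨h1, h2, _⟩, h3⟩; exact ⟨h1, h2, h3⟩

lemma mem_sysY {Λ : Set ℝ} {hΛ : IsClosed Λ} {n : ℕ} {y : E n} :
    y ∈ (sysY Λ hΛ).D n ↔ y.2.1 = 0 ∧ y.2.2 ∈ Λ ∧ y.1 ⬝ᵥ y.1 < 1 ∧ (n : ℝ) * y.2.2 < 1 :=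
  ⟨fun h => ⟨h.1.1, h.1.2, h.2.1, h.2.2⟩, fun h => ⟨⟨h.1, h.2.1⟩, h.2.2.1, h.2.2.2⟩⟩

lemma mul_lt_one_of_le {a b κ : ℝ} (ha : 0 ≤ a) (hab : a ≤ b) (h : b * κ < 1) : a * κ < 1 := by
  rcases le_or_gt 0 κ with h6 | h6
  · nlinarith
  · nlinarith

/-- If `join x y` lies in `P_n`, then `y` lies in `Y_q`. -/
lemma join_mem_imp {Λ : Set ℝ} {hΛ : IsClosed Λ} {p q n : ℕ} (h : p + q = n) {x : E p} {y : E q}
    (hy : y.2.1 = 0) (hj : join h x y ∈ (sysP Λ hΛ).D n) : y ∈ (sysY Λ hΛ).D q := by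
  obtain ⟨h1, h2⟩ := hj
  rw [join_mem_FP] at h1
  rw [mem_sysY]
  refine ⟨hy, h1.2, ?_⟩
  have hqn : (q : ℝ) ≤ n := by exact_mod_cast (by omega : q ≤ n)
  rcases h2 with ⟨h2, h3⟩ | ⟨h2, h3, h4⟩
  · simp only [join, dot_cat] at h2 h3
    have := dot_self_nonneg x.1
    exact ⟨by linarith, mul_lt_one_of_le (Nat.cast_nonneg q) hqn h3⟩
  · simp only [join, dot_cat] at h2 h3 h4
    have hx : x.2.1 ≠ 0 := by
      intro h5
      apply h2
      rw [h5, ← dot_self_eq_zero, dot_cat]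
      simp
    obtain ⟨⟨h5, h6, _⟩, _⟩ := h1
    have h7 := dot_cauchy x.1 x.2.1
    have h8 : 0 < x.2.1 ⬝ᵥ x.2.1 := lt_of_le_of_ne (dot_self_nonneg _)
      (fun h9 => hx (dot_self_eq_zero.1 h9.symm))
    rw [← h6] at h7
    have h9 : 1 ≤ x.1 ⬝ᵥ x.1 := by
      by_contra h10
      push Not at h10
      nlinarith
    refine ⟨by linarith, ?_⟩
    have hp : 1 ≤ p := by
      by_contra h10
      obtain rfl : p = 0 := by omega
      exact hx (Subsingleton.elim _ _)
    exact mul_lt_one_of_le (Nat.cast_nonneg q)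
      (by exact_mod_cast (by omega : q ≤ n - 1)) h4

/-- If `join x y` lies in `P_n`, then `x` lies in `X_p`. -/
lemma join_mem_imp' {Λ : Set ℝ} {hΛ : IsClosed Λ} {p q n : ℕ} (h : p + q = n) {x : E p} {y : E q}
    (hx : x.2.2 = 0) (hj : join h x y ∈ (sysP Λ hΛ).D n) : x ∈ sysX.D p := by
  rw [mem_sysX_iff]
  exact ⟨((join_mem_FP h).1 hj.1).1, hx⟩

variable (Λ : Set ℝ) (hΛ : IsClosed Λ)

/-- The map of the bimorphism. -/
noncomputable def bmap {p q n : ℕ} (h : p + q = n) (x : OnePoint (sysX.D p))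
    (y : OnePoint ((sysY Λ hΛ).D q)) : OnePoint ((sysP Λ hΛ).D n) :=
  partialMap (fun a : sysX.D p × (sysY Λ hΛ).D q => join h a.1.1 a.2.1) ((sysP Λ hΛ).D n)
    (collapse (x, y))

lemma bmap_infty_left {p q n : ℕ} (h : p + q = n) (y : OnePoint ((sysY Λ hΛ).D q)) :
    bmap Λ hΛ h ∞ y = ∞ := rfl

lemma bmap_infty_right {p q n : ℕ} (h : p + q = n) (x : OnePoint (sysX.D p)) :
    bmap Λ hΛ h x ∞ = ∞ := by
  simp [bmap]

lemma bmap_of {p q n : ℕ} (h : p + q = n) {x : E p} {y : E q} (hx : x.2.2 = 0) (hy : y.2.1 = 0) :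
    bmap Λ hΛ h (sysX.of x) ((sysY Λ hΛ).of y) = (sysP Λ hΛ).of (join h x y) := by
  by_cases h1 : x ∈ sysX.D p
  · by_cases h2 : y ∈ (sysY Λ hΛ).D q
    · rw [sysX.of_mem h1, DSys.of_mem _ h2, bmap, collapse_coe]
      rfl
    · rw [DSys.of_notMem _ h2, bmap_infty_right, DSys.of_notMem]
      exact fun h3 => h2 (join_mem_imp h hy h3)
  · rw [DSys.of_notMem _ h1, bmap_infty_left, DSys.of_notMem]
    exact fun h3 => h1 (join_mem_imp' h hx h3)

/-- first components -/
def fstv {p q n : ℕ} (h : p + q = n) (v : Fin n → ℝ) : Fin p → ℝ := fun i => v ⟨i, by omega⟩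

/-- last components -/
def sndv {p q n : ℕ} (h : p + q = n) (v : Fin n → ℝ) : Fin q → ℝ := fun i => v ⟨p + i, by omega⟩

lemma fstv_cat {p q n : ℕ} (h : p + q = n) (a : Fin p → ℝ) (b : Fin q → ℝ) :
    fstv h (cat h a b) = a := by
  funext i
  simp only [fstv]
  rw [cat_lt _ _ _ _ (by simp)]

lemma sndv_cat {p q n : ℕ} (h : p + q = n) (a : Fin p → ℝ) (b : Fin q → ℝ) :
    sndv h (cat h a b) = b := by
  funext i
  simp only [sndv]
  rw [cat_ge _ _ _ _ (by simp)]
  congr 1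
  ext
  simp

lemma cat_fstv_sndv {p q n : ℕ} (h : p + q = n) (v : Fin n → ℝ) :
    cat h (fstv h v) (sndv h v) = v := by
  funext i
  by_cases hi : i.val < p
  · rw [cat_lt _ _ _ _ hi]; rfl
  · rw [cat_ge _ _ _ _ (by omega)]
    simp only [sndv]
    congr 1
    ext
    simp
    omega

lemma continuous_bmap {p q n : ℕ} (h : p + q = n) :
    Continuous fun z : OnePoint (sysX.D p) × OnePoint ((sysY Λ hΛ).D q) =>
      bmap Λ hΛ h z.1 z.2 := by
  have hψ : Continuous fun a : sysX.D p × (sysY Λ hΛ).D q => join h a.1.1 a.2.1 := by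
    have h1 : Continuous fun a : sysX.D p × (sysY Λ hΛ).D q => (a.1.1, a.2.1) :=
      (continuous_subtype_val.comp continuous_fst).prodMk
        (continuous_subtype_val.comp continuous_snd)
    have h2 : Continuous fun a : E p × E q => join h a.1 a.2 := by
      refine Continuous.prodMk ?_ (Continuous.prodMk ?_ ?_)
      · refine continuous_pi fun i => ?_
        by_cases hi : i.val < p
        · simp only [cat_lt h _ _ _ hi]; fun_prop
        · simp only [cat_ge h _ _ _ (not_lt.1 hi)]; fun_prop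
      · refine continuous_pi fun i => ?_
        by_cases hi : i.val < p
        · simp only [cat_lt h _ _ _ hi]; fun_prop
        · simp only [cat_ge h _ _ _ (not_lt.1 hi)]; fun_prop
      · fun_prop
    exact h2.comp h1
  have h1 : Continuous (partialMap (fun a : sysX.D p × (sysY Λ hΛ).D q => join h a.1.1 a.2.1)
      ((sysP Λ hΛ).D n)) := by
    refine continuous_partialMap (A' := E p × E q) (j := fun a => (a.1.1, a.2.1))
      (ρ := fun e : E n => ((fstv h e.1, fstv h e.2.1, 0), (sndv h e.1, 0, e.2.2)))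
      (G := {e : E n | sndv h e.2.1 = 0}) hψ ?_ ?_ ?_ ?_ ?_ ?_
    · have : {a : sysX.D p × (sysY Λ hΛ).D q | join h a.1.1 a.2.1 ∈ (sysP Λ hΛ).D n} =
          (fun a : sysX.D p × (sysY Λ hΛ).D q => join h a.1.1 a.2.1) ⁻¹' (VY n ∪ VP' n) := by
        ext a
        constructor
        · intro h3; exact h3.2
        · intro h3
          exact ⟨(join_mem_FP h).2 ⟨(mem_sysX_iff.1 a.1.2).1, (mem_sysY.1 a.2.2).2.1⟩, h3⟩
      rw [this]
      exact ((isOpen_VY n).union (isOpen_VP' n)).preimage hψ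
    · exact IsEmbedding.subtypeVal.prodMap IsEmbedding.subtypeVal
    · refine Continuous.prodMk (Continuous.prodMk ?_ (Continuous.prodMk ?_ ?_))
        (Continuous.prodMk ?_ (Continuous.prodMk ?_ ?_))
      · exact continuous_pi fun i => by simp only [fstv]; fun_prop
      · exact continuous_pi fun i => by simp only [fstv]; fun_prop
      · fun_prop
      · exact continuous_pi fun i => by simp only [sndv]; fun_prop
      · fun_prop
      · fun_prop
    · refine isClosed_eq ?_ continuous_const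
      exact continuous_pi fun i => by simp only [sndv]; fun_prop
    · intro a _
      refine ⟨?_, ?_⟩
      · show sndv h (cat h a.1.1.2.1 0) = 0
        rw [sndv_cat]
      · refine Prod.ext (Prod.ext ?_ (Prod.ext ?_ ?_)) (Prod.ext ?_ (Prod.ext ?_ ?_))
        · exact fstv_cat h a.1.1.1 a.2.1.1
        · exact fstv_cat h a.1.1.2.1 0
        · exact (mem_sysX_iff.1 a.1.2).2.symm
        · exact sndv_cat h a.1.1.1 a.2.1.1
        · exact (mem_sysY.1 a.2.2).1.symm
        · rfl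
    · intro e he hG
      have hj : join h (fstv h e.1, fstv h e.2.1, 0) (sndv h e.1, 0, e.2.2) = e := by
        refine Prod.ext (cat_fstv_sndv h _) (Prod.ext ?_ rfl)
        show cat h (fstv h e.2.1) 0 = e.2.1
        have hG' : sndv h e.2.1 = 0 := hG
        rw [← hG']
        exact cat_fstv_sndv h _
      refine ⟨(⟨(fstv h e.1, fstv h e.2.1, 0), ?_⟩, ⟨(sndv h e.1, 0, e.2.2), ?_⟩), rfl, hj⟩
      · exact join_mem_imp' (Λ := Λ) (hΛ := hΛ) h (y := (sndv h e.1, 0, e.2.2)) rfl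
          (by rw [hj]; exact he)
      · exact join_mem_imp h (x := (fstv h e.1, fstv h e.2.1, 0)) rfl (by rw [hj]; exact he)
  exact h1.comp continuous_collapse

/-- The bimorphism `(X, Y_Λ) → P_Λ`. -/
noncomputable def bim : Bimorphism sysX.spec (sysY Λ hΛ).spec (sysP Λ hΛ).spec where
  map h x y := bmap Λ hΛ h x y
  continuous_map h T _ _ _ u v := by
    have h1 : Continuous fun t : T => (u t, v t) := u.continuous.prodMk v.continuous
    exact (continuous_bmap Λ hΛ h).comp h1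
  map_pt_left h y := rfl
  map_pt_right h x := bmap_infty_right Λ hΛ h x
  map_smul {p q n} h A B x y := by
    rcases sysX.exists_of x with rfl | ⟨x, hx, rfl⟩
    · rfl
    rcases (sysY Λ hΛ).exists_of y with rfl | ⟨y, hy, rfl⟩
    · have h1 : bmap Λ hΛ h (sysX.of x) ∞ = ∞ := bmap_infty_right Λ hΛ h _
      have h2 : ∀ x', bmap Λ hΛ h x' ∞ = ∞ := bmap_infty_right Λ hΛ h
      rw [h1]
      exact h2 _
    · have h1 := (mem_sysX_iff.1 hx).2
      have h2 := (mem_sysY.1 hy).1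
      have h3 : (rot B y).2.1 = 0 := by simp only [rot, h2, Matrix.mulVec_zero]
      have h4 := bmap_of Λ hΛ h h1 h2
      rw [h4]
      rw [DSys.spec_smul_of, DSys.spec_smul_of]
      refine Eq.trans ?_ (DSys.spec_smul_of _ _ _).symm
      refine (bmap_of Λ hΛ h (x := rot A x) (y := rot B y) h1 h3).trans ?_
      rw [rot_join]
  map_str_right {p q n} h x y s := by
    rcases sysX.exists_of x with rfl | ⟨x, hx, rfl⟩
    · rfl
    rcases (sysY Λ hΛ).exists_of y with rfl | ⟨y, hy, rfl⟩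
    · have h1 : bmap Λ hΛ h (sysX.of x) ∞ = ∞ := bmap_infty_right Λ hΛ h _
      rw [h1]
      exact bmap_infty_right Λ hΛ _ _
    induction s using OnePoint.rec with
    | infty =>
      rw [OrthSpectrum.str_infty, OrthSpectrum.str_infty]
      exact bmap_infty_right Λ hΛ _ _
    | coe s =>
      have h1 := (mem_sysX_iff.1 hx).2
      have h2 := (mem_sysY.1 hy).1
      have h3 : (ext y s).2.1 = 0 := by simp only [ext, h2]; exact zero_eq_snoc.symm
      have h4 := bmap_of Λ hΛ h h1 h2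
      rw [h4, DSys.spec_str_of, DSys.spec_str_of]
      refine (bmap_of Λ hΛ _ (x := x) (y := ext y s) h1 h3).trans ?_
      rw [join_ext_right]
  map_str_left {p q n} h x y s := by
    rcases sysX.exists_of x with rfl | ⟨x, hx, rfl⟩
    · rfl
    rcases (sysY Λ hΛ).exists_of y with rfl | ⟨y, hy, rfl⟩
    · have h1 : bmap Λ hΛ h (sysX.of x) ∞ = ∞ := bmap_infty_right Λ hΛ h _
      rw [h1]
      exact bmap_infty_right Λ hΛ _ _
    induction s using OnePoint.rec with
    | infty =>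
      rw [OrthSpectrum.str_infty, OrthSpectrum.str_infty]
      exact Eq.trans rfl ((sysP Λ hΛ).spec.smul_pt (n + 1) (shuffle h)).symm
    | coe s =>
      have h1 := (mem_sysX_iff.1 hx).2
      have h2 := (mem_sysY.1 hy).1
      have h4 := bmap_of Λ hΛ h h1 h2
      rw [h4, DSys.spec_str_of, DSys.spec_str_of]
      refine Eq.trans ?_ (DSys.spec_smul_of _ _ _).symm
      refine (bmap_of Λ hΛ _ (x := ext x s) (y := y) h1 h2).trans ?_
      rw [join_ext_left]

lemma bim_map_of {p q n : ℕ} (h : p + q = n) {x : E p} {y : E q} (hx : x.2.2 = 0)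
    (hy : y.2.1 = 0) :
    (bim Λ hΛ).map h (sysX.of x) ((sysY Λ hΛ).of y) = (sysP Λ hΛ).of (join h x y) :=
  bmap_of Λ hΛ h hx hy

/-- `X ∧ (Y → Y')` is `inclP`. -/
lemma isSmashMap_incl :
    IsSmashMap (bim {0} isClosed_singleton) (bim K isClosed_K) inclY inclP := by
  intro p q n h x y
  rcases sysX.exists_of x with rfl | ⟨x, hx, rfl⟩
  · rfl
  rcases (sysY {0} isClosed_singleton).exists_of y with rfl | ⟨y, hy, rfl⟩
  · have h1 : (bim {0} isClosed_singleton).map h (sysX.of x)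
        ((sysY {0} isClosed_singleton).spec.pt q) = _ := Bimorphism.map_pt_right _ _ _
    refine (congrArg (inclP.map n) h1).trans ?_
    rw [inclP.map_pt]
    have h2 : inclY.map q ((sysY {0} isClosed_singleton).spec.pt q) = _ := inclY.map_pt q
    refine Eq.trans ?_ (congrArg ((bim K isClosed_K).map h (sysX.of x)) h2.symm)
    exact (Bimorphism.map_pt_right _ _ _).symm
  · have h1 := (mem_sysX_iff.1 hx).2
    have h2 := (mem_sysY.1 hy).1
    have h3 : y.2.2 = 0 := (mem_sysY.1 hy).2.1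
    rw [bim_map_of _ _ h h1 h2, inclY_of h3, bim_map_of _ _ h h1 h2]
    exact inclP_of h3

end Pool.Agent.Work.MP_783066_gt
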