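import Mathlib
import Pool.Agent.Work.MP_783066_gt.Bim

/-!
# Lemmas on orthogonal matrices
-/

open OnePoint Topology Set Filter Matrix

namespace Pool.Agent.Work.MP_783066_gt

lemma orth_ext {n : ℕ} {A B : Orth n} (h : ∀ v : Fin n → ℝ, A.1 *ᵥ v = B.1 *ᵥ v) : A = B := by
  apply Subtype.ext
  apply Matrix.ext_of_mulVec_single
  intro i
  exact h _

lemma cat_assoc {p q r m k n : ℕ} (h1 : p + q = m) (h2 : m + r = n) (h3 : q + r = k)
    (h4 : p + k = n) (a : Fin p → ℝ) (b : Fin q → ℝ) (c : Fin r → ℝ) :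
    cat h2 (cat h1 a b) c = cat h4 a (cat h3 b c) := by
  funext i
  by_cases hi : i.val < p
  · rw [cat_lt h4 _ _ _ hi, cat_lt h2 _ _ _ (by omega), cat_lt h1 _ _ _ (by simpa using hi)]
  · by_cases hi2 : i.val < m
    · rw [cat_lt h2 _ _ _ hi2, cat_ge h1 _ _ _ (by simp; omega), cat_ge h4 _ _ _ (by omega),
        cat_lt h3 _ _ _ (by simp; omega)]
    · rw [cat_ge h2 _ _ _ (by omega), cat_ge h4 _ _ _ (by omega),
        cat_ge h3 _ _ _ (by simp; omega)]
      congr 1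
      ext
      simp
      omega

lemma blockSum_shuffle {r p q P m n : ℕ} (hP : r + p = P) (hm : p + q = m) (h : P + q = n)
    (h' : r + m = n) :
    shuffle h = blockSum (by omega : r + (m + 1) = n + 1) 1 (shuffle hm) := by
  apply orth_ext
  intro z
  obtain ⟨⟨z', s⟩, rfl⟩ := (snocHomeo n).surjective z
  obtain ⟨z1, u, rfl⟩ : ∃ z1 u, z' = cat h z1 u := ⟨_, _, (cat_fstv_sndv h z').symm⟩
  obtain ⟨a, v, rfl⟩ : ∃ a v, z1 = cat hP a v := ⟨_, _, (cat_fstv_sndv hP z1).symm⟩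
  show (shuffle h).1 *ᵥ (Fin.snoc (cat h (cat hP a v) u) s : Fin (n + 1) → ℝ) =
    (blockSum (by omega : r + (m + 1) = n + 1) 1 (shuffle hm)).1 *ᵥ
      (Fin.snoc (cat h (cat hP a v) u) s : Fin (n + 1) → ℝ)
  rw [shuffle_mulVec, cat_assoc hP h hm h', ← cat_snoc h', blockSum_mulVec, shuffle_mulVec,
    ← cat_snoc hP, cat_assoc (by omega) (by omega) (by omega : p + 1 + q = m + 1) (by omega)]
  simp

lemma blockSum_zero {n : ℕ} (h : 0 + n = n) (A : Orth n) (B : Orth 0) : blockSum h B A = A := by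
  apply orth_ext
  intro v
  have h1 : v = cat h (fun i => i.elim0) v := by
    funext i
    rw [cat_ge _ _ _ _ (by omega)]
    rfl
  conv_lhs => rw [h1]
  rw [blockSum_mulVec]
  funext i
  rw [cat_ge _ _ _ _ (by omega)]
  rfl

lemma exists_orth {n : ℕ} (v w : Fin n → ℝ) (h : v ⬝ᵥ v = w ⬝ᵥ w) : ∃ A : Orth n, A.1 *ᵥ v = w := by
  by_cases hvw : v = w
  · exact ⟨1, by simp [hvw]⟩
  · set u := v - w with hu
    have hu0 : u ⬝ᵥ u ≠ 0 := by
      rw [Ne, dot_self_eq_zero]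
      exact sub_ne_zero.2 hvw
    have huv : u ⬝ᵥ u = 2 * (u ⬝ᵥ v) := by
      simp only [hu, sub_dotProduct, dotProduct_sub]
      rw [dotProduct_comm v w, h]
      ring
    set M : Matrix (Fin n) (Fin n) ℝ := 1 - (2 / (u ⬝ᵥ u)) • vecMulVec u u with hM
    have hMt : Mᵀ = M := by
      rw [hM, Matrix.transpose_sub, Matrix.transpose_smul, Matrix.transpose_vecMulVec]
      simp
    have hMM : M * Mᵀ = 1 := by
      rw [hMt, hM]
      have hvv : vecMulVec u u * vecMulVec u u = (u ⬝ᵥ u) • vecMulVec u u := by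
        rw [vecMulVec_mul_vecMulVec]
        ext i j
        simp [vecMulVec_apply]
        try ring
      rw [sub_mul, mul_sub, mul_sub, Matrix.smul_mul, Matrix.smul_mul, Matrix.mul_smul,
        Matrix.mul_smul, hvv]
      simp only [mul_one, one_mul, smul_smul]
      have : 2 / (u ⬝ᵥ u) * (2 / (u ⬝ᵥ u) * (u ⬝ᵥ u)) = 2 * (2 / (u ⬝ᵥ u)) := by
        field_simp
      rw [this, two_mul, add_smul]
      abel
    refine ⟨⟨M, (Matrix.mem_orthogonalGroup_iff (Fin n) ℝ).2 hMM⟩, ?_⟩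
    show M *ᵥ v = w
    rw [hM, Matrix.sub_mulVec, Matrix.one_mulVec, Matrix.smul_mulVec, Matrix.vecMulVec_mulVec]
    have h3 : (2 / (u ⬝ᵥ u)) • (MulOpposite.op (u ⬝ᵥ v)) • u = u := by
      funext i
      simp only [Pi.smul_apply, smul_eq_mul, MulOpposite.smul_eq_mul_unop, MulOpposite.unop_op]
      rw [huv] at hu0 ⊢
      have : u ⬝ᵥ v ≠ 0 := fun h0 => hu0 (by rw [h0]; ring)
      field_simp
    rw [h3, hu]
    simp

lemma stab_blockSum {m n : ℕ} (h : 1 + m = n) (A : Orth n)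
    (hA : A.1 *ᵥ cat h 1 0 = cat h 1 0) : ∃ B : Orth m, A = blockSum h 1 B := by
  set e : Fin 1 ⊕ Fin m ≃ Fin n := finSumFinEquiv.trans (finCongr h) with he
  set M : Matrix (Fin 1 ⊕ Fin m) (Fin 1 ⊕ Fin m) ℝ := A.1.submatrix e e with hM
  have hAM : A.1 = M.submatrix e.symm e.symm := by
    rw [hM, Matrix.submatrix_submatrix]
    simp
  have hA1 := (Matrix.mem_orthogonalGroup_iff (Fin n) ℝ).1 A.2
  have hA2 := (Matrix.mem_orthogonalGroup_iff' (Fin n) ℝ).1 A.2
  have hM1 : M * Mᵀ = 1 := by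
    rw [hM, Matrix.transpose_submatrix, Matrix.submatrix_mul_equiv, hA1]
    exact Matrix.submatrix_one_equiv _
  have hM2 : Mᵀ * M = 1 := by
    rw [hM, Matrix.transpose_submatrix, Matrix.submatrix_mul_equiv, hA2]
    exact Matrix.submatrix_one_equiv _
  have hM3 : M *ᵥ (Sum.elim (1 : Fin 1 → ℝ) (0 : Fin m → ℝ)) =
      Sum.elim (1 : Fin 1 → ℝ) (0 : Fin m → ℝ) := by
    rw [cat_eq', hAM, Matrix.submatrix_mulVec_equiv] at hA
    have h1 : ((Sum.elim (1 : Fin 1 → ℝ) (0 : Fin m → ℝ)) ∘ e.symm) ∘ e.symm.symm =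
      Sum.elim (1 : Fin 1 → ℝ) (0 : Fin m → ℝ) := by
      funext i; simp
    rw [← he, h1] at hA
    funext i
    have := congrFun hA (e i)
    simpa using this
  obtain ⟨a, b, c, d, hbl⟩ : ∃ a b c d, M = Matrix.fromBlocks a b c d :=
    ⟨_, _, _, _, (Matrix.fromBlocks_toBlocks M).symm⟩
  rw [hbl, Matrix.fromBlocks_mulVec] at hM3
  have ha : a = 1 := by
    ext i j
    have := congrFun hM3 (Sum.inl i)
    fin_cases i
    fin_cases j
    simpa [Matrix.mulVec, dotProduct] using this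
  have hc : c = 0 := by
    ext i j
    have := congrFun hM3 (Sum.inr i)
    fin_cases j
    simpa [Matrix.mulVec, dotProduct] using this
  subst ha hc
  rw [hbl, Matrix.fromBlocks_transpose, Matrix.fromBlocks_multiply, ← Matrix.fromBlocks_one,
    Matrix.fromBlocks_inj] at hM1 hM2
  have hb : b = 0 := by simpa using hM2.2.1
  subst hb
  have hd : d * dᵀ = 1 := by simpa using hM1.2.2.2
  refine ⟨⟨d, (Matrix.mem_orthogonalGroup_iff (Fin m) ℝ).2 hd⟩, Subtype.ext ?_⟩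
  rw [hAM, hbl]
  rfl

end Pool.Agent.Work.MP_783066_gt
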