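import Mathlib
import Pool.Agent.Work.MP_783066_gt.Orth

/-!
# The universal property of `(X, Y_Λ) → P_Λ`
-/

open OnePoint Topology Set Filter Matrix

namespace Pool.Agent.Work.MP_783066_gt

lemma OrthSpectrum.str_smul (W : OrthSpectrum) {n : ℕ} (A : Orth n) (x : W.lev n)
    (s : OnePoint ℝ) :
    W.str n (A • x) s = blockSum (rfl : n + 1 = n + 1) A 1 • W.str n x s := by
  induction s using OnePoint.rec with
  | infty => rw [W.str_infty, W.str_infty, W.smul_pt]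
  | coe s =>
    have h := W.equivariant n 1 A 1 x (fun _ => s)
    have h1 : ((1 : Orth 1).1 *ᵥ (fun _ : Fin 1 => s)) = (fun _ : Fin 1 => s) := by simp
    rw [h1] at h
    exact h

variable {Λ : Set ℝ} {hΛ : IsClosed Λ} {W : OrthSpectrum}

/-- The point `(v, ξ, 0)` of `X_p`. -/
noncomputable def xpt {p : ℕ} (v ξ : Fin p → ℝ) : sysX.spec.lev p := sysX.of (v, ξ, 0)

/-- The point `(u, 0, κ)` of `Y_q`. -/
noncomputable def ypt (Λ : Set ℝ) (hΛ : IsClosed Λ) {q : ℕ} (u : Fin q → ℝ) (κ : ℝ) :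
    (sysY Λ hΛ).spec.lev q := (sysY Λ hΛ).of (u, 0, κ)

/-- The point `e` of `P_n`. -/
noncomputable def ppt (Λ : Set ℝ) (hΛ : IsClosed Λ) {n : ℕ} (e : E n) :
    (sysP Λ hΛ).spec.lev n := (sysP Λ hΛ).of e

lemma str_xpt {p : ℕ} (v ξ : Fin p → ℝ) (s : ℝ) :
    sysX.spec.str p (xpt v ξ) (s : OnePoint ℝ) = xpt (Fin.snoc v s) (Fin.snoc ξ 0) :=
  sysX.spec_str_of _ _

lemma str_ypt {q : ℕ} (u : Fin q → ℝ) (κ : ℝ) (s : ℝ) :
    (sysY Λ hΛ).spec.str q (ypt Λ hΛ u κ) (s : OnePoint ℝ) = ypt Λ hΛ (Fin.snoc u s) κ := by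
  refine ((sysY Λ hΛ).spec_str_of _ _).trans ?_
  rw [ypt, ext]
  congr 1
  exact Prod.ext rfl (Prod.ext zero_eq_snoc.symm rfl)

lemma smul_xpt {p : ℕ} (A : Orth p) (v ξ : Fin p → ℝ) :
    A • xpt v ξ = xpt (A.1 *ᵥ v) (A.1 *ᵥ ξ) := sysX.spec_smul_of A _

lemma smul_ypt {q : ℕ} (A : Orth q) (u : Fin q → ℝ) (κ : ℝ) :
    A • ypt Λ hΛ u κ = ypt Λ hΛ (A.1 *ᵥ u) κ := by
  refine ((sysY Λ hΛ).spec_smul_of A _).trans ?_
  rw [ypt, rot]
  congr 1
  simp only [Matrix.mulVec_zero]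

lemma smul_ppt {n : ℕ} (A : Orth n) (e : E n) :
    A • ppt Λ hΛ e = ppt Λ hΛ (rot A e) := (sysP Λ hΛ).spec_smul_of A _

lemma bim_xpt_ypt {p q n : ℕ} (h : p + q = n) (v ξ : Fin p → ℝ) (u : Fin q → ℝ) (κ : ℝ) :
    (bim Λ hΛ).map h (xpt v ξ) (ypt Λ hΛ u κ) = ppt Λ hΛ (cat h v u, cat h ξ 0, κ) :=
  bim_map_of Λ hΛ h rfl rfl

lemma cat_zero_left {n : ℕ} (h : 0 + n = n) (a : Fin 0 → ℝ) (v : Fin n → ℝ) : cat h a v = v := by
  funext i
  rw [cat_ge _ _ _ _ (by omega)]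
  rfl

lemma cat_zero_zero {p q n : ℕ} (h : p + q = n) : cat h (0 : Fin p → ℝ) (0 : Fin q → ℝ) = 0 := by
  funext i
  by_cases hi : i.val < p
  · rw [cat_lt _ _ _ _ hi]; rfl
  · rw [cat_ge _ _ _ _ (by omega)]; rfl

lemma canon0 (c : Bimorphism sysX.spec (sysY Λ hΛ).spec W) {p q n : ℕ} (h : p + q = n)
    (v : Fin p → ℝ) (u : Fin q → ℝ) (κ : ℝ) :
    c.map h (xpt v 0) (ypt Λ hΛ u κ) =
      c.map (Nat.zero_add n) (xpt 0 0) (ypt Λ hΛ (cat h v u) κ) := by
  induction p generalizing n with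
  | zero =>
    obtain rfl : q = n := by omega
    rw [cat_zero_left, Subsingleton.elim v 0]
  | succ p ih =>
    obtain ⟨n, rfl⟩ : ∃ n', n = n' + 1 := ⟨n - 1, by omega⟩
    have h' : p + q = n := by omega
    obtain ⟨⟨v, s⟩, rfl⟩ := (snocHomeo p).surjective v
    have e1 : xpt (snocHomeo p (v, s)) 0 = sysX.spec.str p (xpt v 0) (s : OnePoint ℝ) := by
      rw [str_xpt, ← zero_eq_snoc]; rfl
    rw [e1, c.map_str_left h', ih h', ← c.map_str_right (Nat.zero_add n), str_ypt]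
    have e2 := c.map_smul (Nat.zero_add (n + 1)) 1 (shuffle h') (xpt 0 0)
      (ypt Λ hΛ (Fin.snoc (cat h' v u) s) κ)
    rw [blockSum_zero, one_smul, smul_ypt, shuffle_mulVec] at e2
    exact e2.symm

lemma canon1 (c : Bimorphism sysX.spec (sysY Λ hΛ).spec W) {p q m P n : ℕ} (hP : 1 + p = P)
    (hm : p + q = m) (h : P + q = n) (h' : 1 + m = n) (t : ℝ)
    (v : Fin p → ℝ) (u : Fin q → ℝ) (κ : ℝ) :
    c.map h (xpt (cat hP 1 v) (cat hP (fun _ => t) 0)) (ypt Λ hΛ u κ) =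
      c.map h' (xpt 1 (fun _ => t)) (ypt Λ hΛ (cat hm v u) κ) := by
  induction p generalizing m P n with
  | zero =>
    obtain rfl : q = m := by omega
    subst hP
    rw [cat_zero_left, cat_zero_right, cat_zero_right]
  | succ p ih =>
    obtain ⟨n, rfl⟩ : ∃ n', n = n' + 1 := ⟨n - 1, by omega⟩
    obtain ⟨P, rfl⟩ : ∃ n', P = n' + 1 := ⟨P - 1, by omega⟩
    obtain ⟨m, rfl⟩ : ∃ n', m = n' + 1 := ⟨m - 1, by omega⟩
    have hP1 : 1 + p = P := by omega
    have hm1 : p + q = m := by omega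
    have h1 : P + q = n := by omega
    have h1' : 1 + m = n := by omega
    obtain ⟨⟨v, s⟩, rfl⟩ := (snocHomeo p).surjective v
    have e1 : xpt (cat hP 1 (snocHomeo p (v, s))) (cat hP (fun _ => t) 0) =
        sysX.spec.str P (xpt (cat hP1 1 v) (cat hP1 (fun _ => t) 0)) (s : OnePoint ℝ) := by
      rw [str_xpt, ← cat_snoc hP1, ← cat_snoc hP1, ← zero_eq_snoc]; rfl
    rw [e1, c.map_str_left h1, ih hP1 hm1 h1 h1', ← c.map_str_right h1', str_ypt]
    have e2 := c.map_smul h' 1 (shuffle hm1) (xpt 1 (fun _ => t))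
      (ypt Λ hΛ (Fin.snoc (cat hm1 v u) s) κ)
    rw [one_smul, smul_ypt, shuffle_mulVec, ← blockSum_shuffle hP1 hm1 h1 h1'] at e2
    exact e2.symm

/-- The value `w` of `φ` at `z`, if `φ` corresponds to `c`, in canonical form. -/
inductive Canon (c : Bimorphism sysX.spec (sysY Λ hΛ).spec W) {n : ℕ} :
    (sysP Λ hΛ).spec.lev n → W.lev n → Prop
  | infty : Canon c ((sysP Λ hΛ).spec.pt n) (W.pt n)
  | zero (w : Fin n → ℝ) (κ : ℝ) (hmem : ((w, 0, κ) : E n) ∈ (sysP Λ hΛ).D n) :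
    Canon c (ppt Λ hΛ (w, 0, κ)) (c.map (Nat.zero_add n) (xpt 0 0) (ypt Λ hΛ w κ))
  | one {m : ℕ} (h : 1 + m = n) (G : Orth n) (t : ℝ) (ht : 0 < t) (u : Fin m → ℝ) (κ : ℝ)
    (hmem : rot G (cat h 1 u, cat h (fun _ => t) 0, κ) ∈ (sysP Λ hΛ).D n) :
    Canon c (ppt Λ hΛ (rot G (cat h 1 u, cat h (fun _ => t) 0, κ)))
      (G • c.map h (xpt 1 (fun _ => t)) (ypt Λ hΛ u κ))

lemma Canon.smul {c : Bimorphism sysX.spec (sysY Λ hΛ).spec W} {n : ℕ}
    {z : (sysP Λ hΛ).spec.lev n} {w : W.lev n} (h : Canon c z w) (A : Orth n) :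
    Canon c (A • z) (A • w) := by
  rcases h with _ | ⟨w, κ, hmem⟩ | ⟨h, G, t, ht, u, κ, hmem⟩
  · rw [OrthSpectrum.smul_pt, OrthSpectrum.smul_pt]
    exact Canon.infty
  · rw [smul_ppt]
    have e1 : rot A ((w, 0, κ) : E n) = (A.1 *ᵥ w, 0, κ) := by simp [rot]
    have e2 := c.map_smul (Nat.zero_add n) 1 A (xpt 0 0) (ypt Λ hΛ w κ)
    rw [blockSum_zero, one_smul, smul_ypt] at e2
    rw [e1, ← e2]
    exact Canon.zero _ _ (by rw [← e1]; exact DSys.rot_mem _ _ hmem)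
  · rw [smul_ppt, ← rot_mul, ← mul_smul]
    exact Canon.one h _ t ht u κ (by rw [rot_mul]; exact DSys.rot_mem _ _ hmem)

lemma ppt_ne_pt {n : ℕ} {e : E n} (h : e ∈ (sysP Λ hΛ).D n) :
    ppt Λ hΛ e ≠ (sysP Λ hΛ).spec.pt n := by
  intro h2
  exact ((sysP Λ hΛ).of_eq_infty_iff.1 h2) h

lemma ppt_inj {n : ℕ} {e e' : E n} (h : e ∈ (sysP Λ hΛ).D n) (h2 : ppt Λ hΛ e = ppt Λ hΛ e') :
    e = e' := (sysP Λ hΛ).of_inj h h2

lemma cat_inj {p q n : ℕ} (h : p + q = n) {a a' : Fin p → ℝ} {b b' : Fin q → ℝ}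
    (hh : cat h a b = cat h a' b') : a = a' ∧ b = b' := by
  have h1 := congrArg (fstv h) hh
  have h2 := congrArg (sndv h) hh
  rw [fstv_cat, fstv_cat] at h1
  rw [sndv_cat, sndv_cat] at h2
  exact ⟨h1, h2⟩

lemma cat_const_zero {m n : ℕ} (h : 1 + m = n) (t : ℝ) :
    cat h (fun _ => t) (0 : Fin m → ℝ) = t • cat h 1 0 := by
  funext i
  by_cases hi : i.val < 1
  · rw [Pi.smul_apply, cat_lt _ _ _ _ hi, cat_lt _ _ _ _ hi]; simp
  · rw [Pi.smul_apply, cat_ge _ _ _ _ (by omega), cat_ge _ _ _ _ (by omega)]; simp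

lemma dot_e1 {m n : ℕ} (h : 1 + m = n) :
    cat h 1 (0 : Fin m → ℝ) ⬝ᵥ cat h 1 (0 : Fin m → ℝ) = 1 := by
  rw [dot_cat]; simp

lemma Canon.unique {c : Bimorphism sysX.spec (sysY Λ hΛ).spec W} {n : ℕ}
    {z z' : (sysP Λ hΛ).spec.lev n} {w w' : W.lev n} (h : Canon c z w) (h' : Canon c z' w')
    (hz : z = z') : w = w' := by
  rcases h with _ | ⟨w, κ, hmem⟩ | ⟨h, G, t, ht, u, κ, hmem⟩
  · rcases h' with _ | ⟨w', κ', hmem'⟩ | ⟨h', G', t', ht', u', κ', hmem'⟩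
    · rfl
    · exact absurd hz.symm (ppt_ne_pt hmem')
    · exact absurd hz.symm (ppt_ne_pt hmem')
  · rcases h' with _ | ⟨w', κ', hmem'⟩ | ⟨h', G', t', ht', u', κ', hmem'⟩
    · exact absurd hz (ppt_ne_pt hmem)
    · have := ppt_inj hmem hz
      simp only [Prod.mk.injEq, true_and] at this
      obtain ⟨rfl, rfl⟩ := this
      rfl
    · exfalso
      have := ppt_inj hmem hz
      simp only [rot, Prod.mk.injEq] at this
      have h2 := (mulVec_eq_zero_iff G' _).1 this.2.1.symm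
      rw [cat_const_zero] at h2
      have h3 := congrArg (fun v => v ⬝ᵥ cat h' 1 (0 : Fin _ → ℝ)) h2
      simp only [smul_dotProduct, dot_e1, zero_dotProduct, smul_eq_mul, mul_one] at h3
      exact ht'.ne' h3
  · rcases h' with _ | ⟨w', κ', hmem'⟩ | ⟨h', G', t', ht', u', κ', hmem'⟩
    · exact absurd hz (ppt_ne_pt hmem)
    · exfalso
      have := ppt_inj hmem hz
      simp only [rot, Prod.mk.injEq] at this
      have h2 := (mulVec_eq_zero_iff G _).1 this.2.1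
      rw [cat_const_zero] at h2
      have h3 := congrArg (fun v => v ⬝ᵥ cat h 1 (0 : Fin _ → ℝ)) h2
      simp only [smul_dotProduct, dot_e1, zero_dotProduct, smul_eq_mul, mul_one] at h3
      exact ht.ne' h3
    · have := ppt_inj hmem hz
      simp only [rot, Prod.mk.injEq] at this
      obtain ⟨e1, e2, rfl⟩ := this
      rename_i m m'
      obtain rfl : m = m' := by omega
      have ht2 : t = t' := by
        have e3 := congrArg (fun v => v ⬝ᵥ v) e2
        simp only [dot_rot, cat_const_zero, smul_dotProduct, dotProduct_smul, dot_e1, smul_eq_mul,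
          mul_one] at e3
        nlinarith
      subst ht2
      -- the stabilizer
      have e4 : (G'⁻¹ * G).1 *ᵥ cat h 1 0 = cat h 1 0 := by
        have e5 : G.1 *ᵥ cat h 1 0 = G'.1 *ᵥ cat h 1 0 := by
          rw [cat_const_zero, Matrix.mulVec_smul, Matrix.mulVec_smul] at e2
          exact smul_right_injective _ ht.ne' e2
        show (G'⁻¹.1 * G.1) *ᵥ _ = _
        rw [← Matrix.mulVec_mulVec, e5, Matrix.mulVec_mulVec]
        have : G'⁻¹.1 * G'.1 = 1 := congrArg Subtype.val (inv_mul_cancel G')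
        rw [this, Matrix.one_mulVec]
      obtain ⟨B, hB⟩ := stab_blockSum h _ e4
      have hG : G = G' * blockSum h 1 B := by rw [← hB]; group
      have e6 : u' = B.1 *ᵥ u := by
        have e7 : (blockSum h 1 B).1 *ᵥ cat h 1 u = cat h 1 u' := by
          rw [← hB]
          show (G'⁻¹.1 * G.1) *ᵥ _ = _
          rw [← Matrix.mulVec_mulVec, e1, Matrix.mulVec_mulVec]
          have : G'⁻¹.1 * G'.1 = 1 := congrArg Subtype.val (inv_mul_cancel G')
          rw [this, Matrix.one_mulVec]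
        rw [blockSum_mulVec] at e7
        exact (cat_inj h e7).2.symm
      have e8 := c.map_smul h 1 B (xpt 1 (fun _ => t)) (ypt Λ hΛ u κ)
      rw [one_smul, smul_ypt, ← e6] at e8
      rw [e8, hG, mul_smul]

lemma canon_bim (c : Bimorphism sysX.spec (sysY Λ hΛ).spec W) {p q n : ℕ} (h : p + q = n)
    (x : sysX.spec.lev p) (y : (sysY Λ hΛ).spec.lev q) :
    Canon c ((bim Λ hΛ).map h x y) (c.map h x y) := by
  rcases sysX.exists_of x with rfl | ⟨x, hx, rfl⟩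
  · have e1 := (bim Λ hΛ).map_pt_left h y
    have e2 := c.map_pt_left h y
    have : Canon c ((bim Λ hΛ).map h (sysX.spec.pt p) y) (c.map h (sysX.spec.pt p) y) := by
      rw [e1, e2]; exact Canon.infty
    exact this
  rcases (sysY Λ hΛ).exists_of y with rfl | ⟨y, hy, rfl⟩
  · have : ∀ x : sysX.spec.lev p, Canon c ((bim Λ hΛ).map h x ((sysY Λ hΛ).spec.pt q))
        (c.map h x ((sysY Λ hΛ).spec.pt q)) := by
      intro x
      rw [(bim Λ hΛ).map_pt_right, c.map_pt_right]; exact Canon.infty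
    exact this _
  obtain ⟨v, ξ, a⟩ := x
  obtain ⟨u, ξ', κ⟩ := y
  obtain rfl : a = 0 := (mem_sysX_iff.1 hx).2
  obtain rfl : ξ' = 0 := (mem_sysY.1 hy).1
  show Canon c ((bim Λ hΛ).map h (xpt v ξ) (ypt Λ hΛ u κ)) (c.map h (xpt v ξ) (ypt Λ hΛ u κ))
  by_cases hξ : ξ = 0
  · subst hξ
    rw [canon0 c, canon0 (bim Λ hΛ), bim_xpt_ypt, cat_zero_zero, cat_zero_left]
    by_cases hm : ((cat h v u, 0, κ) : E n) ∈ (sysP Λ hΛ).D n
    · exact Canon.zero _ _ hm
    · have e1 : ppt Λ hΛ ((cat h v u, 0, κ) : E n) = (sysP Λ hΛ).spec.pt n :=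
        DSys.of_notMem _ hm
      have e2 : ypt Λ hΛ (cat h v u) κ = (sysY Λ hΛ).spec.pt n := by
        refine DSys.of_notMem _ fun h3 => hm ?_
        rw [mem_sysY] at h3
        obtain ⟨_, h4, h5, h6⟩ := h3
        refine ⟨⟨?_, ?_, h4⟩, Or.inl ⟨h5, h6⟩⟩
        · rw [dot_zero_right]; exact zero_mem_K
        · simp
      rw [e1, e2, c.map_pt_right]
      exact Canon.infty
  · have hp : 1 ≤ p := by
      by_contra h10
      obtain rfl : p = 0 := by omega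
      exact hξ (Subsingleton.elim _ _)
    obtain ⟨p', hP⟩ : ∃ p', 1 + p' = p := ⟨p - 1, by omega⟩
    obtain ⟨m, hm⟩ : ∃ m, p' + q = m := ⟨_, rfl⟩
    have h' : 1 + m = n := by omega
    obtain ⟨⟨hK, hsq, _⟩, _⟩ := mem_sysX_iff.1 hx
    simp only at hK hsq
    obtain ⟨t, ht⟩ : ∃ t : ℝ, t = v ⬝ᵥ ξ := ⟨_, rfl⟩
    rw [← ht] at hK hsq
    have ht0 : 0 < t := by
      refine lt_of_le_of_ne (K_nonneg hK) fun h0 => hξ ?_
      rw [← dot_self_eq_zero, hsq, ← h0]; ring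
    obtain ⟨G, hG⟩ := exists_orth (cat hP (fun _ => t) 0) ξ (by
      rw [hsq, cat_const_zero, smul_dotProduct, dotProduct_smul, dot_e1, smul_eq_mul, smul_eq_mul]
      ring)
    obtain ⟨v', rfl⟩ : ∃ v', G.1 *ᵥ v' = v := ⟨G⁻¹.1 *ᵥ v, by
      rw [Matrix.mulVec_mulVec]
      have : G.1 * G⁻¹.1 = 1 := congrArg Subtype.val (mul_inv_cancel G)
      rw [this, Matrix.one_mulVec]⟩
    obtain ⟨a, v'', rfl⟩ : ∃ a v'', v' = cat hP a v'' := ⟨_, _, (cat_fstv_sndv hP v').symm⟩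
    subst hG
    rw [dot_rot, dot_cat, dot_zero_right, add_zero] at ht
    have ha : a = 1 := by
      funext i
      fin_cases i
      simp only [dotProduct, Finset.univ_unique, Fin.default_eq_zero, Fin.isValue,
        Finset.sum_singleton] at ht
      show a 0 = 1
      have : (a 0 - 1) * t = 0 := by linarith
      rcases mul_eq_zero.1 this with h3 | h3
      · linarith
      · exact absurd h3 ht0.ne'
    subst ha
    have key : ∀ {W' : OrthSpectrum} (c' : Bimorphism sysX.spec (sysY Λ hΛ).spec W'),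
        c'.map h (xpt (G.1 *ᵥ cat hP 1 v'') (G.1 *ᵥ cat hP (fun _ => t) 0)) (ypt Λ hΛ u κ) =
        blockSum h G 1 • c'.map h' (xpt 1 (fun _ => t)) (ypt Λ hΛ (cat hm v'' u) κ) := by
      intro W' c'
      rw [← smul_xpt, ← canon1 c' hP hm h h']
      have := c'.map_smul h G 1 (xpt (cat hP 1 v'') (cat hP (fun _ => t) 0)) (ypt Λ hΛ u κ)
      rw [one_smul] at this
      exact this
    rw [key c, key (bim Λ hΛ), bim_xpt_ypt]
    apply Canon.smul
    by_cases hmem : ((cat h' 1 (cat hm v'' u), cat h' (fun _ => t) 0, κ) : E n) ∈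
        (sysP Λ hΛ).D n
    · have := Canon.one (c := c) h' 1 t ht0 (cat hm v'' u) κ (by rw [rot_one]; exact hmem)
      rw [one_smul, rot_one] at this
      exact this
    · have e1 : ppt Λ hΛ ((cat h' 1 (cat hm v'' u), cat h' (fun _ => t) 0, κ) : E n) =
          (sysP Λ hΛ).spec.pt n :=
        DSys.of_notMem _ hmem
      have e2 : ypt Λ hΛ (cat hm v'' u) κ = (sysY Λ hΛ).spec.pt m := by
        refine DSys.of_notMem _ fun h3 => hmem ?_
        rw [mem_sysY] at h3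
        obtain ⟨_, h4, h5, h6⟩ := h3
        have e5 : cat h' 1 (cat hm v'' u) ⬝ᵥ cat h' (fun _ => t) 0 = t := by
          rw [dot_cat, dot_zero_right]; simp [dotProduct]
        have e6 : cat h' (fun _ => t) (0 : Fin m → ℝ) ⬝ᵥ cat h' (fun _ => t) 0 = t ^ 2 := by
          rw [dot_cat, dot_zero_right]; simp [dotProduct, sq]
        refine ⟨⟨?_, ?_, h4⟩, Or.inr ⟨?_, ?_, ?_⟩⟩
        · show cat h' 1 (cat hm v'' u) ⬝ᵥ cat h' (fun _ => t) 0 ∈ K
          rw [e5]; exact hK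
        · show cat h' (fun _ => t) (0 : Fin m → ℝ) ⬝ᵥ cat h' (fun _ => t) 0 =
            (cat h' 1 (cat hm v'' u) ⬝ᵥ cat h' (fun _ => t) 0) ^ 2
          rw [e5, e6]
        · intro h7
          have h7' : cat h' (fun _ => t) (0 : Fin m → ℝ) = 0 := h7
          rw [h7', zero_dotProduct] at e6
          have : 0 < t ^ 2 := by positivity
          linarith
        · show cat h' 1 (cat hm v'' u) ⬝ᵥ cat h' 1 (cat hm v'' u) < 2
          rw [dot_cat]
          have : (1 : Fin 1 → ℝ) ⬝ᵥ (1 : Fin 1 → ℝ) = 1 := by simp [dotProduct]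
          rw [this]
          have h5' : cat hm v'' u ⬝ᵥ cat hm v'' u < 1 := h5
          linarith
        · have : n - 1 = m := by omega
          rw [this]
          exact h6
      rw [e1, e2, c.map_pt_right]
      exact Canon.infty

end Pool.Agent.Work.MP_783066_gt
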