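import Mathlib
import Pool.Agent.Work.MP_783066_gt.Univ

/-!
# `P_Λ` is the smash product `X ∧ Y_Λ`
-/

open OnePoint Topology Set Filter Matrix

namespace Pool.Agent.Work.MP_783066_gt

lemma Hom.ext' {X Y : OrthSpectrum} {f g : Hom X Y} (h : ∀ n x, f.map n x = g.map n x) :
    f = g := by
  have h1 : f.map = g.map := by funext n x; exact h n x
  obtain ⟨_, _, _, _, _⟩ := f
  obtain ⟨_, _, _, _, _⟩ := g
  subst h1
  rfl

variable {Λ : Set ℝ} {hΛ : IsClosed Λ} {W : OrthSpectrum}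

/-- Every point of `P_n` is a rotated value of the bimorphism. -/
lemma bim_generates {n : ℕ} (z : (sysP Λ hΛ).spec.lev n) :
    ∃ (p : Fin (n + 1)) (G : Orth n) (x : sysX.spec.lev p) (y : (sysY Λ hΛ).spec.lev (n - p)),
      z = G • (bim Λ hΛ).map (by omega : (p : ℕ) + (n - p) = n) x y := by
  rcases (sysP Λ hΛ).exists_of z with rfl | ⟨e, he, rfl⟩
  · refine ⟨0, 1, sysX.spec.pt _, (sysY Λ hΛ).spec.pt _, ?_⟩
    rw [one_smul, (bim Λ hΛ).map_pt_right]
    rfl
  · obtain ⟨w, ξ, κ⟩ := e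
    show ∃ (p : Fin (n + 1)) (G : Orth n) (x : sysX.spec.lev p)
      (y : (sysY Λ hΛ).spec.lev (n - p)),
      ppt Λ hΛ (w, ξ, κ) = G • (bim Λ hΛ).map (by omega : (p : ℕ) + (n - p) = n) x y
    by_cases hξ : ξ = 0
    · subst hξ
      refine ⟨0, 1, xpt 0 0, ypt Λ hΛ w κ, ?_⟩
      rw [one_smul]
      have h1 := bim_xpt_ypt (Λ := Λ) (hΛ := hΛ) (Nat.zero_add n) 0 0 w κ
      rw [cat_zero_zero, cat_zero_left] at h1
      exact h1.symm
    · have hn : 1 ≤ n := by
        by_contra h10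
        obtain rfl : n = 0 := by omega
        exact hξ (Subsingleton.elim _ _)
      have hm : 1 + (n - 1) = n := by omega
      obtain ⟨t, ht⟩ : ∃ t : ℝ, t = Real.sqrt (ξ ⬝ᵥ ξ) := ⟨_, rfl⟩
      have ht2 : t * t = ξ ⬝ᵥ ξ := by
        rw [ht]; exact Real.mul_self_sqrt (dot_self_nonneg _)
      obtain ⟨G, hG⟩ := exists_orth (cat hm (fun _ => t) 0) ξ (by
        rw [← ht2, cat_const_zero, smul_dotProduct, dotProduct_smul, dot_e1, smul_eq_mul,
          smul_eq_mul]
        ring)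
      obtain ⟨w', rfl⟩ : ∃ v', G.1 *ᵥ v' = w := ⟨G⁻¹.1 *ᵥ w, by
        rw [Matrix.mulVec_mulVec]
        have : G.1 * G⁻¹.1 = 1 := congrArg Subtype.val (mul_inv_cancel G)
        rw [this, Matrix.one_mulVec]⟩
      obtain ⟨a, w'', rfl⟩ : ∃ a v'', w' = cat hm a v'' := ⟨_, _, (cat_fstv_sndv hm w').symm⟩
      refine ⟨⟨1, by omega⟩, G, xpt a (fun _ => t), ypt Λ hΛ w'' κ, ?_⟩
      have h1 := bim_xpt_ypt (Λ := Λ) (hΛ := hΛ) hm a (fun _ => t) w'' κ
      have h2 := congrArg (fun z => G • z) h1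
      refine Eq.trans ?_ h2.symm
      show _ = G • ppt Λ hΛ _
      rw [smul_ppt, ← hG]
      rfl

lemma exists_canon (c : Bimorphism sysX.spec (sysY Λ hΛ).spec W) {n : ℕ}
    (z : (sysP Λ hΛ).spec.lev n) : ∃ w, Canon c z w := by
  obtain ⟨p, G, x, y, rfl⟩ := bim_generates z
  exact ⟨_, (canon_bim c _ x y).smul G⟩

/-- The morphism corresponding to a bimorphism. -/
noncomputable def desc (c : Bimorphism sysX.spec (sysY Λ hΛ).spec W) {n : ℕ}
    (z : (sysP Λ hΛ).spec.lev n) : W.lev n := (exists_canon c z).choose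

lemma canon_desc (c : Bimorphism sysX.spec (sysY Λ hΛ).spec W) {n : ℕ}
    (z : (sysP Λ hΛ).spec.lev n) : Canon c z (desc c z) := (exists_canon c z).choose_spec

lemma desc_smul (c : Bimorphism sysX.spec (sysY Λ hΛ).spec W) {n : ℕ} (A : Orth n)
    (z : (sysP Λ hΛ).spec.lev n) : desc c (A • z) = A • desc c z :=
  (canon_desc c (A • z)).unique ((canon_desc c z).smul A) rfl

lemma desc_bim (c : Bimorphism sysX.spec (sysY Λ hΛ).spec W) {p q n : ℕ} (h : p + q = n)
    (x : sysX.spec.lev p) (y : (sysY Λ hΛ).spec.lev q) :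
    desc c ((bim Λ hΛ).map h x y) = c.map h x y :=
  (canon_desc c _).unique (canon_bim c h x y) rfl

lemma desc_pt (c : Bimorphism sysX.spec (sysY Λ hΛ).spec W) {n : ℕ} :
    desc c ((sysP Λ hΛ).spec.pt n) = W.pt n :=
  (canon_desc c _).unique Canon.infty rfl

lemma desc_str (c : Bimorphism sysX.spec (sysY Λ hΛ).spec W) {n : ℕ}
    (z : (sysP Λ hΛ).spec.lev n) (s : OnePoint ℝ) :
    desc c ((sysP Λ hΛ).spec.str n z s) = W.str n (desc c z) s := by
  obtain ⟨p, G, x, y, rfl⟩ := bim_generates z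
  rw [desc_smul, desc_bim, OrthSpectrum.str_smul, OrthSpectrum.str_smul, desc_smul,
    ← (bim Λ hΛ).map_str_right, ← c.map_str_right, desc_bim]

/-- The compact space mapping onto `P_n`. -/
abbrev Cover (Λ : Set ℝ) (hΛ : IsClosed Λ) (n : ℕ) : Type :=
  Σ p : Fin (n + 1), Orth n × sysX.spec.lev p × (sysY Λ hΛ).spec.lev (n - p)

/-- The map `(G, x, y) ↦ G • c (x, y)`. -/
def coverMap (c : Bimorphism sysX.spec (sysY Λ hΛ).spec W) (n : ℕ) (a : Cover Λ hΛ n) :
    W.lev n := a.2.1 • c.map (by omega : (a.1 : ℕ) + (n - a.1) = n) a.2.2.1 a.2.2.2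

lemma continuous_coverMap (c : Bimorphism sysX.spec (sysY Λ hΛ).spec W) (n : ℕ) :
    Continuous (coverMap c n) := by
  refine continuous_sigma fun p => ?_
  have h1 := c.continuous_map (by omega : (p : ℕ) + (n - p) = n)
    (Orth n × sysX.spec.lev p × (sysY Λ hΛ).spec.lev (n - p))
    ⟨fun a => a.2.1, by fun_prop⟩ ⟨fun a => a.2.2, by fun_prop⟩
  exact (W.continuous_act n).comp (continuous_fst.prodMk h1)

lemma continuous_desc (c : Bimorphism sysX.spec (sysY Λ hΛ).spec W) (n : ℕ) :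
    Continuous (desc c : (sysP Λ hΛ).spec.lev n → W.lev n) := by
  have hc := continuous_coverMap (bim Λ hΛ) n
  have hs : Function.Surjective (coverMap (bim Λ hΛ) n) := by
    intro z
    obtain ⟨p, G, x, y, rfl⟩ := bim_generates z
    exact ⟨⟨p, G, x, y⟩, rfl⟩
  have hq : IsQuotientMap (coverMap (bim Λ hΛ) n) := hc.isClosedMap.isQuotientMap hc hs
  rw [hq.continuous_iff]
  have h2 : (desc c) ∘ (coverMap (bim Λ hΛ) n) = coverMap c n := by
    funext a
    simp only [Function.comp_apply, coverMap, desc_smul, desc_bim]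
  rw [h2]
  exact continuous_coverMap c n

/-- `P_Λ` is the smash product `X ∧ Y_Λ`. -/
theorem isSmashProduct_bim : (bim Λ hΛ).IsSmashProduct := by
  intro W c
  refine ⟨⟨fun n => desc c, continuous_desc c, fun n => desc_pt c, fun n => desc_smul c,
    fun n => desc_str c⟩, fun p q n h x y => desc_bim c h x y, ?_⟩
  intro ψ hψ
  refine Hom.ext' fun n z => ?_
  obtain ⟨p, G, x, y, rfl⟩ := bim_generates z
  show _ = desc c _
  rw [ψ.map_smul, desc_smul, desc_bim, hψ]

end Pool.Agent.Work.MP_783066_gt
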