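import Mathlib
import Pool.Agent.Work.MP_783066_gt.Smash

/-!
# Stable homotopy groups: generalities
-/

open OnePoint Topology Set Filter Matrix

namespace Pool.Agent.Work.MP_783066_gt

variable {X Y : OrthSpectrum} {k : ℤ}

lemma Rep.Homotopic.refl (a : Rep X k) : Rep.Homotopic a a := by
  obtain ⟨n, N, hN, g, hg⟩ := a
  exact .intro (ContinuousMap.HomotopicRel.refl g)

lemma Rep.Homotopic.symm {a b : Rep X k} (h : Rep.Homotopic a b) : Rep.Homotopic b a := by
  obtain ⟨H⟩ := h
  exact .intro H.symm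

lemma Rep.Homotopic.trans {a b c : Rep X k} (h : Rep.Homotopic a b) (h' : Rep.Homotopic b c) :
    Rep.Homotopic a c := by
  obtain ⟨H⟩ := h
  cases h' with
  | intro H' => exact .intro (H.trans H')

lemma Rep.homotopic_of {n N : ℕ} {hN : (N : ℤ) = k + n} {g g' : C(Sph N, X.lev n)}
    {hg : g ∞ = X.pt n} {hg' : g' ∞ = X.pt n} (F : unitInterval × Sph N → X.lev n)
    (hF : Continuous F) (h0 : ∀ x, F (0, x) = g x) (h1 : ∀ x, F (1, x) = g' x)
    (hinf : ∀ t, F (t, ∞) = X.pt n) : Rep.Homotopic ⟨n, N, hN, g, hg⟩ ⟨n, N, hN, g', hg'⟩ := by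
  refine .intro ⟨⟨⟨⟨F, hF⟩, h0, h1⟩, ?_⟩⟩
  intro t x hx
  obtain rfl : x = ∞ := hx
  exact (hinf t).trans hg.symm

lemma Rep.Homotopic.stab {a b : Rep X k} (h : Rep.Homotopic a b) :
    Rep.Homotopic a.stab b.stab := by
  cases h with
  | @intro n N hN g g' hg hg' H =>
  obtain ⟨H⟩ := H
  have hHinf : ∀ t, H (t, ∞) = X.pt n := by
    intro t
    rw [H.eq_fst t (mem_singleton _), hg]
  refine Rep.homotopic_of (fun p => suspFun X (fun x => H (p.1, x)) p.2) ?_ ?_ ?_ ?_
  · rw [(isQuotientMap_id_smashSph N).continuous_iff]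
    have h1 : Continuous fun p : unitInterval × (OnePoint (Fin N → ℝ) × OnePoint ℝ) =>
        X.str n (H (p.1, p.2.1)) p.2.2 := by
      refine (X.continuous_str n).comp (Continuous.prodMk ?_ (by fun_prop))
      exact H.continuous.comp (by fun_prop)
    refine h1.congr fun p => ?_
    exact (suspFun_smashSph X (fun x => H (p.1, x)) (hHinf _) p.2).symm
  · intro x
    show suspFun X (fun x => H (0, x)) x = suspFun X g x
    congr 1
    funext x
    exact H.apply_zero x
  · intro x
    show suspFun X (fun x => H (1, x)) x = suspFun X g' x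
    congr 1
    funext x
    exact H.apply_one x
  · intro t
    rfl

lemma Rep.Homotopic.stab_iterate {a b : Rep X k} (h : Rep.Homotopic a b) (i : ℕ) :
    Rep.Homotopic (Rep.stab^[i] a) (Rep.stab^[i] b) := by
  induction i with
  | zero => exact h
  | succ i ih =>
    rw [Function.iterate_succ_apply', Function.iterate_succ_apply']
    exact ih.stab

lemma Rep.StablyHomotopic.equivalence : Equivalence (Rep.StablyHomotopic (X := X) (k := k)) where
  refl a := ⟨0, 0, Rep.Homotopic.refl a⟩
  symm := by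
    rintro a b ⟨i, j, h⟩
    exact ⟨j, i, h.symm⟩
  trans := by
    rintro a b c ⟨i, j, h⟩ ⟨i', j', h'⟩
    refine ⟨i' + i, j + j', ?_⟩
    have h1 := h.stab_iterate i'
    have h2 := h'.stab_iterate j
    rw [← Function.iterate_add_apply, ← Function.iterate_add_apply] at h1 h2
    rw [add_comm i' j] at h1
    exact h1.trans h2

lemma StableGroup.mk_eq_iff {a b : Rep X k} :
    (Quot.mk _ a : StableGroup X k) = Quot.mk _ b ↔ Rep.StablyHomotopic a b :=
  Rep.StablyHomotopic.equivalence.quot_mk_eq_iff a b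

lemma StableGroup.map_mk (f : Hom X Y) (a : Rep X k) :
    StableGroup.map f k (Quot.mk _ a) = Quot.mk _ (a.comp f) := rfl

lemma Rep.Homotopic.of_comp {f : Hom X Y} (r : ∀ n, Y.lev n → X.lev n)
    (hr : ∀ n, Continuous (r n)) (hrf : ∀ n x, r n (f.map n x) = x) {a b : Rep X k}
    (h : Rep.Homotopic (a.comp f) (b.comp f)) : Rep.Homotopic a b := by
  obtain ⟨n, N, hN, g, hg⟩ := a
  obtain ⟨n', N', hN', g', hg'⟩ := b
  simp only [Rep.comp] at h
  cases h with
  | intro H =>
    have h1 := H.comp_continuousMap ⟨r n, hr n⟩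
    have e1 : ∀ g : C(Sph N, X.lev n), (⟨r n, hr n⟩ : C(Y.lev n, X.lev n)).comp
        ⟨fun v => f.map n (g v), (f.continuous_map n).comp g.continuous⟩ = g := by
      intro g
      ext v
      exact hrf n (g v)
    rw [e1, e1] at h1
    exact .intro h1

/-- A levelwise split injective morphism is injective on stable homotopy groups. -/
lemma StableGroup.map_injective {f : Hom X Y} (r : ∀ n, Y.lev n → X.lev n)
    (hr : ∀ n, Continuous (r n)) (hrf : ∀ n x, r n (f.map n x) = x) :
    Function.Injective (StableGroup.map f k) := by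
  intro a b h
  induction a using Quot.ind with
  | mk a =>
  induction b using Quot.ind with
  | mk b =>
  obtain ⟨i, j, h⟩ := StableGroup.mk_eq_iff.1 h
  rw [Rep.stab_iterate_comp, Rep.stab_iterate_comp] at h
  exact Quot.sound ⟨i, j, h.of_comp r hr hrf⟩

end Pool.Agent.Work.MP_783066_gt
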