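import Mathlib
import Pool.Agent.Work.MP_783066_gt.Bim

/-!
# Continuity of proper maps defined on open subsets, extended by `∞`
-/

open OnePoint Topology Set Filter Matrix

namespace Pool.Agent.Work.MP_783066_gt

lemma continuous_of_proper {A B : Type*} [TopologicalSpace A] [TopologicalSpace B] [T2Space A]
    {F : OnePoint A → OnePoint B} (h0 : F ∞ = ∞)
    (hF : ∀ a : A, F a ≠ ∞ → ContinuousAt (fun a : A => F a) a)
    (hK : ∀ C : Set B, IsCompact C → IsClosed C → ∃ K' : Set A, IsCompact K' ∧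
      (∀ a ∈ K', F a ≠ ∞) ∧ ∀ (a : A) (b : B), F a = b → b ∈ C → a ∈ K') : Continuous F := by
  rw [continuous_def]
  intro V hV
  by_cases hinf : ∞ ∈ V
  · have hinf' : ∞ ∈ F ⁻¹' V := by rw [mem_preimage, h0]; exact hinf
    rw [OnePoint.isOpen_iff_of_mem hinf']
    have hV' := hV
    rw [OnePoint.isOpen_iff_of_mem hinf] at hV
    obtain ⟨hV1, hV2⟩ := hV
    obtain ⟨K', hK1, hK2, hK3⟩ := hK _ hV2 hV1
    have heq : ((↑) ⁻¹' (F ⁻¹' V) : Set A)ᶜ = K' ∩ (fun a : A => F a) ⁻¹' Vᶜ := by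
      ext a
      constructor
      · intro ha
        have ha' : F a ∉ V := ha
        refine ⟨?_, ha'⟩
        obtain ⟨b, hb⟩ : ∃ b : B, F a = b := by
          rcases OnePoint.ne_infty_iff_exists.1 (fun h => ha' (h ▸ hinf) : F a ≠ ∞) with ⟨b, hb⟩
          exact ⟨b, hb.symm⟩
        refine hK3 a b hb ?_
        intro hb2
        apply ha'
        rw [hb]
        exact hb2
      · intro ha; exact ha.2
    have hcl : IsClosed (K' ∩ (fun a : A => F a) ⁻¹' Vᶜ) := by
      refine ContinuousOn.preimage_isClosed_of_isClosed ?_ hK1.isClosed hV'.isClosed_compl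
      intro a ha
      exact (hF a (hK2 a ha)).continuousWithinAt
    rw [heq]
    exact ⟨hcl, hK1.of_isClosed_subset hcl inter_subset_left⟩
  · have hinf' : ∞ ∉ F ⁻¹' V := by rw [mem_preimage, h0]; exact hinf
    rw [OnePoint.isOpen_iff_of_notMem hinf', isOpen_iff_mem_nhds]
    intro a ha
    have ha' : F a ∈ V := ha
    exact (hF a (fun h => hinf (h ▸ ha'))).preimage_mem_nhds (hV.mem_nhds ha')

namespace DSys

variable (S : DSys)

lemma continuousOn_of (n : ℕ) : ContinuousOn (fun e : E n => S.of e) (S.D n) := by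
  rw [continuousOn_iff_continuous_domRestrict]
  have : (S.D n).domRestrict (fun e : E n => S.of e) = fun e : S.D n => (e : OnePoint (S.D n)) := by
    funext e
    exact (S.coe_eq_of e).symm
  rw [this]
  exact OnePoint.continuous_coe

lemma continuousAt_of {A : Type*} [TopologicalSpace A] {n : ℕ} {ψ : A → E n} {a : A}
    (hψ : ContinuousAt ψ a) (h : ∀ᶠ b in 𝓝 a, ψ b ∈ S.D n) :
    ContinuousAt (fun b => S.of (ψ b)) a := by
  have h1 : ContinuousWithinAt (fun e : E n => S.of e) (S.D n) (ψ a) :=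
    S.continuousOn_of n _ h.self_of_nhds
  exact h1.tendsto.comp (tendsto_nhdsWithin_iff.2 ⟨hψ, h⟩)

lemma continuous_of_map {A A' : Type*} [TopologicalSpace A] [T2Space A] [TopologicalSpace A']
    {n : ℕ} {ψ : A → E n} {F : OnePoint A → OnePoint (S.D n)} (h0 : F ∞ = ∞)
    (hF : ∀ a : A, F a = S.of (ψ a)) (hopen : IsOpen {a | ψ a ∈ S.D n})
    (hψ : ContinuousOn ψ {a | ψ a ∈ S.D n}) {ι : A → A'} (hι : IsInducing ι)
    (hK : ∀ C ⊆ S.D n, IsCompact C → ∃ L : Set A', IsCompact L ∧ L ⊆ range ι ∧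
      (∀ a, ι a ∈ L → ψ a ∈ S.D n) ∧ ∀ a, ψ a ∈ C → ι a ∈ L) : Continuous F := by
  refine continuous_of_proper h0 ?_ ?_
  · intro a ha
    have ha' : ψ a ∈ S.D n := by
      by_contra h
      apply ha
      rw [hF, S.of_notMem h]
    have h1 := S.continuousAt_of (hψ.continuousAt (hopen.mem_nhds ha')) (hopen.mem_nhds ha')
    simp only [hF]
    exact h1
  · intro C hC _
    obtain ⟨L, hL1, hL2, hL3, hL4⟩ := hK (Subtype.val '' C)
      (by rintro _ ⟨x, _, rfl⟩; exact x.2) (hC.image continuous_subtype_val)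
    refine ⟨ι ⁻¹' L, ?_, ?_, ?_⟩
    · rw [hι.isCompact_iff, image_preimage_eq_inter_range, inter_eq_left.2 hL2]
      exact hL1
    · intro a ha
      rw [hF, S.of_mem (hL3 a ha)]
      exact OnePoint.coe_ne_infty _
    · intro a b hab hb
      refine hL4 a ⟨b, hb, ?_⟩
      rw [hF, S.coe_eq_of b] at hab
      exact S.of_inj b.2 hab.symm

end DSys

end Pool.Agent.Work.MP_783066_gt
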