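import Mathlib
import Pool.Agent.Work.MP_783066_gt.Htpy
import Pool.Agent.Work.MP_783066_gt.Proper

/-!
# The spheres in `X ∧ Y'` which do not come from `X ∧ Y`
-/

open OnePoint Topology Set Filter Matrix

namespace Pool.Agent.Work.MP_783066_gt

/-- The system of `X ∧ Y`. -/
abbrev P0 : DSys := sysP {0} isClosed_singleton

/-- The system of `X ∧ Y'`. -/
abbrev PK : DSys := sysP K isClosed_K

lemma dot_cons {n : ℕ} (v w : Fin n → ℝ) (s t : ℝ) :
    (Fin.cons s v : Fin (n + 1) → ℝ) ⬝ᵥ (Fin.cons t w : Fin (n + 1) → ℝ) = s * t + v ⬝ᵥ w := by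
  simp [dotProduct, Fin.sum_univ_succ]

lemma isCompact_dot_le {n : ℕ} (R : ℝ) : IsCompact {w : Fin n → ℝ | w ⬝ᵥ w ≤ R} := by
  refine Metric.isCompact_of_isClosed_isBounded ?_ ?_
  · exact isClosed_le (continuous_dot_comp continuous_id continuous_id) continuous_const
  · rw [isBounded_iff_forall_norm_le]
    refine ⟨max R 1, fun w hw => ?_⟩
    rw [pi_norm_le_iff_of_nonneg (le_trans zero_le_one (le_max_right _ _))]
    intro i
    have h1 : w i * w i ≤ w ⬝ᵥ w := by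
      simp only [dotProduct]
      exact Finset.single_le_sum (f := fun i => w i * w i) (fun i _ => mul_self_nonneg _)
        (Finset.mem_univ i)
    have h2 : w ⬝ᵥ w ≤ R := hw
    have h3 := le_max_left R 1
    have h4 := le_max_right R 1
    rw [Real.norm_eq_abs, abs_le]
    constructor <;> nlinarith

/-- `(t, v') ↦ (2 (t - i) - 1, v')`. -/
def yv (i : ℕ) {b : ℕ} (v : Fin (b + 1) → ℝ) : Fin (b + 1) → ℝ :=
  Fin.cons (2 * (v 0 - i) - 1) (Fin.tail v)

/-- The point `((1, y), (1/i, 0), 1/(i+1))`, `y = yv i v`. -/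
noncomputable def psi (i : ℕ) {b : ℕ} (v : Fin (b + 1) → ℝ) : E (b + 2) :=
  (Fin.cons 1 (yv i v), Fin.cons (1 / (i : ℝ)) 0, 1 / ((i : ℝ) + 1))

lemma continuous_yv (i : ℕ) {b : ℕ} : Continuous (yv i (b := b)) := by
  refine continuous_pi fun k => ?_
  refine Fin.cases ?_ (fun k => ?_) k
  · simp only [yv, Fin.cons_zero]; fun_prop
  · simp only [yv, Fin.cons_succ, Fin.tail]; fun_prop

lemma continuous_psi (i : ℕ) {b : ℕ} : Continuous (psi i (b := b)) := by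
  refine Continuous.prodMk ?_ continuous_const
  refine continuous_pi fun k => ?_
  refine Fin.cases ?_ (fun k => ?_) k
  · simp only [Fin.cons_zero]; fun_prop
  · simp only [Fin.cons_succ]
    exact (continuous_apply k).comp (continuous_yv i)

lemma one_div_mem_K (i : ℕ) : (1 : ℝ) / i ∈ K := by
  rcases Nat.eq_zero_or_pos i with rfl | hi
  · simp [zero_mem_K]
  · obtain ⟨j, rfl⟩ : ∃ j, i = j + 1 := ⟨i - 1, by omega⟩
    push_cast
    exact inv_mem_K j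

lemma psi_dot1 (i : ℕ) {b : ℕ} (v : Fin (b + 1) → ℝ) :
    (psi i v).1 ⬝ᵥ (psi i v).2.1 = 1 / (i : ℝ) := by
  simp only [psi, dot_cons, dot_zero_right]; ring

lemma psi_dot2 (i : ℕ) {b : ℕ} (v : Fin (b + 1) → ℝ) :
    (psi i v).2.1 ⬝ᵥ (psi i v).2.1 = (1 / (i : ℝ)) ^ 2 := by
  simp only [psi, dot_cons, dot_zero_right]; ring

lemma psi_dot3 (i : ℕ) {b : ℕ} (v : Fin (b + 1) → ℝ) :
    (psi i v).1 ⬝ᵥ (psi i v).1 = 1 + yv i v ⬝ᵥ yv i v := by
  simp only [psi, dot_cons]; ring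

lemma psi_mem_iff (i : ℕ) {b : ℕ} (v : Fin (b + 1) → ℝ) :
    psi i v ∈ PK.D (b + 2) ↔ b < i ∧ yv i v ⬝ᵥ yv i v < 1 := by
  have h0 := dot_self_nonneg (yv i v)
  constructor
  · rintro ⟨_, h | ⟨h1, h2, h3⟩⟩
    · have := h.1
      rw [psi_dot3] at this
      linarith
    · rw [psi_dot3] at h2
      refine ⟨?_, by linarith⟩
      have h4 : ((b + 2 - 1 : ℕ) : ℝ) * (1 / ((i : ℝ) + 1)) < 1 := h3
      rw [mul_one_div, div_lt_one (by positivity)] at h4
      have : b + 2 - 1 < i + 1 := by exact_mod_cast h4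
      omega
  · rintro ⟨h1, h2⟩
    refine ⟨⟨?_, ?_, inv_mem_K i⟩, Or.inr ⟨?_, ?_, ?_⟩⟩
    · rw [psi_dot1]; exact one_div_mem_K i
    · rw [psi_dot1, psi_dot2]
    · intro h
      have h3 := psi_dot2 i v
      rw [h, zero_dotProduct] at h3
      have h4 : (0 : ℝ) < i := by exact_mod_cast (by omega : 0 < i)
      have : 0 < (1 / (i : ℝ)) ^ 2 := by positivity
      linarith
    · rw [psi_dot3]; linarith
    · show ((b + 2 - 1 : ℕ) : ℝ) * (1 / ((i : ℝ) + 1)) < 1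
      rw [mul_one_div, div_lt_one (by positivity)]
      exact_mod_cast (by omega : b + 2 - 1 < i + 1)

lemma floor_of_yv {i b : ℕ} {v : Fin (b + 1) → ℝ} (h : yv i v ⬝ᵥ yv i v < 1) :
    ⌊v 0⌋₊ = i := by
  simp only [yv, dot_cons] at h
  have h0 := dot_self_nonneg (Fin.tail v)
  have h1 : (2 * (v 0 - i) - 1) * (2 * (v 0 - i) - 1) < 1 := by linarith
  have h2 : (i : ℝ) < v 0 := by nlinarith
  have h3 : v 0 < i + 1 := by nlinarith
  rw [Nat.floor_eq_iff (le_trans (Nat.cast_nonneg i) h2.le)]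
  exact ⟨h2.le, h3⟩

/-- The points `psi i v`, where `i` is the integral part of the first coordinate of `v`. -/
noncomputable def psif {b : ℕ} (v : Fin (b + 1) → ℝ) : E (b + 2) := psi ⌊v 0⌋₊ v

/-- The map `S^(b+1) → (X ∧ Y')_(b+2)`. -/
noncomputable def zfun (b : ℕ) : Sph (b + 1) → OnePoint (PK.D (b + 2))
  | ∞ => ∞
  | OnePoint.some v => PK.of (psif v)

lemma isOpen_yv (i : ℕ) {b : ℕ} : IsOpen {v : Fin (b + 1) → ℝ | yv i v ⬝ᵥ yv i v < 1} :=
  isOpen_lt (continuous_dot_comp (continuous_yv i) (continuous_yv i)) continuous_const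

lemma psif_mem_iff {b : ℕ} (v : Fin (b + 1) → ℝ) :
    psif v ∈ PK.D (b + 2) ↔ ∃ i, b < i ∧ yv i v ⬝ᵥ yv i v < 1 := by
  rw [psif, psi_mem_iff]
  constructor
  · rintro ⟨h1, h2⟩; exact ⟨_, h1, h2⟩
  · rintro ⟨i, h1, h2⟩
    rw [floor_of_yv h2]
    exact ⟨h1, h2⟩

lemma yv_bounded {i b : ℕ} {v : Fin (b + 1) → ℝ} (h : yv i v ⬝ᵥ yv i v ≤ 1) :
    v ⬝ᵥ v ≤ (i + 1) ^ 2 + 1 := by
  have h1 : v = Fin.cons (v 0) (Fin.tail v) := (Fin.cons_self_tail v).symm
  simp only [yv, dot_cons] at h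
  rw [h1, dot_cons]
  have h0 := dot_self_nonneg (Fin.tail v)
  have h2 : (2 * (v 0 - i) - 1) * (2 * (v 0 - i) - 1) ≤ 1 := by linarith
  have h3 : (i : ℝ) ≤ v 0 := by nlinarith
  have h4 : v 0 ≤ i + 1 := by nlinarith
  have h5 : (0 : ℝ) ≤ i := Nat.cast_nonneg i
  have h6 : Fin.tail v ⬝ᵥ Fin.tail v ≤ 1 := by nlinarith
  nlinarith

lemma continuous_zfun (b : ℕ) : Continuous (zfun b) := by
  refine PK.continuous_of_map (A := Fin (b + 1) → ℝ) (A' := Fin (b + 1) → ℝ) (ψ := psif)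
    (F := zfun b) rfl (fun a => rfl) ?_ ?_ (ι := id) IsInducing.id ?_
  · have : {v : Fin (b + 1) → ℝ | psif v ∈ PK.D (b + 2)} =
        ⋃ i : ℕ, ⋃ _ : b < i, {v : Fin (b + 1) → ℝ | yv i v ⬝ᵥ yv i v < 1} := by
      ext v
      simp only [mem_ofPred_eq, mem_iUnion, exists_prop]
      exact psif_mem_iff v
    rw [this]
    exact isOpen_iUnion fun i => isOpen_iUnion fun _ => isOpen_yv i
  · intro v hv
    obtain ⟨i, h1, h2⟩ := (psif_mem_iff v).1 hv
    refine ContinuousAt.continuousWithinAt ?_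
    refine (continuous_psi i).continuousAt.congr ?_
    filter_upwards [(isOpen_yv i).mem_nhds h2] with v' hv'
    rw [psif, floor_of_yv hv']
  · intro C hC hCc
    -- only finitely many `i` occur in `C`
    have hC1 : IsCompact (C ∩ {e | 1 ≤ e.1 ⬝ᵥ e.1}) := by
      have h1 : Continuous fun e : E (b + 2) => e.1 ⬝ᵥ e.1 :=
        continuous_dot_comp (by fun_prop) (by fun_prop)
      exact hCc.inter_right (isClosed_le continuous_const h1)
    have h2 : Continuous fun e : E (b + 2) => e.2.1 ⬝ᵥ e.2.1 :=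
        continuous_dot_comp (by fun_prop) (by fun_prop)
    obtain ⟨δ, hδ, hδ2⟩ := hC1.exists_forall_le' (a := 0) h2.continuousOn (by
      rintro e ⟨he1, he2⟩
      have he3 := hC he1
      refine lt_of_le_of_ne (dot_self_nonneg _) fun h0 => ?_
      have h3 : e.2.1 = 0 := dot_self_eq_zero.1 h0.symm
      rcases he3.2 with h4 | h4
      · have h5 : 1 ≤ e.1 ⬝ᵥ e.1 := he2
        linarith [h4.1]
      · exact h4.1 h3)
    obtain ⟨i0, hi0⟩ := exists_nat_gt (1 / δ)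
    refine ⟨⋃ i ∈ Finset.range (i0 + 1), (psi i) ⁻¹' C, ?_, ?_, ?_, ?_⟩
    · refine (Finset.range (i0 + 1)).isCompact_biUnion fun i _ => ?_
      refine (isCompact_dot_le (((i : ℝ) + 1) ^ 2 + 1)).of_isClosed_subset
        (hCc.isClosed.preimage (continuous_psi i)) ?_
      intro v hv
      exact yv_bounded ((psi_mem_iff i v).1 (hC hv)).2.le
    · intro v _; exact ⟨v, rfl⟩
    · intro v hv
      simp only [id_eq, mem_iUnion, Finset.mem_range, exists_prop] at hv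
      obtain ⟨i, _, hi⟩ := hv
      exact (psif_mem_iff v).2 ⟨i, (psi_mem_iff i v).1 (hC hi)⟩
    · intro v hv
      simp only [id_eq, mem_iUnion, Finset.mem_range, exists_prop]
      refine ⟨⌊v 0⌋₊, ?_, hv⟩
      by_contra hlt
      push Not at hlt
      have h3 := hδ2 (psif v) ⟨hv, by
        show 1 ≤ (psi _ v).1 ⬝ᵥ (psi _ v).1
        rw [psi_dot3]
        linarith [dot_self_nonneg (yv ⌊v 0⌋₊ v)]⟩
      simp only [psif] at h3
      rw [psi_dot2] at h3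
      have h4 : (i0 : ℝ) + 1 ≤ (⌊v 0⌋₊ : ℝ) := by exact_mod_cast hlt
      have h5 : (0 : ℝ) < (⌊v 0⌋₊ : ℝ) := lt_of_lt_of_le (by positivity) h4
      have h6 : (1 / (⌊v 0⌋₊ : ℝ)) ^ 2 ≤ 1 / (⌊v 0⌋₊ : ℝ) := by
        have h7 : 1 / (⌊v 0⌋₊ : ℝ) ≤ 1 := by
          rw [div_le_one h5]
          have : (0 : ℝ) ≤ i0 := Nat.cast_nonneg _
          linarith
        have h8 : 0 ≤ 1 / (⌊v 0⌋₊ : ℝ) := by positivity
        nlinarith
      have h9 : δ ≤ 1 / (⌊v 0⌋₊ : ℝ) := h3.trans h6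
      rw [le_div_iff₀ h5] at h9
      rw [div_lt_iff₀ hδ] at hi0
      nlinarith

/-- The classes in `π_{-1} (X ∧ Y')`. -/
noncomputable def zrep (b : ℕ) : Rep PK.spec (-1) where
  n := b + 2
  N := b + 1
  hN := by push_cast; ring
  g := ⟨zfun b, continuous_zfun b⟩
  hg := rfl

lemma tail_snoc' {n : ℕ} (v : Fin (n + 1) → ℝ) (s : ℝ) :
    Fin.tail (Fin.snoc v s : Fin (n + 2) → ℝ) = (Fin.snoc (Fin.tail v) s : Fin (n + 1) → ℝ) := by
  have h1 : (Fin.snoc v s : Fin (n + 2) → ℝ) =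
      Fin.cons (v 0) (Fin.snoc (Fin.tail v) s : Fin (n + 1) → ℝ) := by
    rw [Fin.cons_snoc_eq_snoc_cons, Fin.cons_self_tail]
  rw [h1, Fin.tail_cons]

lemma snoc_apply_zero' {n : ℕ} (v : Fin (n + 1) → ℝ) (s : ℝ) :
    (Fin.snoc v s : Fin (n + 2) → ℝ) 0 = v 0 := by
  have h1 : (Fin.snoc v s : Fin (n + 2) → ℝ) =
      Fin.cons (v 0) (Fin.snoc (Fin.tail v) s : Fin (n + 1) → ℝ) := by
    rw [Fin.cons_snoc_eq_snoc_cons, Fin.cons_self_tail]
  rw [h1, Fin.cons_zero]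

lemma ext_psi (i : ℕ) {b : ℕ} (v : Fin (b + 1) → ℝ) (s : ℝ) :
    ext (psi i v) s = psi i (Fin.snoc v s : Fin (b + 2) → ℝ) := by
  refine Prod.ext ?_ (Prod.ext ?_ rfl)
  · show (Fin.snoc (Fin.cons 1 (yv i v)) s : Fin (b + 3) → ℝ) =
      Fin.cons 1 (yv i (Fin.snoc v s : Fin (b + 2) → ℝ))
    rw [← Fin.cons_snoc_eq_snoc_cons, yv, yv, ← Fin.cons_snoc_eq_snoc_cons, tail_snoc',
      snoc_apply_zero']
  · show (Fin.snoc (Fin.cons (1 / (i : ℝ)) 0) 0 : Fin (b + 3) → ℝ) = Fin.cons (1 / (i : ℝ)) 0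
    rw [← Fin.cons_snoc_eq_snoc_cons, ← zero_eq_snoc]

lemma stab_zrep (b : ℕ) : (zrep b).stab = zrep (b + 1) := by
  simp only [zrep, Rep.stab, Rep.mk.injEq, heq_eq_eq, true_and]
  refine ContinuousMap.ext fun v => ?_
  induction v using OnePoint.rec with
  | infty => rfl
  | coe v =>
    obtain ⟨⟨v, s⟩, rfl⟩ := (snocHomeo (b + 1)).surjective v
    show PK.spec.str (b + 2) (PK.of (psif (Fin.init (Fin.snoc v s : Fin (b + 2) → ℝ) :
      Fin (b + 1) → ℝ))) (((Fin.snoc v s : Fin (b + 2) → ℝ) (Fin.last (b + 1)) : ℝ) : OnePoint ℝ)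
      = PK.of (psif (Fin.snoc v s : Fin (b + 2) → ℝ))
    rw [Fin.init_snoc, Fin.snoc_last, PK.spec_str_of, psif, psif, ext_psi, snoc_apply_zero']

lemma stab_iterate_zrep (j : ℕ) : Rep.stab^[j] (zrep 0) = zrep j := by
  induction j with
  | zero => rfl
  | succ j ih => rw [Function.iterate_succ_apply', ih, stab_zrep]

end Pool.Agent.Work.MP_783066_gt
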