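import Mathlib
import Pool.Agent.Work.MP_783066_gt.NoRetract
import Pool.Agent.Work.MP_783066_gt.Spheres

/-!
# `X ∧ Y → X ∧ Y'` is not surjective on `π_{-1}`
-/

open OnePoint Topology Set Filter Matrix

namespace Pool.Agent.Work.MP_783066_gt

/-! ### The homotopy `B` -/

lemma inv_inv_sq {c : ℝ} (hc : c ≠ 0) (N : ℝ) : N = c⁻¹ * (c⁻¹ * N) * c ^ 2 := by
  field_simp

lemma inv_sq_sq {c : ℝ} (hc : c ≠ 0) (N : ℝ) : N = c⁻¹ ^ 2 * N * c ^ 2 := by
  field_simp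

/-- the splitting of `ℝ^(m+1)` as `ℝ × ℝ^m` -/
lemma dot_eq_zero_tail {m : ℕ} (x : Fin (m + 1) → ℝ) :
    x ⬝ᵥ x = x 0 * x 0 + Fin.tail x ⬝ᵥ Fin.tail x := by
  conv_lhs => rw [← Fin.cons_self_tail x]
  rw [dot_cons]

lemma continuous_tail {m : ℕ} : Continuous (Fin.tail : (Fin (m + 1) → ℝ) → (Fin m → ℝ)) :=
  continuous_pi fun i => by simp only [Fin.tail]; fun_prop

open scoped Classical in
/-- `B(s, (τ, y)) = (τ, y / (1 - s |y|²))` if `s |y|² < 1`, and `∞` otherwise. -/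
noncomputable def bfun {m : ℕ} : OnePoint (unitInterval × (Fin (m + 1) → ℝ)) → Sph (m + 1)
  | ∞ => ∞
  | OnePoint.some (s, x) => if (s : ℝ) * (Fin.tail x ⬝ᵥ Fin.tail x) < 1 then
      ((Fin.cons (x 0) ((1 - (s : ℝ) * (Fin.tail x ⬝ᵥ Fin.tail x))⁻¹ • Fin.tail x) :
        Fin (m + 1) → ℝ) : Sph (m + 1)) else ∞

lemma bfun_of_lt {m : ℕ} {s : unitInterval} {x : Fin (m + 1) → ℝ}
    (h : (s : ℝ) * (Fin.tail x ⬝ᵥ Fin.tail x) < 1) :
    bfun (((s, x) : unitInterval × (Fin (m + 1) → ℝ)) :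
      OnePoint (unitInterval × (Fin (m + 1) → ℝ))) =
      ((Fin.cons (x 0) ((1 - (s : ℝ) * (Fin.tail x ⬝ᵥ Fin.tail x))⁻¹ • Fin.tail x) :
        Fin (m + 1) → ℝ) : Sph (m + 1)) := if_pos h

lemma bfun_of_not_lt {m : ℕ} {s : unitInterval} {x : Fin (m + 1) → ℝ}
    (h : ¬ (s : ℝ) * (Fin.tail x ⬝ᵥ Fin.tail x) < 1) :
    bfun (((s, x) : unitInterval × (Fin (m + 1) → ℝ)) :
      OnePoint (unitInterval × (Fin (m + 1) → ℝ))) = ∞ := if_neg h

lemma continuous_bfun {m : ℕ} : Continuous (bfun (m := m)) := by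
  have hq : Continuous fun a : unitInterval × (Fin (m + 1) → ℝ) =>
      (a.1 : ℝ) * (Fin.tail a.2 ⬝ᵥ Fin.tail a.2) :=
    (by fun_prop : Continuous fun a : unitInterval × (Fin (m + 1) → ℝ) => (a.1 : ℝ)).mul
      (continuous_dot_comp (continuous_tail.comp continuous_snd)
        (continuous_tail.comp continuous_snd))
  have hN : Continuous fun a : unitInterval × (Fin (m + 1) → ℝ) =>
      Fin.tail a.2 ⬝ᵥ Fin.tail a.2 :=
    continuous_dot_comp (continuous_tail.comp continuous_snd)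
        (continuous_tail.comp continuous_snd)
  refine continuous_of_proper rfl ?_ ?_
  · rintro a ha
    have h1 : (a.1 : ℝ) * (Fin.tail a.2 ⬝ᵥ Fin.tail a.2) < 1 := by
      by_contra h
      exact ha (bfun_of_not_lt h)
    have h2 : {a : unitInterval × (Fin (m + 1) → ℝ) |
        (a.1 : ℝ) * (Fin.tail a.2 ⬝ᵥ Fin.tail a.2) < 1} ∈ 𝓝 a :=
      (isOpen_lt hq continuous_const).mem_nhds h1
    have h3 : ContinuousAt (fun a : unitInterval × (Fin (m + 1) → ℝ) =>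
        (Fin.cons (a.2 0) ((1 - (a.1 : ℝ) * (Fin.tail a.2 ⬝ᵥ Fin.tail a.2))⁻¹ • Fin.tail a.2) :
        Fin (m + 1) → ℝ)) a := by
      have h4 : ContinuousAt (fun a : unitInterval × (Fin (m + 1) → ℝ) =>
          (1 - (a.1 : ℝ) * (Fin.tail a.2 ⬝ᵥ Fin.tail a.2))⁻¹ • Fin.tail a.2) a := by
        have h5 : ContinuousAt (fun a : unitInterval × (Fin (m + 1) → ℝ) =>
          1 - (a.1 : ℝ) * (Fin.tail a.2 ⬝ᵥ Fin.tail a.2)) a :=
          (continuous_const.sub hq).continuousAt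
        have h6 : ContinuousAt (fun a : unitInterval × (Fin (m + 1) → ℝ) =>
          (1 - (a.1 : ℝ) * (Fin.tail a.2 ⬝ᵥ Fin.tail a.2))⁻¹) a :=
          ContinuousAt.inv₀ h5 (by linarith)
        have h7 : ContinuousAt (fun a : unitInterval × (Fin (m + 1) → ℝ) => Fin.tail a.2) a :=
          (continuous_tail.comp continuous_snd).continuousAt
        exact ContinuousAt.smul h6 h7
      refine continuousAt_pi.2 fun k => ?_
      refine Fin.cases ?_ (fun k => ?_) k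
      · simp only [Fin.cons_zero]; fun_prop
      · simp only [Fin.cons_succ]
        exact (continuousAt_apply k _).comp h4
    refine (OnePoint.continuous_coe.continuousAt.comp h3).congr ?_
    filter_upwards [h2] with a' ha'
    exact (bfun_of_lt ha').symm
  · intro C hC _
    obtain ⟨R, hR⟩ : ∃ R, ∀ x ∈ C, x ⬝ᵥ x ≤ R := by
      obtain ⟨R, hR⟩ := (hC.image (f := fun x : Fin (m + 1) → ℝ => x ⬝ᵥ x)
        (continuous_dot_comp continuous_id continuous_id)).bddAbove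
      exact ⟨R, fun x hx => hR ⟨x, hx, rfl⟩⟩
    refine ⟨{a : unitInterval × (Fin (m + 1) → ℝ) |
      (a.1 : ℝ) * (Fin.tail a.2 ⬝ᵥ Fin.tail a.2) ≤ 1 ∧ a.2 0 * a.2 0 ≤ R ∧
      Fin.tail a.2 ⬝ᵥ Fin.tail a.2 ≤
        R * (1 - (a.1 : ℝ) * (Fin.tail a.2 ⬝ᵥ Fin.tail a.2)) ^ 2}, ?_, ?_, ?_⟩
    · have g1 : Continuous fun a : unitInterval × (Fin (m + 1) → ℝ) => a.2 0 * a.2 0 := by
        fun_prop
      have g2 : Continuous fun a : unitInterval × (Fin (m + 1) → ℝ) =>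
          R * (1 - (a.1 : ℝ) * (Fin.tail a.2 ⬝ᵥ Fin.tail a.2)) ^ 2 :=
        continuous_const.mul ((continuous_const.sub hq).pow 2)
      refine (isCompact_univ.prod (isCompact_dot_le (R + R))).of_isClosed_subset
        ((isClosed_le hq continuous_const).inter ((isClosed_le g1
          continuous_const).inter (isClosed_le hN g2))) ?_
      rintro ⟨s, x⟩ ⟨h1, h2, h3⟩
      refine ⟨mem_univ _, ?_⟩
      show x ⬝ᵥ x ≤ R + R
      simp only at h1 h2 h3
      rw [dot_eq_zero_tail]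
      have h4 := dot_self_nonneg (Fin.tail x)
      have h5 : 0 ≤ (s : ℝ) * (Fin.tail x ⬝ᵥ Fin.tail x) := mul_nonneg s.2.1 h4
      have h6 : (1 - (s : ℝ) * (Fin.tail x ⬝ᵥ Fin.tail x)) ^ 2 ≤ 1 := by nlinarith
      have h7 : 0 ≤ R := le_trans (mul_self_nonneg _) h2
      nlinarith
    · rintro ⟨s, x⟩ ⟨h1, h2, h3⟩
      simp only at h1 h2 h3
      have h4 : (s : ℝ) * (Fin.tail x ⬝ᵥ Fin.tail x) < 1 := by
        refine lt_of_le_of_ne h1 fun h5 => ?_
        rw [h5] at h3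
        have h6 : Fin.tail x ⬝ᵥ Fin.tail x = 0 := le_antisymm (by simpa using h3)
          (dot_self_nonneg _)
        rw [h6] at h5
        simp at h5
      rw [bfun_of_lt h4]
      exact OnePoint.coe_ne_infty _
    · rintro ⟨s, x⟩ y hxy hy
      by_cases h4 : (s : ℝ) * (Fin.tail x ⬝ᵥ Fin.tail x) < 1
      · rw [bfun_of_lt h4, OnePoint.coe_eq_coe] at hxy
        have h5 := hR y hy
        rw [← hxy, dot_cons, smul_dotProduct, dotProduct_smul, smul_eq_mul, smul_eq_mul] at h5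
        have h6 : 0 < 1 - (s : ℝ) * (Fin.tail x ⬝ᵥ Fin.tail x) := by linarith
        have h7 := dot_self_nonneg (Fin.tail x)
        have h8 := mul_self_nonneg (x 0)
        have h9 : 0 ≤ (1 - (s : ℝ) * (Fin.tail x ⬝ᵥ Fin.tail x))⁻¹ *
          ((1 - (s : ℝ) * (Fin.tail x ⬝ᵥ Fin.tail x))⁻¹ * (Fin.tail x ⬝ᵥ Fin.tail x)) := by
          positivity
        refine ⟨h4.le, ?_, ?_⟩
        · show x 0 * x 0 ≤ R
          linarith
        · show Fin.tail x ⬝ᵥ Fin.tail x ≤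
            R * (1 - (s : ℝ) * (Fin.tail x ⬝ᵥ Fin.tail x)) ^ 2
          have h10 : (1 - (s : ℝ) * (Fin.tail x ⬝ᵥ Fin.tail x))⁻¹ *
            ((1 - (s : ℝ) * (Fin.tail x ⬝ᵥ Fin.tail x))⁻¹ * (Fin.tail x ⬝ᵥ Fin.tail x)) ≤ R := by
            linarith
          have h11 := mul_le_mul_of_nonneg_right h10
            (sq_nonneg (1 - (s : ℝ) * (Fin.tail x ⬝ᵥ Fin.tail x)))
          refine le_trans (le_of_eq ?_) h11
          exact inv_inv_sq h6.ne' _
      · rw [bfun_of_not_lt h4] at hxy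
        exact absurd hxy (OnePoint.infty_ne_coe _)

/-- The homotopy `[0,1] × S^(m+1) → S^(m+1)`. -/
noncomputable def bH {m : ℕ} (a : unitInterval × Sph (m + 1)) : Sph (m + 1) :=
  bfun (collapse ((a.1 : OnePoint unitInterval), a.2))

lemma continuous_bH {m : ℕ} : Continuous (bH (m := m)) :=
  continuous_bfun.comp (continuous_collapse.comp
    ((OnePoint.continuous_coe.comp continuous_fst).prodMk continuous_snd))

lemma bH_zero {m : ℕ} (x : Sph (m + 1)) : bH (0, x) = x := by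
  induction x using OnePoint.rec with
  | infty => rfl
  | coe x =>
    have h : ((0 : unitInterval) : ℝ) * (Fin.tail x ⬝ᵥ Fin.tail x) < 1 := by simp
    refine (bfun_of_lt h).trans ?_
    congr 1
    simp

/-! ### The homeomorphism `A` -/

/-- `(v, τ) ↦ (τ, yv i v)`. -/
noncomputable def aHomeo (i : ℕ) (b : ℕ) : (Fin (b + 2) → ℝ) ≃ₜ (Fin (b + 2) → ℝ) where
  toFun x := Fin.cons (x (Fin.last (b + 1))) (yv i (Fin.init x : Fin (b + 1) → ℝ))
  invFun x := Fin.snoc (Fin.cons ((Fin.tail x 0 + 1) / 2 + i) (Fin.tail (Fin.tail x)) :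
    Fin (b + 1) → ℝ) (x 0)
  left_inv x := by
    conv_rhs => rw [← Fin.snoc_init_self x]
    simp only [yv, Fin.tail_cons, Fin.cons_zero]
    congr 1
    conv_rhs => rw [← Fin.cons_self_tail (Fin.init x : Fin (b + 1) → ℝ)]
    congr 1
    ring
  right_inv x := by
    simp only [Fin.snoc_last, Fin.init_snoc]
    conv_rhs => rw [← Fin.cons_self_tail x]
    congr 1
    conv_rhs => rw [← Fin.cons_self_tail (Fin.tail x)]
    simp only [yv, Fin.tail_cons, Fin.cons_zero]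
    congr 1
    ring
  continuous_toFun := by
    refine continuous_pi fun k => ?_
    refine Fin.cases ?_ (fun k => ?_) k
    · simp only [Fin.cons_zero]; fun_prop
    · simp only [Fin.cons_succ]
      exact (continuous_apply k).comp ((continuous_yv i).comp
        (Continuous.finInit (A := fun _ => ℝ) continuous_id))
  continuous_invFun := by
    refine Continuous.finSnoc (A := fun _ => ℝ) ?_ (by fun_prop)
    refine continuous_pi fun k => ?_
    refine Fin.cases ?_ (fun k => ?_) k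
    · simp only [Fin.cons_zero]
      simp only [Fin.tail]
      fun_prop
    · simp only [Fin.cons_succ, Fin.tail]; fun_prop

/-! ### The detecting map -/

open scoped Classical in
/-- The detecting map `(P'_n × ℝ)⁺ → S^n`. -/
noncomputable def dfun (i n : ℕ) : OnePoint (PK.D n × ℝ) → Sph n
  | ∞ => ∞
  | OnePoint.some a => if a.1.1.2.2 = 1 / ((i : ℝ) + 1) ∧ a.1.1.1 ⬝ᵥ a.1.1.2.1 = 1 / (i : ℝ) then
      (((2 - a.1.1.1 ⬝ᵥ a.1.1.1)⁻¹ • (a.1.1.1 - (i : ℝ) • a.1.1.2.1) +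
        (a.2 * i) • a.1.1.2.1 : Fin n → ℝ) : Sph n) else ∞

lemma dfun_of_pos {i n : ℕ} {a : PK.D n × ℝ}
    (h : a.1.1.2.2 = 1 / ((i : ℝ) + 1) ∧ a.1.1.1 ⬝ᵥ a.1.1.2.1 = 1 / (i : ℝ)) :
    dfun i n (a : OnePoint (PK.D n × ℝ)) =
      (((2 - a.1.1.1 ⬝ᵥ a.1.1.1)⁻¹ • (a.1.1.1 - (i : ℝ) • a.1.1.2.1) +
        (a.2 * i) • a.1.1.2.1 : Fin n → ℝ) : Sph n) := if_pos h

lemma dfun_of_neg {i n : ℕ} {a : PK.D n × ℝ}
    (h : ¬ (a.1.1.2.2 = 1 / ((i : ℝ) + 1) ∧ a.1.1.1 ⬝ᵥ a.1.1.2.1 = 1 / (i : ℝ))) :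
    dfun i n (a : OnePoint (PK.D n × ℝ)) = ∞ := if_neg h

/-- The positive points of `K` are isolated. -/
lemma K_isolated {i : ℕ} (hi : 0 < i) :
    ∀ᶠ κ in 𝓝 (1 / (i : ℝ)), κ ∈ K → κ = 1 / (i : ℝ) := by
  have hi' : (0 : ℝ) < i := by exact_mod_cast hi
  have h1 : 1 / ((i : ℝ) + 1 / 2) < 1 / (i : ℝ) := by
    apply one_div_lt_one_div_of_lt hi'
    linarith
  have h2 : 1 / (i : ℝ) < 1 / ((i : ℝ) - 1 / 2) := by
    have : (1 : ℝ) ≤ i := by exact_mod_cast hi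
    apply one_div_lt_one_div_of_lt <;> linarith
  filter_upwards [Ioo_mem_nhds h1 h2]
  rintro κ ⟨h3, h4⟩ hκ
  rcases hκ with rfl | ⟨j, rfl⟩
  · exfalso
    have : 0 < 1 / ((i : ℝ) + 1 / 2) := by positivity
    linarith
  · have hj : (0 : ℝ) < (j : ℝ) + 1 := by positivity
    have hi2 : (0 : ℝ) < (i : ℝ) - 1 / 2 := by
      have : (1 : ℝ) ≤ i := by exact_mod_cast hi
      linarith
    have h5 : (j : ℝ) + 1 < i + 1 / 2 := lt_of_one_div_lt_one_div (by positivity) h3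
    have h6 : (i : ℝ) - 1 / 2 < j + 1 := lt_of_one_div_lt_one_div hj h4
    have h7 : j + 1 = i := by
      have h8 : (j : ℝ) + 1 < ((i + 1 : ℕ) : ℝ) := by push_cast; linarith
      have h9 : (i : ℝ) < ((j + 2 : ℕ) : ℝ) := by push_cast; linarith
      have h10 : j + 1 < i + 1 := by exact_mod_cast h8
      have h11 : i < j + 2 := by exact_mod_cast h9
      omega
    show 1 / ((j : ℝ) + 1) = _
    rw [← h7]
    push_cast
    rfl

lemma dot_sub_smul {n : ℕ} {w ξ : Fin n → ℝ} {i : ℝ} (hi : i ≠ 0) (h1 : w ⬝ᵥ ξ = 1 / i)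
    (h2 : ξ ⬝ᵥ ξ = (1 / i) ^ 2) (c τ : ℝ) :
    (c • (w - i • ξ) + (τ * i) • ξ) ⬝ᵥ (c • (w - i • ξ) + (τ * i) • ξ) =
      c ^ 2 * (w ⬝ᵥ w - 1) + τ ^ 2 := by
  simp only [add_dotProduct, dotProduct_add, smul_dotProduct, dotProduct_smul, sub_dotProduct,
    dotProduct_sub, smul_eq_mul]
  rw [dotProduct_comm ξ w, h1, h2]
  field_simp
  ring

lemma PK_lt_two {n : ℕ} {e : E n} (he : e ∈ PK.D n) : e.1 ⬝ᵥ e.1 < 2 := by
  rcases he.2 with h | h
  · linarith [h.1]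
  · exact h.2.1

lemma continuous_dfun {i n : ℕ} (hi : 0 < i) (hin : n ≤ i + 1) : Continuous (dfun i n) := by
  have hi' : (0 : ℝ) < i := by exact_mod_cast hi
  have hww : Continuous fun a : PK.D n × ℝ => a.1.1.1 ⬝ᵥ a.1.1.1 :=
    continuous_dot_comp (by fun_prop) (by fun_prop)
  have hwξ : Continuous fun a : PK.D n × ℝ => a.1.1.1 ⬝ᵥ a.1.1.2.1 :=
    continuous_dot_comp (by fun_prop) (by fun_prop)
  refine continuous_of_proper rfl ?_ ?_
  · intro a ha
    have h1 : a.1.1.2.2 = 1 / ((i : ℝ) + 1) ∧ a.1.1.1 ⬝ᵥ a.1.1.2.1 = 1 / (i : ℝ) := by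
      by_contra h
      exact ha (dfun_of_neg h)
    have h2 : ∀ᶠ a' : PK.D n × ℝ in 𝓝 a, a'.1.1.2.2 = 1 / ((i : ℝ) + 1) ∧
        a'.1.1.1 ⬝ᵥ a'.1.1.2.1 = 1 / (i : ℝ) := by
      have e1 : Tendsto (fun a' : PK.D n × ℝ => a'.1.1.2.2) (𝓝 a) (𝓝 (1 / (((i + 1 : ℕ)) : ℝ))) := by
        have : Continuous fun a' : PK.D n × ℝ => a'.1.1.2.2 := by fun_prop
        have h3 := this.tendsto a
        rw [h1.1] at h3
        push_cast
        exact h3
      have e2 : Tendsto (fun a' : PK.D n × ℝ => a'.1.1.1 ⬝ᵥ a'.1.1.2.1) (𝓝 a)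
          (𝓝 (1 / (i : ℝ))) := by
        have h3 := hwξ.tendsto a
        rw [h1.2] at h3
        exact h3
      filter_upwards [e1.eventually (K_isolated (Nat.succ_pos i)), e2.eventually (K_isolated hi)]
        with a' h3 h4
      refine ⟨?_, h4 a'.1.2.1.1⟩
      have := h3 a'.1.2.1.2.2
      push_cast at this
      exact this
    have h3 : ContinuousAt (fun a : PK.D n × ℝ => ((2 - a.1.1.1 ⬝ᵥ a.1.1.1)⁻¹ •
        (a.1.1.1 - (i : ℝ) • a.1.1.2.1) + (a.2 * i) • a.1.1.2.1 : Fin n → ℝ)) a := by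
      have h5 : ContinuousAt (fun a : PK.D n × ℝ => 2 - a.1.1.1 ⬝ᵥ a.1.1.1) a :=
        (continuous_const.sub hww).continuousAt
      have h6 : ContinuousAt (fun a : PK.D n × ℝ => (2 - a.1.1.1 ⬝ᵥ a.1.1.1)⁻¹) a := by
        refine ContinuousAt.inv₀ h5 ?_
        have := PK_lt_two a.1.2
        linarith
      have h7 : Continuous (fun a : PK.D n × ℝ => a.1.1.1 - (i : ℝ) • a.1.1.2.1) := by fun_prop
      have h8 : Continuous (fun a : PK.D n × ℝ => (a.2 * i) • a.1.1.2.1) := by fun_prop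
      exact (h6.smul h7.continuousAt).add h8.continuousAt
    refine (OnePoint.continuous_coe.continuousAt.comp h3).congr ?_
    filter_upwards [h2] with a' ha'
    exact (dfun_of_pos ha').symm
  · intro C hC _
    obtain ⟨R, hR⟩ : ∃ R, ∀ x ∈ C, x ⬝ᵥ x ≤ R := by
      obtain ⟨R, hR⟩ := (hC.image (f := fun x : Fin n → ℝ => x ⬝ᵥ x)
        (continuous_dot_comp continuous_id continuous_id)).bddAbove
      exact ⟨R, fun x hx => hR ⟨x, hx, rfl⟩⟩
    -- the compact set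
    set L : Set (E n × ℝ) := {a | a.1.2.2 = 1 / ((i : ℝ) + 1) ∧ a.1.1 ⬝ᵥ a.1.2.1 = 1 / (i : ℝ) ∧
      a.1.2.1 ⬝ᵥ a.1.2.1 = (1 / (i : ℝ)) ^ 2 ∧ a.1.1 ⬝ᵥ a.1.1 ≤ 2 ∧
      a.1.1 ⬝ᵥ a.1.1 - 1 ≤ R * (2 - a.1.1 ⬝ᵥ a.1.1) ^ 2 ∧ a.2 ^ 2 ≤ R} with hL
    have gww : Continuous fun a : E n × ℝ => a.1.1 ⬝ᵥ a.1.1 :=
      continuous_dot_comp (by fun_prop) (by fun_prop)
    have gwξ : Continuous fun a : E n × ℝ => a.1.1 ⬝ᵥ a.1.2.1 :=
      continuous_dot_comp (by fun_prop) (by fun_prop)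
    have gξξ : Continuous fun a : E n × ℝ => a.1.2.1 ⬝ᵥ a.1.2.1 :=
      continuous_dot_comp (by fun_prop) (by fun_prop)
    have gκ : Continuous fun a : E n × ℝ => a.1.2.2 := by fun_prop
    have gτ : Continuous fun a : E n × ℝ => a.2 ^ 2 := by fun_prop
    have hLcl : IsClosed L :=
      (isClosed_eq gκ continuous_const).inter ((isClosed_eq gwξ continuous_const).inter
      ((isClosed_eq gξξ continuous_const).inter ((isClosed_le gww continuous_const).inter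
      ((isClosed_le (gww.sub continuous_const) (continuous_const.mul
        ((continuous_const.sub gww).pow 2))).inter (isClosed_le gτ continuous_const)))))
    have hLc : IsCompact L := by
      have hτ : IsCompact {τ : ℝ | τ ^ 2 ≤ R} := by
        refine (isCompact_Icc (a := -(max R 1)) (b := max R 1)).of_isClosed_subset
          (isClosed_le (by fun_prop) continuous_const) ?_
        intro τ hτ
        have h1 : τ ^ 2 ≤ R := hτ
        have h3 := le_max_left R 1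
        have h4 := le_max_right R 1
        constructor <;> nlinarith
      refine (((isCompact_dot_le (n := n) 2).prod ((isCompact_dot_le (n := n) ((1 / (i : ℝ)) ^ 2)).prod
        (isCompact_singleton (x := 1 / ((i : ℝ) + 1))))).prod hτ).of_isClosed_subset hLcl ?_
      rintro a ⟨h1, h2, h3, h4, h5, h6⟩
      exact ⟨⟨h4, h3.le, h1⟩, h6⟩
    have hLmem : ∀ a ∈ L, a.1 ∈ PK.D n := by
      rintro a ⟨h1, h2, h3, h4, h5, h6⟩
      refine ⟨⟨?_, ?_, ?_⟩, Or.inr ⟨?_, ?_, ?_⟩⟩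
      · rw [h2]; exact one_div_mem_K i
      · rw [h2, h3]
      · rw [h1]; exact inv_mem_K i
      · intro h
        rw [h, zero_dotProduct] at h3
        have : 0 < (1 / (i : ℝ)) ^ 2 := by positivity
        linarith
      · refine lt_of_le_of_ne h4 fun h7 => ?_
        rw [h7] at h5
        norm_num at h5
      · rw [h1, mul_one_div, div_lt_one (by positivity)]
        have : n - 1 < i + 1 := by omega
        exact_mod_cast this
    refine ⟨(fun a : PK.D n × ℝ => (a.1.1, a.2)) ⁻¹' L, ?_, ?_, ?_⟩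
    · have hι : IsInducing (fun a : PK.D n × ℝ => (a.1.1, a.2)) :=
        IsInducing.subtypeVal.prodMap IsInducing.id
      rw [hι.isCompact_iff, image_preimage_eq_inter_range, inter_eq_left.2]
      · exact hLc
      · intro a ha
        exact ⟨(⟨a.1, hLmem a ha⟩, a.2), rfl⟩
    · rintro a ⟨h1, h2, h3, h4, h5, h6⟩
      rw [dfun_of_pos ⟨h1, h2⟩]
      exact OnePoint.coe_ne_infty _
    · intro a y hay hy
      by_cases h : a.1.1.2.2 = 1 / ((i : ℝ) + 1) ∧ a.1.1.1 ⬝ᵥ a.1.1.2.1 = 1 / (i : ℝ)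
      · rw [dfun_of_pos h, OnePoint.coe_eq_coe] at hay
        have h1 : a.1.1.2.1 ⬝ᵥ a.1.1.2.1 = (1 / (i : ℝ)) ^ 2 := by
          rw [← h.2]; exact a.1.2.1.2.1
        have h2 := PK_lt_two a.1.2
        have h3 := hR y hy
        rw [← hay, dot_sub_smul hi'.ne' h.2 h1] at h3
        have h4 : 1 ≤ a.1.1.1 ⬝ᵥ a.1.1.1 := by
          have h5 := dot_cauchy a.1.1.1 a.1.1.2.1
          rw [h.2, h1] at h5
          have h6 : 0 < (1 / (i : ℝ)) ^ 2 := by positivity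
          by_contra h7
          push Not at h7
          nlinarith
        have h5 : 0 < 2 - a.1.1.1 ⬝ᵥ a.1.1.1 := by linarith
        have h6 : 0 ≤ (2 - a.1.1.1 ⬝ᵥ a.1.1.1)⁻¹ ^ 2 * (a.1.1.1 ⬝ᵥ a.1.1.1 - 1) := by
          have : 0 ≤ a.1.1.1 ⬝ᵥ a.1.1.1 - 1 := by linarith
          positivity
        refine ⟨h.1, h.2, h1, h2.le, ?_, ?_⟩
        · show a.1.1.1 ⬝ᵥ a.1.1.1 - 1 ≤ R * (2 - a.1.1.1 ⬝ᵥ a.1.1.1) ^ 2
          have h7 : (2 - a.1.1.1 ⬝ᵥ a.1.1.1)⁻¹ ^ 2 * (a.1.1.1 ⬝ᵥ a.1.1.1 - 1) ≤ R := by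
            nlinarith [sq_nonneg a.2]
          have h8 := mul_le_mul_of_nonneg_right h7 (sq_nonneg (2 - a.1.1.1 ⬝ᵥ a.1.1.1))
          refine le_trans (le_of_eq ?_) h8
          exact inv_sq_sq h5.ne' _
        · show a.2 ^ 2 ≤ R
          linarith
      · rw [dfun_of_neg h] at hay
        exact absurd hay (OnePoint.infty_ne_coe _)

end Pool.Agent.Work.MP_783066_gt
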