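import Mathlib
import Pool.Agent.Work.MP_783066_gt.Detect

/-!
# `X ∧ Y → X ∧ Y'` is not surjective on `π_{-1}`
-/

open OnePoint Topology Set Filter Matrix

namespace Pool.Agent.Work.MP_783066_gt

/-- The detecting map `P'_n × S^1 → S^n`. -/
noncomputable def dmap (i n : ℕ) (x : OnePoint (PK.D n)) (τ : OnePoint ℝ) : Sph n :=
  dfun i n (collapse (x, τ))

lemma dmap_infty_left (i n : ℕ) (τ : OnePoint ℝ) : dmap i n ∞ τ = ∞ := rfl

lemma dmap_infty_right (i n : ℕ) (x : OnePoint (PK.D n)) : dmap i n x ∞ = ∞ := by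
  rw [dmap, collapse_infty_right]; rfl

lemma psi_value {i b : ℕ} (hi : 0 < i) (v : Fin (b + 1) → ℝ) (τ : ℝ) :
    ((2 - (psi i v).1 ⬝ᵥ (psi i v).1)⁻¹ • ((psi i v).1 - (i : ℝ) • (psi i v).2.1) +
      (τ * i) • (psi i v).2.1 : Fin (b + 2) → ℝ) =
      Fin.cons τ ((1 - yv i v ⬝ᵥ yv i v)⁻¹ • yv i v) := by
  rw [psi_dot3]
  have hi' : (i : ℝ) ≠ 0 := by
    have : (0 : ℝ) < i := by exact_mod_cast hi
    exact this.ne'
  funext k
  refine Fin.cases ?_ (fun k => ?_) k
  · simp only [psi, Pi.add_apply, Pi.smul_apply, Pi.sub_apply, Fin.cons_zero, smul_eq_mul]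
    field_simp
    ring
  · simp only [psi, Pi.add_apply, Pi.smul_apply, Pi.sub_apply, Fin.cons_succ, smul_eq_mul,
      Pi.zero_apply, mul_zero, sub_zero, add_zero]
    congr 2
    ring

lemma dmap_zfun {b : ℕ} (v : Fin (b + 1) → ℝ) (τ : ℝ) :
    dmap (b + 1) (b + 2) (zfun b (v : Sph (b + 1))) (τ : OnePoint ℝ) =
      bH (1, ((aHomeo (b + 1) b (Fin.snoc v τ) : Fin (b + 2) → ℝ) : Sph (b + 2))) := by
  have ha : aHomeo (b + 1) b (Fin.snoc v τ) = Fin.cons τ (yv (b + 1) v) := by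
    show (Fin.cons ((Fin.snoc v τ : Fin (b + 2) → ℝ) (Fin.last (b + 1)))
      (yv (b + 1) (Fin.init (Fin.snoc v τ : Fin (b + 2) → ℝ) : Fin (b + 1) → ℝ)) :
      Fin (b + 2) → ℝ) = _
    rw [Fin.snoc_last, Fin.init_snoc]
  rw [ha]
  have ht : Fin.tail (Fin.cons τ (yv (b + 1) v) : Fin (b + 2) → ℝ) = yv (b + 1) v :=
    Fin.tail_cons _ _
  by_cases h : yv (b + 1) v ⬝ᵥ yv (b + 1) v < 1
  · have hf := floor_of_yv h
    have hmem : psi (b + 1) v ∈ PK.D (b + 2) := (psi_mem_iff _ v).2 ⟨by omega, h⟩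
    have e1 : zfun b (v : Sph (b + 1)) = ((⟨psi (b + 1) v, hmem⟩ : PK.D (b + 2)) :
        OnePoint (PK.D (b + 2))) := by
      show PK.of (psif v) = _
      rw [psif, hf, PK.of_mem hmem]
    rw [e1, dmap, collapse_coe, dfun_of_pos ⟨by simp only [psi], psi_dot1 _ v⟩]
    have h2 : ((1 : unitInterval) : ℝ) * (Fin.tail (Fin.cons τ (yv (b + 1) v) :
      Fin (b + 2) → ℝ) ⬝ᵥ Fin.tail (Fin.cons τ (yv (b + 1) v) : Fin (b + 2) → ℝ)) < 1 := by
      rw [ht, Set.Icc.coe_one, one_mul]; exact h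
    refine Eq.trans ?_ (bfun_of_lt h2).symm
    rw [ht, Set.Icc.coe_one, one_mul, Fin.cons_zero]
    congr 1
    exact psi_value (Nat.succ_pos b) v τ
  · have h2 : ¬ ((1 : unitInterval) : ℝ) * (Fin.tail (Fin.cons τ (yv (b + 1) v) :
      Fin (b + 2) → ℝ) ⬝ᵥ Fin.tail (Fin.cons τ (yv (b + 1) v) : Fin (b + 2) → ℝ)) < 1 := by
      rw [ht, Set.Icc.coe_one, one_mul]; exact h
    refine Eq.trans ?_ (bfun_of_not_lt h2).symm
    by_cases hm : psif v ∈ PK.D (b + 2)
    · have e1 : zfun b (v : Sph (b + 1)) = ((⟨psif v, hm⟩ : PK.D (b + 2)) :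
          OnePoint (PK.D (b + 2))) := by
        show PK.of (psif v) = _
        rw [PK.of_mem hm]
      rw [e1, dmap, collapse_coe, dfun_of_neg]
      rintro ⟨h3, _⟩
      obtain ⟨i, h4, h5⟩ := (psif_mem_iff v).1 hm
      have h6 := floor_of_yv h5
      have h3' : (psif v).2.2 = 1 / (((b + 1 : ℕ) : ℝ) + 1) := h3
      rw [psif, h6] at h3'
      have h3 : 1 / ((i : ℝ) + 1) = 1 / (((b + 1 : ℕ) : ℝ) + 1) := h3'
      have h7 : (0 : ℝ) < (i : ℝ) + 1 := by positivity
      have h8 : (0 : ℝ) < ((b + 1 : ℕ) : ℝ) + 1 := by positivity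
      rw [div_eq_div_iff h7.ne' h8.ne'] at h3
      have h9 : ((b + 1 : ℕ) : ℝ) = i := by linarith
      have h10 : b + 1 = i := by exact_mod_cast h9
      subst h10
      exact h h5
    · have e1 : zfun b (v : Sph (b + 1)) = ∞ := PK.of_notMem hm
      rw [e1]; rfl

lemma dmap_inclP {i n : ℕ} (x : P0.spec.lev n) (τ : OnePoint ℝ) :
    dmap i n (inclP.map n x) τ = ∞ := by
  rcases P0.exists_of x with rfl | ⟨e, he, rfl⟩
  · rfl
  · have h0 : e.2.2 = 0 := he.1.2.2
    rw [inclP_of h0]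
    induction τ using OnePoint.rec with
    | infty => exact dmap_infty_right _ _ _
    | coe τ =>
      by_cases h : e ∈ PK.D n
      · rw [PK.of_mem h, dmap, collapse_coe, dfun_of_neg]
        rintro ⟨h3, _⟩
        rw [h0] at h3
        have : (0 : ℝ) < 1 / ((i : ℝ) + 1) := by positivity
        linarith
      · rw [PK.of_notMem h]; rfl

theorem not_homotopic_z (b : ℕ) (g g' : C(Sph (b + 1), PK.spec.lev (b + 2)))
    (hg : ∀ v, g v ∈ range (inclP.map (b + 2))) (hg' : ∀ v, g' v = zfun b v)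
    (H : g.HomotopicRel g' {∞}) : False := by
  obtain ⟨H⟩ := H
  have hg'inf : g' ∞ = ∞ := hg' ∞
  have hHinf : ∀ t, H (t, ∞) = (∞ : OnePoint (PK.D (b + 2))) := by
    intro t
    rw [H.eq_snd t (mem_singleton _), hg'inf]
  have hdc : Continuous fun p : OnePoint (PK.D (b + 2)) × OnePoint ℝ =>
      dmap (b + 1) (b + 2) p.1 p.2 :=
    (continuous_dfun (Nat.succ_pos b) (by omega)).comp continuous_collapse
  -- the homotopy
  let Φ : unitInterval × Sph (b + 2) → Sph (b + 2) := fun p =>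
    match p.2 with
    | ∞ => ∞
    | OnePoint.some x => dmap (b + 1) (b + 2)
        (H (p.1, ((Fin.init x : Fin (b + 1) → ℝ) : Sph (b + 1))))
        ((x (Fin.last (b + 1)) : ℝ) : OnePoint ℝ)
  have hΦs : ∀ (t : unitInterval) (p : Sph (b + 1) × OnePoint ℝ),
      Φ (t, smashSph (b + 1) p) = dmap (b + 1) (b + 2) (H (t, p.1)) p.2 := by
    rintro t ⟨v, τ⟩
    induction v using OnePoint.rec with
    | infty => rw [smashSph_infty_left, hHinf]; rfl
    | coe v =>
      induction τ using OnePoint.rec with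
      | infty => rw [smashSph_infty_right, dmap_infty_right]
      | coe τ =>
        rw [smashSph_coe]
        show dmap (b + 1) (b + 2) (H (t, ((Fin.init (Fin.snoc v τ : Fin (b + 2) → ℝ) :
          Fin (b + 1) → ℝ) : Sph (b + 1))))
          (((Fin.snoc v τ : Fin (b + 2) → ℝ) (Fin.last (b + 1)) : ℝ) : OnePoint ℝ) = _
        rw [Fin.init_snoc, Fin.snoc_last]
  have hΦc : Continuous Φ := by
    rw [(isQuotientMap_id_smashSph (b + 1)).continuous_iff]
    have h1 : Continuous fun p : unitInterval × (OnePoint (Fin (b + 1) → ℝ) × OnePoint ℝ) =>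
        dmap (b + 1) (b + 2) (H (p.1, p.2.1)) p.2.2 := by
      refine hdc.comp (Continuous.prodMk ?_ (by fun_prop))
      exact H.continuous.comp (by fun_prop)
    exact h1.congr fun p => (hΦs p.1 p.2).symm
  set A := (aHomeo (b + 1) b).onePointCongr with hA
  have hAcoe : ∀ x : Fin (b + 2) → ℝ, A (x : Sph (b + 2)) = ((aHomeo (b + 1) b x :
      Fin (b + 2) → ℝ) : Sph (b + 2)) := fun x => rfl
  have hAinf : A ∞ = ∞ := rfl
  let Z : C(Sph (b + 2), Sph (b + 2)) := ⟨fun x => bH (1, A x),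
    continuous_bH.comp (continuous_const.prodMk A.continuous)⟩
  have hZ0 : (ContinuousMap.const (Sph (b + 2)) (∞ : Sph (b + 2))).Homotopic Z := by
    refine ⟨⟨⟨Φ, hΦc⟩, ?_, ?_⟩⟩
    · intro x
      show Φ (0, x) = ∞
      obtain ⟨⟨v, τ⟩, rfl⟩ := smashSph_surjective (b + 1) x
      rw [hΦs]
      obtain ⟨y, hy⟩ := hg v
      rw [H.apply_zero, ← hy]
      exact dmap_inclP y τ
    · intro x
      show Φ (1, x) = bH (1, A x)
      induction x using OnePoint.rec with
      | infty => rw [hAinf]; rfl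
      | coe x =>
        obtain ⟨⟨v, τ⟩, rfl⟩ := (snocHomeo (b + 1)).surjective x
        have := hΦs 1 ((v : Sph (b + 1)), (τ : OnePoint ℝ))
        rw [smashSph_coe] at this
        refine this.trans ?_
        rw [H.apply_one, hg' v, hAcoe]
        exact dmap_zfun v τ
  have hZ1 : (⟨A, A.continuous⟩ : C(Sph (b + 2), Sph (b + 2))).Homotopic Z := by
    refine ⟨⟨⟨fun p => bH (p.1, A p.2), continuous_bH.comp (continuous_fst.prodMk
      (A.continuous.comp continuous_snd))⟩, ?_, ?_⟩⟩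
    · intro x
      exact bH_zero _
    · intro x
      rfl
  have hA0 : (⟨A, A.continuous⟩ : C(Sph (b + 2), Sph (b + 2))).Homotopic
      (ContinuousMap.const (Sph (b + 2)) (∞ : Sph (b + 2))) := hZ1.trans hZ0.symm
  have hfin := hA0.comp (ContinuousMap.Homotopic.refl
    (⟨A.symm, A.symm.continuous⟩ : C(Sph (b + 2), Sph (b + 2))))
  refine id_not_homotopic_const (b + 2) ∞ ?_
  have e1 : (⟨A, A.continuous⟩ : C(Sph (b + 2), Sph (b + 2))).comp
      (⟨A.symm, A.symm.continuous⟩ : C(Sph (b + 2), Sph (b + 2))) = ContinuousMap.id _ := by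
    ext1 x
    exact A.apply_symm_apply x
  have e2 : (ContinuousMap.const (Sph (b + 2)) (∞ : Sph (b + 2))).comp
      (⟨A.symm, A.symm.continuous⟩ : C(Sph (b + 2), Sph (b + 2))) =
      ContinuousMap.const (Sph (b + 2)) (∞ : Sph (b + 2)) := by
    ext1 x
    rfl
  rw [e1, e2] at hfin
  exact hfin

lemma not_homotopic_zrep (b : ℕ) (a : Rep P0.spec (-1)) (h : Rep.Homotopic (a.comp inclP) (zrep b)) :
    False := by
  obtain ⟨n, N, hN, g, hg⟩ := a
  simp only [Rep.comp, zrep] at h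
  cases h with
  | intro H => exact not_homotopic_z b _ _ (fun v => ⟨g v, rfl⟩) (fun v => rfl) H

/-- `X ∧ Y → X ∧ Y'` is not a stable equivalence. -/
theorem inclP_not_isStableEquiv : ¬ inclP.IsStableEquiv := by
  intro h
  obtain ⟨a, ha⟩ := (h (-1)).2 (Quot.mk _ (zrep 0))
  induction a using Quot.ind with
  | mk a =>
  obtain ⟨i, j, hij⟩ := StableGroup.mk_eq_iff.1 ((StableGroup.map_mk inclP a).symm.trans ha)
  rw [Rep.stab_iterate_comp, stab_iterate_zrep] at hij
  exact not_homotopic_zrep j _ hij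

end Pool.Agent.Work.MP_783066_gt
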