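import Mathlib
import Pool.Agent.Work.MP_783066_gt.Htpy
import Pool.Agent.Work.MP_783066_gt.Proper

/-!
# `Y → Y'` is a stable equivalence
-/

open OnePoint Topology Set Filter Matrix

namespace Pool.Agent.Work.MP_783066_gt

/-- The system of `Y`. -/
abbrev Y0 : DSys := sysY {0} isClosed_singleton

/-- The system of `Y'`. -/
abbrev YK : DSys := sysY K isClosed_K

lemma K_lt_one_iff {κ : ℝ} (hκ : κ ∈ K) (n : ℕ) : (n : ℝ) * κ < 1 ↔ ((n : ℝ) + 1) * κ ≤ 1 := by
  rcases hκ with rfl | ⟨j, rfl⟩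
  · simp
  · show (n : ℝ) * ((1 : ℝ) / (j + 1)) < 1 ↔ ((n : ℝ) + 1) * ((1 : ℝ) / (j + 1)) ≤ 1
    rw [mul_one_div, mul_one_div, div_lt_one (by positivity), div_le_one (by positivity)]
    constructor
    · intro h
      have : n < j + 1 := by exact_mod_cast h
      exact_mod_cast (by omega : n + 1 ≤ j + 1)
    · intro h
      have : n + 1 ≤ j + 1 := by exact_mod_cast h
      exact_mod_cast (by omega : n < j + 1)

/-- The levels `κ` which appear in level `n` form a compact set. -/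
lemma isCompact_Kn (n : ℕ) : IsCompact {κ : ℝ | κ ∈ K ∧ (n : ℝ) * κ < 1} := by
  have : {κ : ℝ | κ ∈ K ∧ (n : ℝ) * κ < 1} = K ∩ {κ : ℝ | ((n : ℝ) + 1) * κ ≤ 1} := by
    ext κ
    constructor
    · rintro ⟨h1, h2⟩; exact ⟨h1, (K_lt_one_iff h1 n).1 h2⟩
    · rintro ⟨h1, h2⟩; exact ⟨h1, (K_lt_one_iff h1 n).2 h2⟩
  rw [this]
  exact isCompact_K.inter_right (isClosed_le (by fun_prop) continuous_const)

/-- The retraction `Y'_n → Y_n`. -/
noncomputable def retr (n : ℕ) : OnePoint (YK.D n) → OnePoint (Y0.D n)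
  | ∞ => ∞
  | OnePoint.some e => Y0.of (e.1.1, 0, 0)

lemma mem_Y0 {n : ℕ} {w : Fin n → ℝ} : ((w, 0, 0) : E n) ∈ Y0.D n ↔ w ⬝ᵥ w < 1 := by
  rw [mem_sysY]
  simp

lemma continuous_retr (n : ℕ) : Continuous (retr n) := by
  refine Y0.continuous_of_map (A := YK.D n) (A' := E n) (ψ := fun e => (e.1.1, 0, 0))
    (F := retr n) rfl (fun a => rfl) ?_ ?_ (ι := Subtype.val) IsInducing.subtypeVal ?_
  · have : {a : YK.D n | ((a.1.1, 0, 0) : E n) ∈ Y0.D n} = univ := by
      ext a
      simp only [mem_ofPred_eq, mem_univ, iff_true]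
      rw [mem_Y0]
      exact (mem_sysY.1 a.2).2.2.1
    rw [this]
    exact isOpen_univ
  · exact Continuous.continuousOn (by fun_prop)
  · intro C hC hCc
    refine ⟨(fun p : E n × ℝ => ((p.1.1, 0, p.2) : E n)) ''
      (C ×ˢ {κ : ℝ | κ ∈ K ∧ (n : ℝ) * κ < 1}), (hCc.prod (isCompact_Kn n)).image (by fun_prop),
      ?_, ?_, ?_⟩
    · rintro _ ⟨⟨e, κ⟩, ⟨h1, h2, h3⟩, rfl⟩
      have h4 := mem_sysY.1 (hC h1)
      exact ⟨⟨(e.1, 0, κ), mem_sysY.2 ⟨rfl, h2, h4.2.2.1, h3⟩⟩, rfl⟩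
    · intro a _
      rw [mem_Y0]
      exact (mem_sysY.1 a.2).2.2.1
    · intro a ha
      have h4 := mem_sysY.1 a.2
      refine ⟨((a.1.1, 0, 0), a.1.2.2), ⟨ha, h4.2.1, h4.2.2.2⟩, ?_⟩
      exact Prod.ext rfl (Prod.ext h4.1.symm rfl)

lemma retr_inclY {n : ℕ} (x : Y0.spec.lev n) : retr n (inclY.map n x) = x := by
  rcases Y0.exists_of x with rfl | ⟨e, he, rfl⟩
  · rfl
  · have h1 := mem_sysY.1 he
    have h0 : e.2.2 = 0 := h1.2.1
    have h2 : e ∈ YK.D n := mem_sysY.2 ⟨h1.1, by rw [h0]; exact zero_mem_K, h1.2.2⟩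
    rw [inclY_of h0, YK.of_mem h2]
    show Y0.of (e.1, 0, 0) = Y0.of e
    congr 1
    exact Prod.ext rfl (Prod.ext h1.1.symm h0.symm)

/-! ### The scaling homotopy -/

/-- `(t, (w, ξ, κ)) ↦ ((1 + t) w, ξ, κ)`. -/
def scaleE {n : ℕ} (a : unitInterval × E n) : E n := ((1 + (a.1 : ℝ)) • a.2.1, a.2.2.1, a.2.2.2)

/-- The scaling homotopy on `Y_Λ`. -/
noncomputable def scaleH (Λ : Set ℝ) (hΛ : IsClosed Λ) (n : ℕ)
    (a : unitInterval × OnePoint ((sysY Λ hΛ).D n)) : OnePoint ((sysY Λ hΛ).D n) :=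
  match a.2 with
  | ∞ => ∞
  | OnePoint.some e => (sysY Λ hΛ).of (scaleE (a.1, e.1))

lemma scaleH_of (Λ : Set ℝ) (hΛ : IsClosed Λ) {n : ℕ} (t : unitInterval) {e : E n}
    (he : e ∈ (sysY Λ hΛ).D n) :
    scaleH Λ hΛ n (t, (sysY Λ hΛ).of e) = (sysY Λ hΛ).of (scaleE (t, e)) := by
  rw [DSys.of_mem _ he]; rfl

lemma continuous_scaleE {n : ℕ} : Continuous (scaleE (n := n)) := by
  unfold scaleE
  fun_prop

lemma scaleE_mem_iff {Λ : Set ℝ} {hΛ : IsClosed Λ} {n : ℕ} (t : unitInterval) {e : E n}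
    (he : e ∈ (sysY Λ hΛ).D n) : scaleE (t, e) ∈ (sysY Λ hΛ).D n ↔ scaleE (t, e) ∈ VY n := by
  have h := mem_sysY.1 he
  constructor
  · intro h2; exact h2.2
  · intro h2; exact ⟨⟨h.1, h.2.1⟩, h2⟩

lemma continuous_scaleH (Λ : Set ℝ) (hΛ : IsClosed Λ) (n : ℕ) :
    Continuous (scaleH Λ hΛ n) := by
  set S := sysY Λ hΛ with hS
  let F : OnePoint (unitInterval × S.D n) → OnePoint (S.D n)
    | ∞ => ∞
    | OnePoint.some a => S.of (scaleE (a.1, a.2.1))
  have hF : Continuous F := by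
    have hψ : Continuous fun a : unitInterval × S.D n => scaleE (a.1, a.2.1) :=
      continuous_scaleE.comp (by fun_prop)
    refine S.continuous_of_map (A := unitInterval × S.D n) (A' := unitInterval × E n)
      (ψ := fun a => scaleE (a.1, a.2.1)) (F := F) rfl (fun a => rfl) ?_ hψ.continuousOn
      (ι := fun a => (a.1, a.2.1)) ?_ ?_
    · have : {a : unitInterval × S.D n | scaleE (a.1, a.2.1) ∈ S.D n} =
          (fun a : unitInterval × S.D n => scaleE (a.1, a.2.1)) ⁻¹' VY n := by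
        ext a
        exact scaleE_mem_iff a.1 a.2.2
      rw [this]
      exact (isOpen_VY n).preimage hψ
    · exact (IsInducing.id).prodMap IsInducing.subtypeVal
    · intro C hC hCc
      have hinv : Continuous fun p : unitInterval × E n =>
          ((p.1, ((1 + (p.1 : ℝ))⁻¹ • p.2.1, p.2.2.1, p.2.2.2)) : unitInterval × E n) := by
        have h1 : Continuous fun p : unitInterval × E n => (1 + (p.1 : ℝ))⁻¹ := by
          refine Continuous.inv₀ (by fun_prop) fun p => ?_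
          have := p.1.2.1
          positivity
        fun_prop
      refine ⟨(fun p : unitInterval × E n =>
          ((p.1, ((1 + (p.1 : ℝ))⁻¹ • p.2.1, p.2.2.1, p.2.2.2)) : unitInterval × E n)) ''
          (univ ×ˢ C), (isCompact_univ.prod hCc).image hinv, ?_, ?_, ?_⟩
      · rintro _ ⟨⟨t, e⟩, ⟨_, he⟩, rfl⟩
        have h1 := mem_sysY.1 (hC he)
        refine ⟨(t, ⟨((1 + (t : ℝ))⁻¹ • e.1, e.2.1, e.2.2), ?_⟩), rfl⟩
        refine mem_sysY.2 ⟨h1.1, h1.2.1, ?_, h1.2.2.2⟩
        show ((1 + (t : ℝ))⁻¹ • e.1) ⬝ᵥ ((1 + (t : ℝ))⁻¹ • e.1) < 1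
        rw [smul_dotProduct, dotProduct_smul, smul_eq_mul, smul_eq_mul]
        have ht := t.2.1
        have h2 : (1 + (t : ℝ))⁻¹ ≤ 1 := inv_le_one_of_one_le₀ (by linarith)
        have h3 : 0 ≤ (1 + (t : ℝ))⁻¹ := by positivity
        have h4 := dot_self_nonneg e.1
        have h5 : e.1 ⬝ᵥ e.1 < 1 := h1.2.2.1
        have h6 : (1 + (t : ℝ))⁻¹ * (e.1 ⬝ᵥ e.1) ≤ e.1 ⬝ᵥ e.1 := by nlinarith
        have h7 : 0 ≤ (1 + (t : ℝ))⁻¹ * (e.1 ⬝ᵥ e.1) := by positivity
        nlinarith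
      · rintro a ⟨⟨t, e⟩, ⟨_, he⟩, hae⟩
        have h1 : a.1 = t := (congrArg Prod.fst hae).symm
        have h2 : a.2.1 = ((1 + (t : ℝ))⁻¹ • e.1, e.2.1, e.2.2) := (congrArg Prod.snd hae).symm
        have h3 : scaleE (a.1, a.2.1) = e := by
          rw [h1, h2, scaleE]
          have ht := t.2.1
          have : (1 + (t : ℝ)) ≠ 0 := by positivity
          simp [smul_smul, this]
        rw [h3]
        exact hC he
      · intro a ha
        refine ⟨(a.1, scaleE (a.1, a.2.1)), ⟨mem_univ _, ha⟩, ?_⟩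
        have ht := a.1.2.1
        have : (1 + (a.1 : ℝ)) ≠ 0 := by positivity
        simp [scaleE, smul_smul, this]
  have h2 : scaleH Λ hΛ n = fun a => F (collapse ((a.1 : OnePoint unitInterval), a.2)) := by
    funext ⟨t, x⟩
    induction x using OnePoint.rec with
    | infty => rfl
    | coe x => rfl
  rw [h2]
  refine hF.comp (continuous_collapse.comp ?_)
  exact (OnePoint.continuous_coe.comp continuous_fst).prodMk continuous_snd

lemma scaleH_zero (Λ : Set ℝ) (hΛ : IsClosed Λ) (n : ℕ) (x : OnePoint ((sysY Λ hΛ).D n)) :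
    scaleH Λ hΛ n (0, x) = x := by
  rcases (sysY Λ hΛ).exists_of x with rfl | ⟨e, he, rfl⟩
  · rfl
  · rw [scaleH_of _ _ _ he]
    congr 1
    simp [scaleE]

lemma scaleH_infty (Λ : Set ℝ) (hΛ : IsClosed Λ) (n : ℕ) (t : unitInterval) :
    scaleH Λ hΛ n (t, ∞) = ∞ := rfl

lemma scaleH_one (Λ : Set ℝ) (hΛ : IsClosed Λ) {n : ℕ} {e : E n} (he : e ∈ (sysY Λ hΛ).D n)
    (h4 : 1 / 4 < e.1 ⬝ᵥ e.1) : scaleH Λ hΛ n (1, (sysY Λ hΛ).of e) = ∞ := by
  rw [scaleH_of _ _ _ he, DSys.of_notMem]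
  rw [mem_sysY]
  rintro ⟨_, _, h5, _⟩
  simp only [scaleE, smul_dotProduct, dotProduct_smul, smul_eq_mul, Set.Icc.coe_one] at h5
  linarith

/-! ### Local constancy -/

/-- The coordinate `κ` of a point of `Y'_n`. -/
def kap {n : ℕ} : OnePoint (YK.D n) → ℝ
  | ∞ => 0
  | OnePoint.some e => e.1.2.2

/-- The points of `Y'_n` with `κ = 0` or `1 ≤ M κ`, and the base point. -/
def Good {n : ℕ} (M : ℕ) (x : OnePoint (YK.D n)) : Prop :=
  x = ∞ ∨ kap x = 0 ∨ 1 ≤ (M : ℝ) * kap x

lemma kap_nonneg {n : ℕ} (x : OnePoint (YK.D n)) : 0 ≤ kap x := by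
  induction x using OnePoint.rec with
  | infty => exact le_rfl
  | coe e => exact K_nonneg (mem_sysY.1 e.2).2.1

lemma Good.mono {n : ℕ} {M M' : ℕ} (h : M ≤ M') {x : OnePoint (YK.D n)} (hx : Good M x) :
    Good M' x := by
  rcases hx with h1 | h1 | h1
  · exact Or.inl h1
  · exact Or.inr (Or.inl h1)
  · refine Or.inr (Or.inr (h1.trans ?_))
    exact mul_le_mul_of_nonneg_right (by exact_mod_cast h) (kap_nonneg x)

lemma countable_K : K.Countable := (countable_range _).insert 0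

lemma exists_good {n N : ℕ} (g : C(Sph N, OnePoint (YK.D n))) (hg : g ∞ = ∞) :
    ∃ M : ℕ, ∀ v, (∀ e : YK.D n, g v = e → e.1.1 ⬝ᵥ e.1.1 ≤ 1 / 4) → Good M (g v) := by
  set T : Set (OnePoint (YK.D n)) := (↑) '' {e : YK.D n | e.1.1 ⬝ᵥ e.1.1 ≤ 1 / 4} with hT
  have hTc : IsCompact T := by
    refine IsCompact.image ?_ OnePoint.continuous_coe
    rw [IsInducing.subtypeVal.isCompact_iff]
    have hball : IsCompact {w : Fin n → ℝ | w ⬝ᵥ w ≤ 1 / 4} := by
      refine Metric.isCompact_of_isClosed_isBounded ?_ ?_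
      · exact isClosed_le (continuous_dot_comp continuous_id continuous_id) continuous_const
      · rw [isBounded_iff_forall_norm_le]
        refine ⟨1, fun w hw => ?_⟩
        rw [pi_norm_le_iff_of_nonneg zero_le_one]
        intro i
        have h1 : w i * w i ≤ w ⬝ᵥ w := by
          simp only [dotProduct]
          exact Finset.single_le_sum (f := fun i => w i * w i) (fun i _ => mul_self_nonneg _)
            (Finset.mem_univ i)
        have h2 : w ⬝ᵥ w ≤ 1 / 4 := hw
        rw [Real.norm_eq_abs, abs_le]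
        constructor <;> nlinarith
    have himg : Subtype.val '' {e : YK.D n | e.1.1 ⬝ᵥ e.1.1 ≤ 1 / 4} =
        (fun p : (Fin n → ℝ) × ℝ => ((p.1, 0, p.2) : E n)) ''
          ({w : Fin n → ℝ | w ⬝ᵥ w ≤ 1 / 4} ×ˢ {κ : ℝ | κ ∈ K ∧ (n : ℝ) * κ < 1}) := by
      ext e
      constructor
      · rintro ⟨e, he, rfl⟩
        have h1 := mem_sysY.1 e.2
        exact ⟨(e.1.1, e.1.2.2), ⟨he, h1.2.1, h1.2.2.2⟩, Prod.ext rfl (Prod.ext h1.1.symm rfl)⟩
      · rintro ⟨⟨w, κ⟩, ⟨h1, h2, h3⟩, rfl⟩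
        have h1' : w ⬝ᵥ w ≤ 1 / 4 := h1
        exact ⟨⟨(w, 0, κ), mem_sysY.2 ⟨rfl, h2, by simp only; linarith, h3⟩⟩, h1, rfl⟩
    rw [himg]
    exact (hball.prod (isCompact_Kn n)).image (by fun_prop)
  have hP : IsCompact (g ⁻¹' T) := (hTc.isClosed.preimage g.continuous).isCompact
  obtain ⟨M, hM⟩ : ∃ M : ℕ, ∀ v ∈ g ⁻¹' T, Good M (g v) := by
    refine hP.induction_on (p := fun s => ∃ M : ℕ, ∀ v ∈ s, Good M (g v)) ⟨0, by simp⟩ ?_ ?_ ?_
    · rintro s t hst ⟨M, hM⟩
      exact ⟨M, fun v hv => hM v (hst hv)⟩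
    · rintro s t ⟨M, hM⟩ ⟨M', hM'⟩
      refine ⟨max M M', ?_⟩
      rintro v (hv | hv)
      · exact (hM v hv).mono (le_max_left _ _)
      · exact (hM' v hv).mono (le_max_right _ _)
    · intro v hv
      -- `v` is a finite point
      have hvne : g v ≠ ∞ := by
        obtain ⟨e, _, he⟩ := hv
        rw [← he]
        exact OnePoint.coe_ne_infty _
      induction v using OnePoint.rec with
      | infty => exact absurd hg hvne
      | coe v =>
        have hUopen : IsOpen {v : Fin N → ℝ | g v ≠ ∞} := by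
          have h1 : IsOpen ({∞}ᶜ : Set (OnePoint (YK.D n))) := isClosed_singleton.isOpen_compl
          exact h1.preimage (g.continuous.comp OnePoint.continuous_coe)
        obtain ⟨W, hW1, hW2, hW3, hW4⟩ : ∃ W : Set (Fin N → ℝ), IsOpen W ∧ v ∈ W ∧
            W ⊆ {v : Fin N → ℝ | g v ≠ ∞} ∧ IsPreconnected W := by
          obtain ⟨ε, hε, hball⟩ := Metric.isOpen_iff.1 hUopen v hvne
          exact ⟨Metric.ball v ε, Metric.isOpen_ball, Metric.mem_ball_self hε, hball,
            (convex_ball v ε).isPreconnected⟩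
        have hcont : ContinuousOn (fun v : Fin N → ℝ => kap (g v)) W := by
          intro v' hv'
          have hne := hW3 hv'
          obtain ⟨e, he⟩ := OnePoint.ne_infty_iff_exists.1 hne
          have h1 : ContinuousAt (kap : OnePoint (YK.D n) → ℝ) (g v') := by
            rw [← he, OnePoint.continuousAt_coe]
            have : (kap : OnePoint (YK.D n) → ℝ) ∘ (↑) = fun e : YK.D n => e.1.2.2 := rfl
            rw [this]
            have h2 : Continuous fun e : YK.D n => e.1.2.2 := by fun_prop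
            exact h2.continuousAt
          have h3 : ContinuousAt (fun v : Fin N → ℝ => g v) v' :=
            (g.continuous.comp OnePoint.continuous_coe).continuousAt
          exact (ContinuousAt.comp (g := kap) (f := fun v : Fin N → ℝ => g v) h1 h3).continuousWithinAt
        have hconst : ∀ v' ∈ W, kap (g v') = kap (g v) := by
          intro v' hv'
          have h1 : (fun v : Fin N → ℝ => kap (g v)) '' W ⊆ K := by
            rintro _ ⟨v'', hv'', rfl⟩
            obtain ⟨e, he⟩ := OnePoint.ne_infty_iff_exists.1 (hW3 hv'')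
            show kap (g v'') ∈ K
            rw [← he]
            exact (mem_sysY.1 e.2).2.1
          have h2 := countable_K.isTotallyDisconnected _ h1 (hW4.image _ hcont)
          exact h2 ⟨v', hv', rfl⟩ ⟨v, hW2, rfl⟩
        obtain ⟨M, hM⟩ : ∃ M : ℕ, Good M (g v) := by
          by_cases h0 : kap (g v) = 0
          · exact ⟨0, Or.inr (Or.inl h0)⟩
          · have h1 : 0 < kap (g v) := lt_of_le_of_ne (kap_nonneg _) (Ne.symm h0)
            obtain ⟨M, hM⟩ := exists_nat_ge (1 / kap (g v))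
            refine ⟨M, Or.inr (Or.inr ?_)⟩
            rw [div_le_iff₀ h1] at hM
            exact hM
        refine ⟨(↑) '' W, mem_nhdsWithin_of_mem_nhds ?_, M, ?_⟩
        · exact (OnePoint.isOpenMap_coe W hW1).mem_nhds ⟨v, hW2, rfl⟩
        · rintro _ ⟨v', hv', rfl⟩
          right
          rw [hconst v' hv']
          rcases hM with h | h
          · exact absurd h hvne
          · exact h
  refine ⟨M, fun v hv => ?_⟩
  by_cases h : g v = ∞
  · exact Or.inl h
  · obtain ⟨e, he⟩ := OnePoint.ne_infty_iff_exists.1 h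
    refine hM v ⟨e, hv e he.symm, he⟩

lemma kap_of {n : ℕ} {e : E n} (h : e ∈ YK.D n) : kap (YK.of e) = e.2.2 := by
  rw [YK.of_mem h]; rfl

lemma Good.str {n M : ℕ} {x : OnePoint (YK.D n)} (hx : Good M x) (s : OnePoint ℝ) :
    Good M (YK.strFun n x s) := by
  rcases YK.exists_of x with rfl | ⟨e, he, rfl⟩
  · exact Or.inl rfl
  · induction s using OnePoint.rec with
    | infty => exact Or.inl (by simp)
    | coe s =>
      rw [YK.strFun_of]
      by_cases h : ext e s ∈ YK.D (n + 1)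
      · right
        rw [kap_of h]
        show e.2.2 = 0 ∨ 1 ≤ (M : ℝ) * e.2.2
        rcases hx with h1 | h1
        · exact absurd (YK.of_eq_infty_iff.1 h1) (not_not_intro he)
        · rwa [kap_of he] at h1
      · exact Or.inl (YK.of_notMem h)

/-- A representative all of whose points are good. -/
def GoodRep {k : ℤ} (M : ℕ) (a : Rep YK.spec k) : Prop := ∀ v, Good M (a.g v)

lemma GoodRep.stab {k : ℤ} {M : ℕ} {a : Rep YK.spec k} (h : GoodRep M a) : GoodRep M a.stab := by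
  intro v
  induction v using OnePoint.rec with
  | infty => exact Or.inl rfl
  | coe v => exact (h _).str _

lemma GoodRep.stab_iterate {k : ℤ} {M : ℕ} {a : Rep YK.spec k} (h : GoodRep M a) (i : ℕ) :
    GoodRep M (Rep.stab^[i] a) := by
  induction i with
  | zero => exact h
  | succ i ih => rw [Function.iterate_succ_apply']; exact ih.stab

lemma stab_iterate_n {X : OrthSpectrum} {k : ℤ} (a : Rep X k) (i : ℕ) :
    (Rep.stab^[i] a).n = a.n + i := by
  induction i with
  | zero => rfl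
  | succ i ih =>
    rw [Function.iterate_succ_apply']
    show (Rep.stab^[i] a).n + 1 = _
    rw [ih]; rfl

lemma inclY_retr {n M : ℕ} (hM : M ≤ n) {x : OnePoint (YK.D n)} (hx : Good M x) :
    inclY.map n (retr n x) = x := by
  rcases YK.exists_of x with rfl | ⟨e, he, rfl⟩
  · rfl
  · rcases hx with h1 | h1
    · exact absurd (YK.of_eq_infty_iff.1 h1) (not_not_intro he)
    · rw [kap_of he] at h1
      have h2 := mem_sysY.1 he
      have h0 : e.2.2 = 0 := by
        rcases h1 with h1 | h1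
        · exact h1
        · exfalso
          have h3 : (M : ℝ) * e.2.2 ≤ n * e.2.2 :=
            mul_le_mul_of_nonneg_right (by exact_mod_cast hM) (K_nonneg h2.2.1)
          linarith [h2.2.2.2]
      have h3 : retr n (YK.of e) = Y0.of e := by
        rw [YK.of_mem he]
        show Y0.of (e.1, 0, 0) = Y0.of e
        congr 1
        exact Prod.ext rfl (Prod.ext h2.1.symm h0.symm)
      rw [h3]
      exact inclY_of h0

lemma good_scale {n N : ℕ} (g : C(Sph N, OnePoint (YK.D n))) {M : ℕ}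
    (hM : ∀ v, (∀ e : YK.D n, g v = e → e.1.1 ⬝ᵥ e.1.1 ≤ 1 / 4) → Good M (g v)) (v : Sph N) :
    Good M (scaleH K isClosed_K n (1, g v)) := by
  by_cases h : ∀ e : YK.D n, g v = e → e.1.1 ⬝ᵥ e.1.1 ≤ 1 / 4
  · have h1 := hM v h
    rcases YK.exists_of (g v) with h2 | ⟨e, he, h2⟩
    · left
      rw [h2]; rfl
    · rw [h2] at h1 ⊢
      rw [scaleH_of _ _ _ he]
      by_cases h3 : scaleE (1, e) ∈ YK.D n
      · right
        rw [kap_of h3]
        rcases h1 with h1 | h1
        · exact absurd (YK.of_eq_infty_iff.1 h1) (not_not_intro he)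
        · rwa [kap_of he] at h1
      · left
        exact YK.of_notMem h3
  · push Not at h
    obtain ⟨e, he, h4⟩ := h
    left
    rw [he, YK.coe_eq_of e]
    exact scaleH_one _ _ e.2 h4

lemma exists_goodRep {k : ℤ} (b : Rep YK.spec k) :
    ∃ b' : Rep YK.spec k, Rep.Homotopic b b' ∧ ∃ M, GoodRep M b' := by
  obtain ⟨n, N, hN, g, hg⟩ := b
  obtain ⟨M, hM⟩ := exists_good (n := n) g hg
  have hcont : Continuous fun p : unitInterval × Sph N =>
      (scaleH K isClosed_K n (p.1, g p.2) : YK.spec.lev n) :=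
    (continuous_scaleH K isClosed_K n).comp (by fun_prop)
  refine ⟨⟨n, N, hN, ⟨fun v => scaleH K isClosed_K n (1, g v),
      hcont.comp (continuous_const.prodMk continuous_id)⟩, ?_⟩,
    Rep.homotopic_of (fun p => scaleH K isClosed_K n (p.1, g p.2)) hcont ?_ ?_ ?_, M, ?_⟩
  · show scaleH K isClosed_K n (1, g ∞) = ∞
    rw [hg]; rfl
  · intro x
    exact scaleH_zero _ _ _ _
  · intro x; rfl
  · intro t
    show scaleH K isClosed_K n (t, g ∞) = ∞
    rw [hg]; rfl
  · exact good_scale g hM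

/-- `Y → Y'` is a stable equivalence. -/
theorem inclY_isStableEquiv : inclY.IsStableEquiv := by
  intro k
  refine ⟨StableGroup.map_injective retr continuous_retr fun n x => retr_inclY x, ?_⟩
  intro b
  induction b using Quot.ind with
  | mk b =>
  obtain ⟨b', hb', M, hM⟩ := exists_goodRep b
  have hM2 := hM.stab_iterate M
  have hMn : M ≤ (Rep.stab^[M] b').n := by rw [stab_iterate_n]; omega
  have key : ∃ a : Rep Y0.spec k, a.comp inclY = Rep.stab^[M] b' := by
    generalize Rep.stab^[M] b' = c at hM2 hMn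
    obtain ⟨n, N, hN, g, hg⟩ := c
    refine ⟨⟨n, N, hN, ⟨fun v => retr n (g v), (continuous_retr n).comp g.continuous⟩, ?_⟩, ?_⟩
    · show retr n (g ∞) = ∞
      rw [hg]; rfl
    · simp only [Rep.comp, Rep.mk.injEq, heq_eq_eq, true_and]
      ext v
      exact inclY_retr hMn (hM2 v)
  obtain ⟨a, ha⟩ := key
  refine ⟨Quot.mk _ a, ?_⟩
  refine (StableGroup.map_mk inclY a).trans (StableGroup.mk_eq_iff.2 ⟨0, M, ?_⟩)
  show Rep.Homotopic (a.comp inclY) _
  rw [ha]
  exact (hb'.stab_iterate M).symm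

end Pool.Agent.Work.MP_783066_gt
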