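import Mathlib
import Pool.Agent.Work.MP_783066_gt.StableY
import Pool.Agent.Work.MP_783066_gt.Spheres

/-!
# Nondegenerate base points
-/

open OnePoint Topology Set Filter Matrix

namespace Pool.Agent.Work.MP_783066_gt

lemma wellPointed_of {A : Type} [TopologicalSpace A] [T2Space A] (u : A → ℝ) (hu : Continuous u)
    (h0 : ∀ a, 0 < u a) (hK : ∀ ε : ℝ, 0 < ε → ∃ K' : Set A, IsCompact K' ∧ ∀ a ∉ K', u a < ε)
    (h : unitInterval × OnePoint A → OnePoint A) (hc : Continuous h) (hh0 : ∀ x, h (0, x) = x)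
    (hinf : ∀ t, h (t, ∞) = ∞) (h1 : ∀ a : A, u a < 1 → h (1, a) = ∞) :
    WellPointed (∞ : OnePoint A) := by
  let v : OnePoint A → unitInterval
    | ∞ => 0
    | OnePoint.some a => ⟨min 1 (u a), le_min zero_le_one (h0 a).le, min_le_left _ _⟩
  have hv : Continuous v := by
    rw [continuous_iff_continuousAt]
    intro x
    induction x using OnePoint.rec with
    | infty =>
      rw [ContinuousAt, OnePoint.tendsto_nhds_infty]
      intro s hs
      have hs' : s ∈ 𝓝 (0 : unitInterval) := hs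
      refine ⟨mem_of_mem_nhds hs', ?_⟩
      obtain ⟨ε, hε, hball⟩ := Metric.mem_nhds_iff.1 hs'
      obtain ⟨K', hK1, hK2⟩ := hK ε hε
      refine ⟨K', hK1.isClosed, hK1, ?_⟩
      intro a ha
      apply hball
      rw [Metric.mem_ball, Subtype.dist_eq, Real.dist_eq]
      show |min 1 (u a) - 0| < ε
      rw [sub_zero, abs_of_nonneg (le_min zero_le_one (h0 a).le)]
      exact lt_of_le_of_lt (min_le_right _ _) (hK2 a ha)
    | coe a =>
      rw [OnePoint.continuousAt_coe]
      have : Continuous (v ∘ ((↑) : A → OnePoint A)) :=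
        Continuous.subtype_mk (continuous_const.min hu) _
      exact this.continuousAt
  refine ⟨⟨v, hv⟩, ⟨h, hc⟩, ?_, hh0, hinf, ?_⟩
  · intro x
    induction x using OnePoint.rec with
    | infty => exact ⟨fun _ => rfl, fun _ => rfl⟩
    | coe a =>
      constructor
      · intro h2
        have h3 : min 1 (u a) = 0 := congrArg Subtype.val h2
        have h4 : 0 < min 1 (u a) := lt_min one_pos (h0 a)
        linarith
      · intro h2
        exact absurd h2 (OnePoint.coe_ne_infty a)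
  · intro x hx
    induction x using OnePoint.rec with
    | infty => exact hinf 1
    | coe a =>
      refine h1 a ?_
      have h2 : min 1 (u a) < 1 := hx
      rcases min_lt_iff.1 h2 with h3 | h3
      · exact absurd h3 (lt_irrefl _)
      · exact h3

/-- The base points of `Y_Λ` are nondegenerate. -/
lemma wellPointed_sysY {Λ : Set ℝ} (hΛ : IsClosed Λ) (hK : Λ ⊆ K) (n : ℕ) :
    WellPointed (∞ : OnePoint ((sysY Λ hΛ).D n)) := by
  have hww : Continuous fun e : (sysY Λ hΛ).D n => e.1.1 ⬝ᵥ e.1.1 :=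
    continuous_dot_comp (by fun_prop) (by fun_prop)
  refine wellPointed_of (fun e => 4 / 3 * (1 - e.1.1 ⬝ᵥ e.1.1)) (by fun_prop) ?_ ?_
    (scaleH Λ hΛ n) (continuous_scaleH Λ hΛ n) (scaleH_zero Λ hΛ n) (scaleH_infty Λ hΛ n) ?_
  · intro e
    have := (mem_sysY.1 e.2).2.2.1
    show 0 < 4 / 3 * (1 - e.1.1 ⬝ᵥ e.1.1)
    linarith
  · intro ε hε
    refine ⟨{e | e.1.1 ⬝ᵥ e.1.1 ≤ 1 - 3 / 4 * ε}, ?_, ?_⟩
    · rw [IsInducing.subtypeVal.isCompact_iff]
      have himg : Subtype.val '' {e : (sysY Λ hΛ).D n | e.1.1 ⬝ᵥ e.1.1 ≤ 1 - 3 / 4 * ε} =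
          (fun p : (Fin n → ℝ) × ℝ => ((p.1, 0, p.2) : E n)) ''
            ({w : Fin n → ℝ | w ⬝ᵥ w ≤ 1 - 3 / 4 * ε} ×ˢ
              (Λ ∩ {κ : ℝ | κ ∈ K ∧ (n : ℝ) * κ < 1})) := by
        ext e
        constructor
        · rintro ⟨e, he, rfl⟩
          have h1 := mem_sysY.1 e.2
          exact ⟨(e.1.1, e.1.2.2), ⟨he, h1.2.1, hK h1.2.1, h1.2.2.2⟩,
            Prod.ext rfl (Prod.ext h1.1.symm rfl)⟩
        · rintro ⟨⟨w, κ⟩, ⟨h1, h2, h2', h3⟩, rfl⟩
          have h1' : w ⬝ᵥ w ≤ 1 - 3 / 4 * ε := h1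
          exact ⟨⟨(w, 0, κ), mem_sysY.2 ⟨rfl, h2, by simp only; linarith, h3⟩⟩, h1, rfl⟩
      rw [himg]
      exact ((isCompact_dot_le _).prod ((isCompact_Kn n).inter_left hΛ)).image (by fun_prop)
    · intro e he
      have he' : ¬ e.1.1 ⬝ᵥ e.1.1 ≤ 1 - 3 / 4 * ε := he
      show 4 / 3 * (1 - e.1.1 ⬝ᵥ e.1.1) < ε
      linarith
  · intro e he
    have he' : 4 / 3 * (1 - e.1.1 ⬝ᵥ e.1.1) < 1 := he
    rw [DSys.coe_eq_of]
    exact scaleH_one Λ hΛ e.2 (by linarith)

/-! ### The levels of `X` -/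

/-- `μ(t, N) = max(0, 1 - t max(0, N - 4))`. -/
noncomputable def mu (t N : ℝ) : ℝ := max 0 (1 - t * max 0 (N - 4))

/-- `c(t, N)`, the scaling factor. -/
noncomputable def cc (t N : ℝ) : ℝ := Real.sqrt ((max N 4 - mu t N ^ 2) / (max N 4 - 1))

lemma mu_nonneg (t N : ℝ) : 0 ≤ mu t N := le_max_left _ _

lemma mu_le_one {t : ℝ} (ht : 0 ≤ t) (N : ℝ) : mu t N ≤ 1 := by
  refine max_le zero_le_one ?_
  have : 0 ≤ t * max 0 (N - 4) := mul_nonneg ht (le_max_left _ _)
  linarith

lemma mu_eq_one {t N : ℝ} (hN : N ≤ 4) : mu t N = 1 := by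
  rw [mu, max_eq_left (by linarith : N - 4 ≤ 0)]
  simp

lemma mu_zero_left (N : ℝ) : mu 0 N = 1 := by simp [mu]

lemma continuous_mu : Continuous fun p : ℝ × ℝ => mu p.1 p.2 := by
  unfold mu; fun_prop

lemma continuous_cc : Continuous fun p : ℝ × ℝ => cc p.1 p.2 := by
  unfold cc
  refine Real.continuous_sqrt.comp (Continuous.div ?_ (by fun_prop) ?_)
  · exact (by fun_prop : Continuous fun p : ℝ × ℝ => max p.2 4).sub (continuous_mu.pow 2)
  · intro p
    have := le_max_right p.2 4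
    intro h
    linarith

lemma cc_eq_one {t N : ℝ} (hN : N ≤ 4) : cc t N = 1 := by
  rw [cc, mu_eq_one hN, max_eq_right hN]
  norm_num

lemma cc_zero_left (N : ℝ) : cc 0 N = 1 := by
  rw [cc, mu_zero_left, one_pow, div_self, Real.sqrt_one]
  have := le_max_right N 4
  intro h
  linarith

lemma cc_sq {t N : ℝ} (ht : 0 ≤ t) (hN : 4 ≤ N) : cc t N ^ 2 * (N - 1) = N - mu t N ^ 2 := by
  have h1 := mu_nonneg t N
  have h2 := mu_le_one ht N
  have h3 : 0 < N - 1 := by linarith
  rw [cc, max_eq_left hN, Real.sq_sqrt]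
  · field_simp
  · apply div_nonneg _ h3.le
    nlinarith

/-- The contraction of a neighbourhood of infinity in `X_n`. -/
noncomputable def xE {n : ℕ} (a : ℝ × E n) : E n :=
  ((mu a.1 (a.2.1 ⬝ᵥ a.2.1))⁻¹ • a.2.1,
    cc a.1 (a.2.1 ⬝ᵥ a.2.1) • a.2.2.1 +
      ((mu a.1 (a.2.1 ⬝ᵥ a.2.1) - cc a.1 (a.2.1 ⬝ᵥ a.2.1)) * (a.2.1 ⬝ᵥ a.2.2.1) /
        max (a.2.1 ⬝ᵥ a.2.1) 4) • a.2.1,
    if 0 < mu a.1 (a.2.1 ⬝ᵥ a.2.1) then 0 else 1)

lemma xE_mem_iff {n : ℕ} {t : ℝ} (ht : 0 ≤ t) {e : E n} (he : e ∈ sysX.D n) :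
    xE (t, e) ∈ sysX.D n ↔ 0 < mu t (e.1 ⬝ᵥ e.1) := by
  rw [mem_sysX_iff] at he ⊢
  obtain ⟨⟨h1, h2, _⟩, _⟩ := he
  constructor
  · rintro ⟨_, h4⟩
    by_contra h5
    simp only [xE, if_neg h5] at h4
    exact one_ne_zero h4
  · intro hμ
    set N := e.1 ⬝ᵥ e.1 with hN
    set μ := mu t N with hμd
    set c := cc t N with hcd
    set s := e.1 ⬝ᵥ e.2.1 with hs
    have hs' : e.2.1 ⬝ᵥ e.1 = s := dotProduct_comm _ _
    -- the two identities
    have key1 : c + (μ - c) / max N 4 * N = μ := by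
      rcases le_total N 4 with h | h
      · rw [hμd, hcd, mu_eq_one h, cc_eq_one h]; simp
      · rw [max_eq_left h]
        have : N ≠ 0 := by intro h0; linarith
        field_simp
        ring
    have key2 : c ^ 2 + 2 * c * ((μ - c) / max N 4) + ((μ - c) / max N 4) ^ 2 * N = 1 := by
      rcases le_total N 4 with h | h
      · rw [hμd, hcd, mu_eq_one h, cc_eq_one h]; simp
      · rw [max_eq_left h]
        have h0 : N ≠ 0 := by intro h0; linarith
        have h3 := cc_sq ht h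
        rw [← hμd, ← hcd] at h3
        field_simp
        nlinarith
    refine ⟨⟨?_, ?_, mem_univ _⟩, by simp only [xE]; exact if_pos hμ⟩
    · have : (xE (t, e)).1 ⬝ᵥ (xE (t, e)).2.1 = s := by
        simp only [xE, dotProduct_add, smul_dotProduct, dotProduct_smul, smul_eq_mul]
        rw [← hN, ← hμd, ← hcd, ← hs]
        have : c * s + (μ - c) * s / max N 4 * N = μ * s := by
          linear_combination s * key1
        have h6 : μ⁻¹ * (c * s) + (μ - c) * s / max N 4 * (μ⁻¹ * N) =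
          μ⁻¹ * (c * s + (μ - c) * s / max N 4 * N) := by ring
        rw [this] at h6
        have h7 : μ⁻¹ * (μ * s) = s := by field_simp
        linarith
      rw [this]
      exact h1
    · have e1 : (xE (t, e)).1 ⬝ᵥ (xE (t, e)).2.1 = s := by
        simp only [xE, dotProduct_add, smul_dotProduct, dotProduct_smul, smul_eq_mul]
        rw [← hN, ← hμd, ← hcd, ← hs]
        have : c * s + (μ - c) * s / max N 4 * N = μ * s := by
          linear_combination s * key1
        have h6 : μ⁻¹ * (c * s) + (μ - c) * s / max N 4 * (μ⁻¹ * N) =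
          μ⁻¹ * (c * s + (μ - c) * s / max N 4 * N) := by ring
        rw [this] at h6
        have h7 : μ⁻¹ * (μ * s) = s := by field_simp
        linarith
      rw [e1]
      simp only [xE, dotProduct_add, add_dotProduct, smul_dotProduct, dotProduct_smul, smul_eq_mul]
      rw [← hN, ← hμd, ← hcd, ← hs, hs', h2]
      linear_combination s ^ 2 * key2

lemma continuousOn_xE {n : ℕ} :
    ContinuousOn (xE (n := n)) {a | 0 < mu a.1 (a.2.1 ⬝ᵥ a.2.1)} := by
  have hN : Continuous fun a : ℝ × E n => a.2.1 ⬝ᵥ a.2.1 :=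
    continuous_dot_comp (by fun_prop) (by fun_prop)
  have hs : Continuous fun a : ℝ × E n => a.2.1 ⬝ᵥ a.2.2.1 :=
    continuous_dot_comp (by fun_prop) (by fun_prop)
  have hμ : Continuous fun a : ℝ × E n => mu a.1 (a.2.1 ⬝ᵥ a.2.1) :=
    continuous_mu.comp (continuous_fst.prodMk hN)
  have hc : Continuous fun a : ℝ × E n => cc a.1 (a.2.1 ⬝ᵥ a.2.1) :=
    continuous_cc.comp (continuous_fst.prodMk hN)
  have hop : IsOpen {a : ℝ × E n | 0 < mu a.1 (a.2.1 ⬝ᵥ a.2.1)} :=
    isOpen_lt continuous_const hμ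
  refine ContinuousOn.prodMk ?_ (ContinuousOn.prodMk ?_ ?_)
  · refine ContinuousOn.smul (ContinuousOn.inv₀ hμ.continuousOn fun a ha => ?_)
      (Continuous.continuousOn (by fun_prop))
    have ha' : 0 < mu a.1 (a.2.1 ⬝ᵥ a.2.1) := ha
    exact ha'.ne'
  · refine Continuous.continuousOn ?_
    have g1 : Continuous fun a : ℝ × E n => a.2.2.1 := by fun_prop
    have g2 : Continuous fun a : ℝ × E n => a.2.1 := by fun_prop
    have g3 : Continuous fun a : ℝ × E n =>
        (mu a.1 (a.2.1 ⬝ᵥ a.2.1) - cc a.1 (a.2.1 ⬝ᵥ a.2.1)) * (a.2.1 ⬝ᵥ a.2.2.1) /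
        max (a.2.1 ⬝ᵥ a.2.1) 4 := by
      refine Continuous.div ((hμ.sub hc).mul hs) (hN.max continuous_const) fun a => ?_
      have := le_max_right (a.2.1 ⬝ᵥ a.2.1) 4
      intro h
      linarith
    exact (hc.smul g1).add (g3.smul g2)
  · refine ContinuousOn.congr (f := fun _ => (0 : ℝ)) continuousOn_const fun a ha => ?_
    exact if_pos ha

lemma continuous_muN {n : ℕ} : Continuous fun a : unitInterval × E n =>
    mu a.1 (a.2.1 ⬝ᵥ a.2.1) :=
  continuous_mu.comp (Continuous.prodMk (by fun_prop)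
    (continuous_dot_comp (by fun_prop) (by fun_prop)))

/-- The homotopy on `X_n`. -/
noncomputable def xH (n : ℕ) (a : unitInterval × OnePoint (sysX.D n)) : OnePoint (sysX.D n) :=
  match a.2 with
  | ∞ => ∞
  | OnePoint.some e => sysX.of (xE ((a.1 : ℝ), e.1))

lemma continuous_xH (n : ℕ) : Continuous (xH n) := by
  let F : OnePoint (unitInterval × sysX.D n) → OnePoint (sysX.D n)
    | ∞ => ∞
    | OnePoint.some a => sysX.of (xE ((a.1 : ℝ), a.2.1))
  have hset : {a : unitInterval × sysX.D n | xE ((a.1 : ℝ), a.2.1) ∈ sysX.D n} =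
      {a : unitInterval × sysX.D n | 0 < mu a.1 (a.2.1.1 ⬝ᵥ a.2.1.1)} := by
    ext a
    exact xE_mem_iff a.1.2.1 a.2.2
  have hι : Continuous fun a : unitInterval × sysX.D n => (a.1, a.2.1) := by fun_prop
  have hι2 : Continuous fun a : unitInterval × sysX.D n => ((a.1 : ℝ), a.2.1) := by fun_prop
  have hF : Continuous F := by
    refine sysX.continuous_of_map (A := unitInterval × sysX.D n) (A' := unitInterval × E n)
      (ψ := fun a => xE ((a.1 : ℝ), a.2.1)) (F := F) rfl (fun a => rfl) ?_ ?_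
      (ι := fun a => (a.1, a.2.1)) ?_ ?_
    · rw [hset]
      exact isOpen_lt continuous_const (continuous_muN.comp hι)
    · rw [hset]
      refine continuousOn_xE.comp hι2.continuousOn ?_
      intro a ha
      exact ha
    · exact (IsInducing.id).prodMap IsInducing.subtypeVal
    · intro C hC hCc
      obtain ⟨R, hR⟩ : ∃ R, ∀ e ∈ C, e.1 ⬝ᵥ e.1 ≤ R := by
        obtain ⟨R, hR⟩ := (hCc.image (f := fun e : E n => e.1 ⬝ᵥ e.1)
          (continuous_dot_comp (by fun_prop) (by fun_prop))).bddAbove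
        exact ⟨R, fun x hx => hR ⟨x, hx, rfl⟩⟩
      have hDcl : IsClosed (sysX.D n) := by
        have : sysX.D n = FP {0} n := by ext e; exact mem_sysX
        rw [this]
        exact isClosed_FP isClosed_singleton n
      have gN : Continuous fun a : unitInterval × E n => a.2.1 ⬝ᵥ a.2.1 :=
        continuous_dot_comp (by fun_prop) (by fun_prop)
      refine ⟨{a | a.2 ∈ sysX.D n ∧ a.2.1 ⬝ᵥ a.2.1 ≤ R * mu a.1 (a.2.1 ⬝ᵥ a.2.1) ^ 2}, ?_, ?_,
        ?_, ?_⟩
      · refine (isCompact_univ.prod ((isCompact_dot_le (n := n) (max R 0)).prod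
          ((isCompact_dot_le (n := n) 1).prod (isCompact_singleton (x := (0 : ℝ)))))).of_isClosed_subset
          ((hDcl.preimage continuous_snd).inter (isClosed_le gN
            (continuous_const.mul (continuous_muN.pow 2)))) ?_
        rintro ⟨t, e⟩ ⟨h1, h2⟩
        simp only at h1 h2
        rw [mem_sysX_iff] at h1
        refine ⟨mem_univ _, ?_, ?_, h1.2⟩
        · show e.1 ⬝ᵥ e.1 ≤ max R 0
          have h3 := mu_nonneg t (e.1 ⬝ᵥ e.1)
          have h4 := mu_le_one t.2.1 (e.1 ⬝ᵥ e.1)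
          have h5 : mu t (e.1 ⬝ᵥ e.1) ^ 2 ≤ 1 := by nlinarith
          have h6 : 0 ≤ mu t (e.1 ⬝ᵥ e.1) ^ 2 := sq_nonneg _
          have h7 := le_max_left R 0
          have h8 := le_max_right R 0
          nlinarith
        · show e.2.1 ⬝ᵥ e.2.1 ≤ 1
          rw [h1.1.2.1]
          have h3 := K_nonneg h1.1.1
          have h4 := K_le_one h1.1.1
          nlinarith
      · rintro ⟨t, e⟩ ⟨h1, _⟩
        exact ⟨(t, ⟨e, h1⟩), rfl⟩
      · rintro a ⟨h1, h2⟩
        rw [xE_mem_iff a.1.2.1 a.2.2]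
        refine lt_of_le_of_ne (mu_nonneg _ _) fun h3 => ?_
        simp only at h2
        rw [← h3] at h2
        have h4 : a.2.1.1 ⬝ᵥ a.2.1.1 ≤ 4 := by
          have : a.2.1.1 ⬝ᵥ a.2.1.1 ≤ 0 := by simpa using h2
          linarith
        rw [mu_eq_one h4] at h3
        exact zero_ne_one h3
      · intro a ha
        refine ⟨a.2.2, ?_⟩
        have h1 := (xE_mem_iff a.1.2.1 a.2.2).1 (hC ha)
        have h2 := hR _ ha
        simp only [xE, smul_dotProduct, dotProduct_smul, smul_eq_mul] at h2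
        show a.2.1.1 ⬝ᵥ a.2.1.1 ≤ R * mu a.1 (a.2.1.1 ⬝ᵥ a.2.1.1) ^ 2
        have h3 := mul_le_mul_of_nonneg_right h2 (sq_nonneg (mu a.1 (a.2.1.1 ⬝ᵥ a.2.1.1)))
        refine le_trans (le_of_eq ?_) h3
        have h4 : ∀ c N : ℝ, c ≠ 0 → N = c⁻¹ * (c⁻¹ * N) * c ^ 2 := by
          intro c N hc
          field_simp
        exact h4 _ _ h1.ne'
  have h2 : xH n = fun a => F (collapse ((a.1 : OnePoint unitInterval), a.2)) := by
    funext ⟨t, x⟩
    induction x using OnePoint.rec with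
    | infty => rfl
    | coe x => rfl
  rw [h2]
  refine hF.comp (continuous_collapse.comp ?_)
  exact (OnePoint.continuous_coe.comp continuous_fst).prodMk continuous_snd

lemma wellPointed_sysX (n : ℕ) : WellPointed (∞ : OnePoint (sysX.D n)) := by
  have hww : Continuous fun e : sysX.D n => e.1.1 ⬝ᵥ e.1.1 :=
    continuous_dot_comp (by fun_prop) (by fun_prop)
  have hpos : ∀ e : sysX.D n, 0 < 1 + e.1.1 ⬝ᵥ e.1.1 := fun e => by
    have := dot_self_nonneg e.1.1
    linarith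
  refine wellPointed_of (fun e => 6 / (1 + e.1.1 ⬝ᵥ e.1.1))
    (continuous_const.div (continuous_const.add hww) fun e => (hpos e).ne') ?_ ?_
    (xH n) (continuous_xH n) ?_ (fun t => rfl) ?_
  · intro e
    exact div_pos (by norm_num) (hpos e)
  · intro ε hε
    refine ⟨{e | e.1.1 ⬝ᵥ e.1.1 ≤ 6 / ε}, ?_, ?_⟩
    · rw [IsInducing.subtypeVal.isCompact_iff]
      have hDcl : IsClosed (sysX.D n) := by
        have : sysX.D n = FP {0} n := by ext e; exact mem_sysX
        rw [this]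
        exact isClosed_FP isClosed_singleton n
      have gN : Continuous fun a : E n => a.1 ⬝ᵥ a.1 :=
        continuous_dot_comp (by fun_prop) (by fun_prop)
      have himg : Subtype.val '' {e : sysX.D n | e.1.1 ⬝ᵥ e.1.1 ≤ 6 / ε} =
          sysX.D n ∩ {e | e.1 ⬝ᵥ e.1 ≤ 6 / ε} := by
        ext e
        constructor
        · rintro ⟨e, he, rfl⟩
          exact ⟨e.2, he⟩
        · rintro ⟨h1, h2⟩
          exact ⟨⟨e, h1⟩, h2, rfl⟩
      rw [himg]
      refine ((isCompact_dot_le (n := n) (6 / ε)).prod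
          ((isCompact_dot_le (n := n) 1).prod (isCompact_singleton (x := (0 : ℝ))))).of_isClosed_subset
          (hDcl.inter (isClosed_le gN continuous_const)) ?_
      rintro e ⟨h1, h2⟩
      rw [mem_sysX_iff] at h1
      refine ⟨h2, ?_, h1.2⟩
      show e.2.1 ⬝ᵥ e.2.1 ≤ 1
      rw [h1.1.2.1]
      have h3 := K_nonneg h1.1.1
      have h4 := K_le_one h1.1.1
      nlinarith
    · intro e he
      have he' : ¬ e.1.1 ⬝ᵥ e.1.1 ≤ 6 / ε := he
      show 6 / (1 + e.1.1 ⬝ᵥ e.1.1) < ε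
      rw [div_lt_iff₀ (hpos e)]
      push Not at he'
      rw [div_lt_iff₀ hε] at he'
      nlinarith
  · intro x
    rcases sysX.exists_of x with rfl | ⟨e, he, rfl⟩
    · rfl
    · rw [sysX.of_mem he]
      show sysX.of (xE (((0 : unitInterval) : ℝ), e)) = _
      rw [← sysX.of_mem he]
      congr 1
      have h0 : e.2.2 = 0 := (mem_sysX_iff.1 he).2
      simp only [xE, Set.Icc.coe_zero, mu_zero_left, cc_zero_left]
      refine Prod.ext (by simp) (Prod.ext (by simp) ?_)
      simp [h0]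
  · intro e he
    have he' : 6 / (1 + e.1.1 ⬝ᵥ e.1.1) < 1 := he
    rw [div_lt_one (hpos e)] at he'
    refine sysX.of_notMem fun h => ?_
    rw [xE_mem_iff (Set.Icc.coe_nonneg _) e.2, Set.Icc.coe_one] at h
    have : mu 1 (e.1.1 ⬝ᵥ e.1.1) = 0 := by
      rw [mu]
      apply max_eq_left
      have := le_max_right 0 (e.1.1 ⬝ᵥ e.1.1 - 4)
      linarith
    rw [this] at h
    exact lt_irrefl _ h

end Pool.Agent.Work.MP_783066_gt
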